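import Pool.Agent.PL3.WdP
import Pool.Agent.P3.Main
import Pool.Agent.PLN.Pc

/-!
# Symanzik polynomials of planar graphs: definitions

Nothing in this file is used in the statement of the final theorem (see `PLN/Pc.lean`).

A graph is called planar if it has a dual graph `l`, `r`: over `ℚ` its cycles are the coboundaries of `l`, `r`.
No connectedness is required.  A graph with terminals in a disc is given by the relation between its currents
and the currents into the terminals.
-/

set_option autoImplicit false

open scoped BigOperators

namespace Pool.Agent.PL3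

open Pool.Agent.KG Pool.Agent.P3

/-- `l`, `r` is a dual graph of `s`, `t`: the cycles of `s`, `t` are the coboundaries of `l`, `r`. -/
def Du {V E D : Type} [Fintype E] (s t : E → V) (l r : E → D) : Prop :=
  ∀ x : E → ℚ, (∀ v, net s t x v = 0) ↔ ∃ φ : D → ℚ, ∀ e, x e = φ (l e) - φ (r e)

/-- Planar graphs. -/
def Pl {V E : Type} [Fintype E] (s t : E → V) : Prop :=
  ∃ (D : Type) (_ : Finite D) (l r : E → D), Du s t l r

open Classical in
/-- The terminals `a 0, …, a n` are in cyclic order at the boundary of a disc, `g k` is the face at the boundary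
between the terminals `k - 1` and `k`. -/
def DuN {V E D : Type} [Fintype E] {n : ℕ} (s t : E → V) (a : Fin (n + 1) → V) (l r : E → D)
    (g : Fin (n + 1) → D) : Prop :=
  ∀ (x : E → ℚ) (j : Fin (n + 1) → ℚ), (∀ v, net s t x v = ∑ k, if a k = v then j k else 0) ↔
    ∃ φ : D → ℚ, (∀ e, x e = φ (l e) - φ (r e)) ∧ ∀ k, j k = φ (g (k + 1)) - φ (g k)

/-- Planar graphs with terminals. -/
def PlN {V E : Type} [Fintype E] {n : ℕ} (s t : E → V) (a : Fin (n + 1) → V) : Prop :=
  ∃ (D : Type) (_ : Finite D) (l r : E → D) (g : Fin (n + 1) → D), DuN s t a l r g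

open Classical in
/-- The face before the edge `e` which leaves the vertex `v`. -/
noncomputable def tl {V E D : Type} (s : E → V) (l r : E → D) (v : V) (e : E) : D :=
  if s e = v then r e else l e

open Classical in
/-- The face after the edge `e` which leaves the vertex `v`. -/
noncomputable def hd {V E D : Type} (s : E → V) (l r : E → D) (v : V) (e : E) : D :=
  if s e = v then l e else r e

/-- The functions `ns` of the planar graphs all whose vertices have degree at most four. -/
def PPhi4 : Set (FinField → ℤ) :=
  {f | ∃ (V E : Type) (_ : Fintype V) (_ : Fintype E) (s t : E → V), (∀ v, deg s t v ≤ 4) ∧ Pl s t ∧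
    f = ns s t}

/-- The planar graphs without loops, all degrees at most four, at most `m` vertices of degree four. -/
def PGm (m : ℕ) : Set (FinField → ℤ) :=
  {f | ∃ (V E : Type) (_ : Fintype V) (_ : Fintype E) (s t : E → V), LL s t ∧ (∀ v, deg s t v ≤ 4) ∧
    {v | deg s t v = 4}.ncard ≤ m ∧ Pl s t ∧ f = ns s t}

/-- The functions `ns` of the connected planar 3-regular multigraphs without loops. -/
def PReg3S : Set (FinField → ℤ) := {f | ∃ G : PLN.PlanarCubic, f = ns G.s G.t}

end Pool.Agent.PL3
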