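import Pool.Agent.PL3.Ops

/-!
# The planar gadgets with three terminals
-/

set_option autoImplicit false

open scoped BigOperators

namespace Pool.Agent.PL3

open Pool.Agent.KG Pool.Agent.P3

open Classical in
private theorem TH3_sum {W : Type} (p : Fin 3 → W) (j : Fin 3 → ℚ) (w : W) :
    (∑ k, if p k = w then j k else 0) =
      (if p 0 = w then j 0 else 0) + (if p 1 = w then j 1 else 0) + (if p 2 = w then j 2 else 0) :=
  Fin.sum_univ_three _

/-- MODULE TH3.  A vertex `v` and an edge from `v` to `u` are opened.

Proof.  `net_ae`, `net_spl`.  Let `x : E → ℚ`, `j : Fin 3 → ℚ`.  The equations of `DuN` are: at `some u`: `net s t x u = j 0`;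
at `none`: `∑ e ∈ J, (if s e = v then x e else - x e) = j 1`; at `some v`: `net s t x v - (the same sum) = j 2`; `0` at the other
vertices (`u ≠ v` by `hl none`).  They imply `j 0 + j 1 + j 2 = 0` (`P3.sum_net`, or `net_ae` and the other equations), so
`o ↦ o.elim (j 0) x` is a cycle of `ae v s`, `ae u t`: (→) it is the coboundary of some `φ`: `j 0 = φ (l none) - φ (r none)`,
`j 1 = φ d - φ (l none)` by `hJd` (for `e ∈ J`: `if s e = v then x e else - x e = φ (hd e) - φ (tl e)`), `j 2 = - j 0 - j 1`.
(←) The same equations backwards.  For `j 0 + j 1 + j 2 = 0` in (→): sum of `net (spl v J s) (spl v J t) x` over all vertices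
(`[Fintype V]`, `P3.sum_net`). -/
theorem duN_three {V E D : Type} [Fintype V] [Fintype E] (s t : E → V) (u v : V)
    (hl : LL (ae v s) (ae u t)) (l r : Option E → D) (h : Du (ae v s) (ae u t) l r) (J : Finset E)
    (hJ : ∀ e ∈ J, s e = v ∨ t e = v) (d : D)
    (hJd : ∀ φ : D → ℚ, ∑ e ∈ J, (φ (hd s (l ∘ some) (r ∘ some) v e) - φ (tl s (l ∘ some) (r ∘ some) v e)) =
      φ d - φ (l none)) :
    DuN (spl v J s) (spl v J t) ![some u, none, some v] (l ∘ some) (r ∘ some) ![r none, l none, d] := by
  classical
  intro x j
  have hls : LL s t := fun e => hl (some e)
  have huv : v ≠ u := hl none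
  obtain ⟨n1, n2, n3⟩ := net_spl s t hls v J hJ x
  have hS : ∀ φ : D → ℚ, (∀ e, x e = φ (l (some e)) - φ (r (some e))) →
      ∑ e ∈ J, (if s e = v then x e else - x e) = φ d - φ (l none) := by
    intro φ hφ
    rw [← hJd φ]
    refine Finset.sum_congr rfl fun e _ => ?_
    unfold hd tl
    by_cases h1 : s e = v
    · simp only [h1, if_true, Function.comp]
      exact hφ e
    · simp only [h1, if_false, Function.comp]
      rw [hφ e]
      ring
  have hy : ∀ w : V, net (ae v s) (ae u t) (fun o : Option E => o.elim (j 0) x) w =
      net s t x w + (if v = w then j 0 else 0) - (if u = w then j 0 else 0) := fun w => net_ae _ _ _ _ _ _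
  constructor
  · intro hx
    have q0 := (hx none).trans (TH3_sum _ j _)
    have qv := (hx (some v)).trans (TH3_sum _ j _)
    have qw : ∀ w, w ≠ v → net s t x w = if u = w then j 0 else 0 := by
      intro w hw
      have h1 := (hx (some w)).trans (TH3_sum _ j _)
      rw [n3 w hw] at h1
      rw [h1]
      simp [Ne.symm hw]
    rw [n1] at q0
    rw [n2] at qv
    replace q0 : ∑ e ∈ J, (if s e = v then x e else - x e) = j 1 := by simpa using q0
    replace qv : net s t x v - ∑ e ∈ J, (if s e = v then x e else - x e) = j 2 := by
      simpa [huv.symm] using qv
    have hs0 : j 0 + j 1 + j 2 = 0 := by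
      have h1 := sum_net (K := ℚ) (spl v J s) (spl v J t) x
      rw [Finset.sum_congr rfl fun w _ => (hx w).trans (TH3_sum _ j w), Finset.sum_add_distrib,
        Finset.sum_add_distrib] at h1
      simpa using h1
    obtain ⟨φ, hφ⟩ := (h fun o : Option E => o.elim (j 0) x).1 (fun w => by
      rw [hy]
      by_cases hw : w = v
      · subst hw
        simp only [if_true, huv.symm, if_false]
        linarith
      · rw [qw w hw]
        simp only [Ne.symm hw, if_false]
        ring)
    have g1 := hφ none
    have hS1 := hS φ fun e => hφ (some e)
    simp only [Option.elim] at g1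
    refine ⟨φ, fun e => hφ (some e), fun k => ?_⟩
    fin_cases k
    · show j 0 = φ (l none) - φ (r none)
      exact g1
    · show j 1 = φ d - φ (l none)
      rw [← hS1, q0]
    · show j 2 = φ (r none) - φ d
      linarith
  · rintro ⟨φ, hφ, hj⟩
    have j0 : j 0 = φ (l none) - φ (r none) := hj 0
    have j1 : j 1 = φ d - φ (l none) := hj 1
    have j2 : j 2 = φ (r none) - φ d := hj 2
    have hc := (h fun o : Option E => o.elim (j 0) x).2 ⟨φ, fun o => by
      cases o with
      | none => exact j0
      | some e => exact hφ e⟩
    have hS1 := hS φ hφ
    intro w
    refine Eq.trans ?_ (TH3_sum _ j w).symm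
    cases w with
    | none =>
      rw [n1, hS1, ← j1]
      simp
    | some w =>
      have h1 := hc w
      rw [hy] at h1
      by_cases hw : w = v
      · subst hw
        rw [n2, hS1]
        simp only [if_true, huv.symm, if_false] at h1
        simp [huv.symm]
        linarith
      · rw [n3 w hw]
        simp only [Ne.symm hw, if_false] at h1
        simp [Ne.symm hw]
        linarith

private theorem F11_none {V E : Type} [Fintype E] (s t : E → V) (x : E → ℚ) :
    net (fun e => some (s e)) (fun e => some (t e)) x none = 0 := by
  simp [net]

private theorem F11_if {p q : Prop} (ip : Decidable p) (iq : Decidable q) (h : p ↔ q) (y : ℚ) :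
    @ite ℚ p ip y 0 = @ite ℚ q iq y 0 := by
  by_cases hq : q
  · rw [if_pos hq, if_pos (h.2 hq)]
  · rw [if_neg hq, if_neg fun hp => hq (h.1 hp)]

private theorem F11_some {V E : Type} [Fintype E] (s t : E → V) (x : E → ℚ) (v : V) :
    net (fun e => some (s e)) (fun e => some (t e)) x (some v) = net s t x v := by
  unfold net
  exact congrArg₂ (fun u w : ℚ => u - w)
    (Finset.sum_congr rfl fun e _ => F11_if _ _ Option.some_inj _)
    (Finset.sum_congr rfl fun e _ => F11_if _ _ Option.some_inj _)

open Classical in
private noncomputable def F11_k {V : Type} (a v : V) : ℚ := if a = v then 1 else 0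

private theorem F11_ite {V : Type} (a v : V) [Decidable (a = v)] (y : ℚ) :
    (if a = v then y else 0) = y * F11_k a v := by
  unfold F11_k
  by_cases h : a = v
  · rw [if_pos h, if_pos h, mul_one]
  · rw [if_neg h, if_neg h, mul_zero]

private theorem F11_nn {V : Type} : F11_k (none : Option V) none = 1 := if_pos rfl

private theorem F11_ns {V : Type} (v : V) : F11_k none (some v) = 0 :=
  if_neg (Option.some_ne_none v).symm

private theorem F11_sn {V : Type} (v : V) : F11_k (some v) none = 0 := if_neg (Option.some_ne_none v)

private theorem F11_ss {V : Type} (a v : V) : F11_k (some a) (some v) = F11_k a v := by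
  unfold F11_k
  exact F11_if _ _ Option.some_inj _

private theorem F11_star {V E : Type} [Fintype E] (s t : E → V) (a b c : V)
    (x : Option (Option (Option E)) → ℚ) (v : Option V) :
    net (starS a b s) (starT c t) x v =
      net (fun e => some (s e)) (fun e => some (t e)) (fun e => x (some (some (some e)))) v +
      x (some (some none)) * F11_k none v - x (some (some none)) * F11_k (some c) v +
      x (some none) * F11_k (some a) v - x (some none) * F11_k none v +
      x none * F11_k (some b) v - x none * F11_k none v := by
  unfold starS starT
  rw [net_ae, net_ae, net_ae]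
  simp only [F11_ite]

/-- MODULE F11.  The biggest gadget: a vertex `w` joined to `a`, `b`, `c` and a vertex `w'` joined to `a`, `b`, `w`.

Proof.  Let `D`, `l`, `r`, `g` be given for the terminals `c`, `b`, `a`.  The vertex `w'` is `none`, `w` is `some none`.  The edges
from the outside to the inside (with source and target): `1 = (b, w')`, `2 = (a, w')`, `3 = (w', w)`, `4 = (b, w)`, `5 = (a, w)`,
`6 = (w, c)`, then the old ones.  Dual graph on `Option (Option D)` with the new faces `F = none` (between `b`, `w`, `w'`) and
`F' = some none` (between `a`, `w`, `w'`): left and right faces `1 = (F, g 2)`, `2 = (g 2, F')`, `3 = (F, F')`, `4 = (g 1, F)`,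
`5 = (F', g 0)`, `6 = (g 1, g 0)`; the old edges as before.  The equations of a current `x1, …, x6`, `x` (`net_ae` six times; old
vertices `some (some w)`): at `w'`: `x3 = x1 + x2`; at `w`: `x6 = x3 + x4 + x5`; at the old vertices: `net s t x v = ∑ k, if ![c, b, a] k
= v then j k else 0` with `j 0 = x6`, `j 1 = - x1 - x4`, `j 2 = - x2 - x5`.  (→) Take `φ` for `x`, `j`; put `φ F = φ (g 1) - x4`,
`φ F' = φ (g 0) + x5`.  Then `x6 = φ (g 1) - φ (g 0)`, `x1 = - j 1 - x4 = φ F - φ (g 2)`, `x2 = - j 2 - x5 = φ (g 2) - φ F'`, `x3 = x1 + x2`.
(←) The same equations backwards. -/
theorem pl_f11 {W E : Type} [Fintype E] (s t : E → W) (a b c : W) (h : PlN s t ![c, b, a]) :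
    Pl (starS (some a) (some b) (starS a b s)) (starT none (starT c t)) := by
  classical
  obtain ⟨D, hD, l, r, g, h⟩ := h
  refine ⟨Option (Option D), inferInstance,
    ae none (ae (some (some (g 2))) (ae none (ae (some (some (g 1))) (ae (some none)
      (ae (some (some (g 1))) fun e => some (some (l e))))))),
    ae (some (some (g 2))) (ae (some none) (ae (some none) (ae none (ae (some (some (g 0)))
      (ae (some (some (g 0))) fun e => some (some (r e))))))), fun x => ?_⟩
  have h2 := h (fun e => x (some (some (some (some (some (some e)))))))
    ![x (some (some (some (some (some none))))),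
      - x (some (some (some none))) - x none,
      - x (some (some (some (some none)))) - x (some none)]
  have e0 : net (starS (some a) (some b) (starS a b s)) (starT none (starT c t)) x none =
      x (some (some none)) - x (some none) - x none := by
    rw [F11_star, F11_none]
    simp only [F11_nn, F11_sn]
    ring
  have e1 : net (starS (some a) (some b) (starS a b s)) (starT none (starT c t)) x (some none) =
      x (some (some (some (some (some none))))) - x (some (some (some (some none)))) -
        x (some (some (some none))) - x (some (some none)) := by
    rw [F11_star, F11_some, F11_star, F11_none]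
    simp only [F11_nn, F11_sn, F11_ns, F11_ss]
    ring
  have e2 : ∀ w, net (starS (some a) (some b) (starS a b s)) (starT none (starT c t)) x (some (some w)) =
      net s t (fun e => x (some (some (some (some (some (some e))))))) w -
        (∑ k, if (![c, b, a] : Fin 3 → W) k = w then (![x (some (some (some (some (some none))))),
          - x (some (some (some none))) - x none,
          - x (some (some (some (some none)))) - x (some none)] : Fin 3 → ℚ) k else 0) := by
    intro w
    rw [F11_star, F11_some, F11_star, F11_some]
    simp only [Fin.sum_univ_three, Matrix.cons_val_zero, Matrix.cons_val_one, Matrix.cons_val, F11_ite,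
      F11_nn, F11_sn, F11_ns, F11_ss]
    ring
  rw [Option.forall, Option.forall, e0, e1]
  have h3 : (∀ w, net (starS (some a) (some b) (starS a b s)) (starT none (starT c t)) x (some (some w)) = 0) ↔
      ∃ φ : D → ℚ, (∀ e, x (some (some (some (some (some (some e)))))) = φ (l e) - φ (r e)) ∧
        ∀ k, (![x (some (some (some (some (some none))))),
          - x (some (some (some none))) - x none,
          - x (some (some (some (some none)))) - x (some none)] : Fin 3 → ℚ) k = φ (g (k + 1)) - φ (g k) := by
    rw [← h2]
    exact forall_congr' fun w => by rw [e2, sub_eq_zero]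
  rw [h3]
  constructor
  · rintro ⟨h4, h5, φ, h6, h7⟩
    have k0 := h7 0
    have k1 := h7 1
    have k2 := h7 2
    simp only [Matrix.cons_val_zero, Matrix.cons_val_one, Matrix.cons_val] at k0 k1 k2
    have z0 : (0 : Fin 3) + 1 = 1 := rfl
    have z1 : (1 : Fin 3) + 1 = 2 := rfl
    have z2 : (2 : Fin 3) + 1 = 0 := rfl
    rw [z0] at k0
    rw [z1] at k1
    rw [z2] at k2
    refine ⟨fun o => o.elim (φ (g 1) - x (some (some (some none)))) fun o =>
      o.elim (φ (g 0) + x (some (some (some (some none))))) φ, fun e => ?_⟩
    rcases e with _ | _ | _ | _ | _ | _ | e <;> simp only [ae, Option.elim]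
    · linarith
    · linarith
    · linarith
    · linarith
    · linarith
    · linarith
    · exact h6 e
  · rintro ⟨φ, h4⟩
    have m1 := h4 none
    have m2 := h4 (some none)
    have m3 := h4 (some (some none))
    have m4 := h4 (some (some (some none)))
    have m5 := h4 (some (some (some (some none))))
    have m6 := h4 (some (some (some (some (some none)))))
    simp only [ae, Option.elim] at m1 m2 m3 m4 m5 m6
    refine ⟨by linarith, by linarith, fun d => φ (some (some d)), fun e => ?_, fun k => ?_⟩
    · exact h4 (some (some (some (some (some (some e))))))
    · fin_cases k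
      · show x (some (some (some (some (some none))))) = φ (some (some (g 1))) - φ (some (some (g 0)))
        linarith
      · show - x (some (some (some none))) - x none = φ (some (some (g 2))) - φ (some (some (g 1)))
        linarith
      · show - x (some (some (some (some none)))) - x (some none) =
          φ (some (some (g 0))) - φ (some (some (g 2)))
        linarith

section

variable {W E : Type} [Fintype W] [Fintype E] (s t : E → W) (a b c : W)

/-- MODULE MIN (1).  Leave out the edge `4` of the big gadget: `pl_sub` with the map `Option^5 E → Option^6 E` which jumps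
over the fourth place. -/
theorem pl_f10 (h : Pl (starS (some a) (some b) (starS a b s)) (starT none (starT c t))) :
    Pl (starS (some a) (some b) (ae (some a) (ae none fun e => some (s e))))
      (starT none (ae none (ae (some c) fun e => some (t e)))) := by
  have h1 := pl_sub _ _ (Option.map (Option.map (Option.map some)) :
    Option (Option (Option (Option (Option E)))) → Option (Option (Option (Option (Option (Option E))))))
    (Option.map_injective (Option.map_injective (Option.map_injective (Option.some_injective _)))) h
  have e1 : starS (some a) (some b) (ae (some a) (ae none fun e => some (s e))) =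
      starS (some a) (some b) (starS a b s) ∘ Option.map (Option.map (Option.map some)) := by
    funext o
    rcases o with _ | _ | _ | o <;> rfl
  have e2 : starT none (ae none (ae (some c) fun e => some (t e))) =
      starT none (starT c t) ∘ Option.map (Option.map (Option.map some)) := by
    funext o
    rcases o with _ | _ | _ | o <;> rfl
  rw [e1, e2]
  exact h1

/-- The edges `1, 4, 5, 6, 2`, rest. -/
private def MIN_i {E : Type} : Option (Option (Option (Option (Option E)))) →
    Option (Option (Option (Option (Option (Option E))))) :=
  fun o => o.elim none fun o => o.elim (some (some (some none))) fun o =>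
    o.elim (some (some (some (some none)))) fun o => o.elim (some (some (some (some (some none))))) fun o =>
      o.elim (some none) fun e => some (some (some (some (some (some e)))))

private theorem MIN_inj {E : Type} : Function.Injective (MIN_i (E := E)) := by
  intro x y hxy
  rcases x with _ | _ | _ | _ | _ | x <;> rcases y with _ | _ | _ | _ | _ | y <;>
    simp only [MIN_i, Option.elim, reduceCtorEq, Option.some.injEq] at hxy ⊢ <;> exact hxy

/-- MODULE MIN (2).  Leave out the edge `3`, then contract `1 = (b, w')`: by `pl_sub` with `ι : Option^5 E → Option^6 E` the edges in the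
order `1, 4, 5, 6, 2`, rest; then `pl_con` with `π none = some b`, `π (some x) = x`: the edge `2` becomes `(a, b)`. -/
theorem pl_f9 (h : Pl (starS (some a) (some b) (starS a b s)) (starT none (starT c t))) :
    Pl (starS a b (ae a s)) (starT c (ae b t)) := by
  have h1 := pl_sub _ _ (MIN_i (E := E)) MIN_inj h
  have h2 : Pl (ae (some (some b)) ((starS (some a) (some b) (starS a b s) ∘ MIN_i) ∘ some))
      (ae none ((starT none (starT c t) ∘ MIN_i) ∘ some)) := by
    have e1 : ae (some (some b)) ((starS (some a) (some b) (starS a b s) ∘ MIN_i) ∘ some) =
        starS (some a) (some b) (starS a b s) ∘ MIN_i := by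
      funext o
      cases o <;> rfl
    have e2 : ae none ((starT none (starT c t) ∘ MIN_i) ∘ some) = starT none (starT c t) ∘ MIN_i := by
      funext o
      cases o <;> rfl
    rw [e1, e2]
    exact h1
  have h3 := pl_con _ _ (some (some b)) none (Option.some_ne_none _)
    (fun o : Option (Option W) => o.elim (some b) id) (by
      intro u v
      rcases u with _ | u <;> rcases v with _ | v
      · simp
      · simp only [Option.elim, id, reduceCtorEq, false_or, false_and, true_and, Option.some.injEq]
        exact eq_comm
      · simp only [Option.elim, id, reduceCtorEq, false_or, and_false, or_false, and_true,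
          Option.some.injEq]
      · simp) h2
  have e1 : starS a b (ae a s) = (fun o : Option (Option W) => o.elim (some b) id) ∘
      ((starS (some a) (some b) (starS a b s) ∘ MIN_i) ∘ some) := by
    funext o
    rcases o with _ | _ | _ | _ | o <;> rfl
  have e2 : starT c (ae b t) = (fun o : Option (Option W) => o.elim (some b) id) ∘
      ((starT none (starT c t) ∘ MIN_i) ∘ some) := by
    funext o
    rcases o with _ | _ | _ | _ | o <;> rfl
  rw [e1, e2]
  exact h3

/-- MODULE MIN (3).  Leave out the edges `1`, `2` (outermost), contract `3 = (w', w)`: `pl_con` with `π none = none`, `π (some x) = x`.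
Or from `pl_f9` by leaving out the edge `(a, b)`. -/
theorem pl_f8 (h : Pl (starS (some a) (some b) (starS a b s)) (starT none (starT c t))) :
    Pl (starS a b s) (starT c t) := by
  have h1 := pl_sub _ _ (Option.map (Option.map (Option.map some)) :
    Option (Option (Option E)) → Option (Option (Option (Option E))))
    (Option.map_injective (Option.map_injective (Option.map_injective (Option.some_injective _))))
    (pl_f9 s t a b c h)
  have e1 : starS a b s = starS a b (ae a s) ∘ Option.map (Option.map (Option.map some)) := by
    funext o
    rcases o with _ | _ | _ | o <;> rfl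
  have e2 : starT c t = starT c (ae b t) ∘ Option.map (Option.map (Option.map some)) := by
    funext o
    rcases o with _ | _ | _ | o <;> rfl
  rw [e1, e2]
  exact h1

/-- Contract the edge `(w, c)`. -/
private theorem MIN_con {W E : Type} [Fintype W] [Fintype E] (s t : E → Option W) (c : W)
    (h : Pl (ae none s) (ae (some c) t)) : Pl (fun e => (s e).elim c id) (fun e => (t e).elim c id) := by
  refine pl_con s t none (some c) (Option.some_ne_none _).symm (fun o : Option W => o.elim c id) ?_ h
  intro u v
  rcases u with _ | u <;> rcases v with _ | v
  · simp
  · simp only [Option.elim, id, reduceCtorEq, false_or, false_and, true_and, Option.some.injEq, or_false]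
    exact eq_comm
  · simp only [Option.elim, id, reduceCtorEq, false_or, and_false, and_true, Option.some.injEq]
  · simp

/-- MODULE MIN (4).  From `pl_f9`: the edges `(w, c)`, `(a, b)`, rest; contract `(w, c)`: `π none = c`, `π (some x) = x`. -/
theorem pl_f7 (h : Pl (starS (some a) (some b) (starS a b s)) (starT none (starT c t))) :
    Pl (ae a s) (ae b t) := by
  have h1 : Pl (ae none fun o => some (ae a s o)) (ae (some c) fun o => some (ae b t o)) := by
    have h2 := pl_sub _ _ (fun o : Option (Option E) => some (some o))
      (fun x y hxy => by simpa using hxy) (pl_f9 s t a b c h)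
    have e1 : (ae none fun o => some (ae a s o)) =
        starS a b (ae a s) ∘ fun o : Option (Option E) => some (some o) := by
      funext o
      rcases o with _ | _ | o <;> rfl
    have e2 : (ae (some c) fun o => some (ae b t o)) =
        starT c (ae b t) ∘ fun o : Option (Option E) => some (some o) := by
      funext o
      rcases o with _ | _ | o <;> rfl
    rw [e1, e2]
    exact h2
  exact MIN_con _ _ c h1

/-- MODULE MIN (5).  From `pl_f9`: the edges `(w, c)`, `(a, b)`, `(b, w)`, rest; contract `(w, c)`. -/
theorem pl_f6 (h : Pl (starS (some a) (some b) (starS a b s)) (starT none (starT c t))) :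
    Pl (ae a (ae b s)) (ae b (ae c t)) := by
  have h1 : Pl (ae none (ae (some a) (ae (some b) fun o => some (s o))))
      (ae (some c) (ae (some b) (ae none fun o => some (t o)))) := by
    have h2 := pl_sub _ _ (fun o : Option (Option (Option E)) => o.elim (some (some none)) fun o =>
      o.elim (some (some (some none))) fun o => o.elim none fun e => some (some (some (some e))))
      (by
        intro x y hxy
        rcases x with _ | _ | _ | x <;> rcases y with _ | _ | _ | y <;>
          simp only [Option.elim, reduceCtorEq, Option.some.injEq] at hxy ⊢ <;> exact hxy)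
      (pl_f9 s t a b c h)
    have e1 : (ae none (ae (some a) (ae (some b) fun o => some (s o)))) =
        starS a b (ae a s) ∘ (fun o : Option (Option (Option E)) => o.elim (some (some none)) fun o =>
      o.elim (some (some (some none))) fun o => o.elim none fun e => some (some (some (some e)))) := by
      funext o
      rcases o with _ | _ | _ | o <;> rfl
    have e2 : (ae (some c) (ae (some b) (ae none fun o => some (t o)))) =
        starT c (ae b t) ∘ (fun o : Option (Option (Option E)) => o.elim (some (some none)) fun o =>
      o.elim (some (some (some none))) fun o => o.elim none fun e => some (some (some (some e)))) := by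
      funext o
      rcases o with _ | _ | _ | o <;> rfl
    rw [e1, e2]
    exact h2
  have h3 := MIN_con _ _ c h1
  have e1 : ae a (ae b s) = fun e => (ae (some a) (ae (some b) fun o => some (s o)) e).elim c id := by
    funext o
    rcases o with _ | _ | o <;> rfl
  have e2 : ae b (ae c t) = fun e => (ae (some b) (ae none fun o => some (t o)) e).elim c id := by
    funext o
    rcases o with _ | _ | o <;> rfl
  rw [e1, e2]
  exact h3

/-- MODULE MIN (6).  From `pl_f9`: the edges `(w, c)`, `(a, b)`, `(a, w)`, rest; contract `(w, c)`. -/
theorem pl_f5 (h : Pl (starS (some a) (some b) (starS a b s)) (starT none (starT c t))) :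
    Pl (ae a (ae a s)) (ae b (ae c t)) := by
  have h1 : Pl (ae none (ae (some a) (ae (some a) fun o => some (s o))))
      (ae (some c) (ae (some b) (ae none fun o => some (t o)))) := by
    have h2 := pl_sub _ _ (fun o : Option (Option (Option E)) => o.elim (some (some none)) fun o =>
      o.elim (some (some (some none))) fun o => o.elim (some none) fun e => some (some (some (some e))))
      (by
        intro x y hxy
        rcases x with _ | _ | _ | x <;> rcases y with _ | _ | _ | y <;>
          simp only [Option.elim, reduceCtorEq, Option.some.injEq] at hxy ⊢ <;> exact hxy)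
      (pl_f9 s t a b c h)
    have e1 : (ae none (ae (some a) (ae (some a) fun o => some (s o)))) =
        starS a b (ae a s) ∘ (fun o : Option (Option (Option E)) => o.elim (some (some none)) fun o =>
      o.elim (some (some (some none))) fun o => o.elim (some none) fun e => some (some (some (some e)))) := by
      funext o
      rcases o with _ | _ | _ | o <;> rfl
    have e2 : (ae (some c) (ae (some b) (ae none fun o => some (t o)))) =
        starT c (ae b t) ∘ (fun o : Option (Option (Option E)) => o.elim (some (some none)) fun o =>
      o.elim (some (some (some none))) fun o => o.elim (some none) fun e => some (some (some (some e)))) := by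
      funext o
      rcases o with _ | _ | _ | o <;> rfl
    rw [e1, e2]
    exact h2
  have h3 := MIN_con _ _ c h1
  have e1 : ae a (ae a s) = fun e => (ae (some a) (ae (some a) fun o => some (s o)) e).elim c id := by
    funext o
    rcases o with _ | _ | o <;> rfl
  have e2 : ae b (ae c t) = fun e => (ae (some b) (ae none fun o => some (t o)) e).elim c id := by
    funext o
    rcases o with _ | _ | o <;> rfl
  rw [e1, e2]
  exact h3

/-- MODULE MIN (7).  From `pl_f6` by leaving out the first edge. -/
theorem pl_f3 (h : Pl (starS (some a) (some b) (starS a b s)) (starT none (starT c t))) :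
    Pl (ae b s) (ae c t) := by
  exact pl_sub _ _ some (Option.some_injective _) (pl_f6 s t a b c h)

/-- MODULE MIN (8).  From `pl_f5` by leaving out the first edge. -/
theorem pl_f2 (h : Pl (starS (some a) (some b) (starS a b s)) (starT none (starT c t))) :
    Pl (ae a s) (ae c t) := by
  exact pl_sub _ _ some (Option.some_injective _) (pl_f5 s t a b c h)

/-- MODULE MIN (9). -/
theorem pl_f4 (h : Pl (starS (some a) (some b) (starS a b s)) (starT none (starT c t))) : Pl s t := by
  exact pl_sub _ _ some (Option.some_injective _) (pl_f7 s t a b c h)

end

end Pool.Agent.PL3
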