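import Pool.Agent.PL3.Defs

/-!
# Cycles and coboundaries over `ℚ`; dual graphs and spanning trees

`net s t x v` is the net current of `x` out of the vertex `v` (`P3.net` over `ℚ`).
-/

set_option autoImplicit false

open scoped BigOperators

namespace Pool.Agent.PL3

open Pool.Agent.KG Pool.Agent.P3

/-- MODULE NET (1).  Unfold `net`, `PLN.ic`, `PLN.kd`; `Finset.sum_sub_distrib`, `mul_ite`. -/
theorem net_ic {V E : Type} [Fintype E] (s t : E → V) (x : E → ℚ) (v : V) :
    net s t x v = ∑ e, x e * (PLN.ic s t e v : ℚ) := by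
  unfold net PLN.ic PLN.kd
  rw [← Finset.sum_sub_distrib]
  refine Finset.sum_congr rfl fun e _ => ?_
  push_cast
  rw [mul_sub, mul_ite, mul_ite, mul_one, mul_zero]

/-- MODULE NET (2).  Both sums: `Finset.sum_ite_eq`, after exchanging the order of summation. -/
theorem net_pair {V E : Type} [Fintype V] [Fintype E] (s t : E → V) (x : E → ℚ) (ψ : V → ℚ) :
    ∑ v, ψ v * net s t x v = ∑ e, x e * (ψ (s e) - ψ (t e)) := by
  classical
  unfold net
  simp only [mul_sub, Finset.mul_sum, Finset.sum_sub_distrib]
  congr 1
  · rw [Finset.sum_comm]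
    refine Finset.sum_congr rfl fun e _ => ?_
    simp only [mul_ite, mul_zero]
    rw [Finset.sum_ite_eq]
    simp [mul_comm]
  · rw [Finset.sum_comm]
    refine Finset.sum_congr rfl fun e _ => ?_
    simp only [mul_ite, mul_zero]
    rw [Finset.sum_ite_eq]
    simp [mul_comm]

/-- MODULE NET (3).  `net` is linear in `x` (unfold; `Finset.sum_add_distrib`, `Finset.mul_sum`). -/
theorem net_add {V E : Type} [Fintype E] (s t : E → V) (x y : E → ℚ) (v : V) :
    net s t (fun e => x e + y e) v = net s t x v + net s t y v := by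
  classical
  unfold net
  have h1 : ∀ w : E → V, (∑ e, if w e = v then x e + y e else 0) =
      (∑ e, if w e = v then x e else 0) + ∑ e, if w e = v then y e else 0 := by
    intro w
    rw [← Finset.sum_add_distrib]
    refine Finset.sum_congr rfl fun e _ => ?_
    split_ifs
    · rfl
    · rw [add_zero]
  rw [h1, h1]
  ring

/-- MODULE NET (4). -/
theorem net_smul {V E : Type} [Fintype E] (s t : E → V) (c : ℚ) (x : E → ℚ) (v : V) :
    net s t (fun e => c * x e) v = c * net s t x v := by
  unfold net
  rw [mul_sub, Finset.mul_sum, Finset.mul_sum]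
  simp only [mul_ite, mul_zero]

open Classical in
/-- MODULE NET (5).  The new edge from `a` to `b`: `Fintype.sum_option`. -/
theorem net_ae {V E : Type} [Fintype E] (s t : E → V) (a b : V) (x : Option E → ℚ) (v : V) :
    net (ae a s) (ae b t) x v = net s t (fun e => x (some e)) v + (if a = v then x none else 0) -
      (if b = v then x none else 0) := by
  have h1 : ∀ (c : V) (u : E → V), (∑ e : Option E, if ae c u e = v then x e else 0) =
      (if c = v then x none else 0) + ∑ e, if u e = v then x (some e) else 0 := by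
    intro c u
    rw [Fintype.sum_option]
    rfl
  unfold net
  rw [h1, h1]
  ring

open Classical in
/-- MODULE NET (6).  The image of a graph: sum over the fibre. -/
theorem net_map {V W E : Type} [Fintype V] [Fintype E] (s t : E → V) (π : V → W) (x : E → ℚ) (w : W) :
    net (π ∘ s) (π ∘ t) x w = ∑ v, if π v = w then net s t x v else 0 := by
  have h1 : ∀ u : E → V, (∑ v, if π v = w then (∑ e, if u e = v then x e else 0) else 0) =
      ∑ e, if π (u e) = w then x e else 0 := by
    intro u
    have h2 : ∀ v, (if π v = w then (∑ e, if u e = v then x e else 0) else 0) =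
        ∑ e, if u e = v then (if π v = w then x e else 0) else 0 := by
      intro v
      split_ifs with h
      · rfl
      · simp
    rw [Finset.sum_congr rfl fun v _ => h2 v, Finset.sum_comm]
    refine Finset.sum_congr rfl fun e _ => ?_
    simp
  unfold net
  have h3 : ∀ v, (if π v = w then ((∑ e, if s e = v then x e else 0) - ∑ e, if t e = v then x e else 0) else 0) =
      (if π v = w then (∑ e, if s e = v then x e else 0) else 0) -
        (if π v = w then (∑ e, if t e = v then x e else 0) else 0) := by
    intro v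
    split_ifs
    · rfl
    · rw [sub_zero]
  rw [Finset.sum_congr rfl fun v _ => h3 v, Finset.sum_sub_distrib, h1, h1]
  rfl

open Classical in
/-- MODULE FLO.  In a connected graph there is a current from `a` to `b`.

Proof.  Let `T` be the tree; by induction on `Relation.ReflTransGen` (from `a` to `b`, `hT.2 a b`): `x = 0` for `refl`; for a
step along the edge `e` add `± Pi.single e 1` (`net_add`; the net of `Pi.single e c` at `v` is
`c * ((if s e = v then 1 else 0) - if t e = v then 1 else 0)`). -/
theorem exists_flow {V E : Type} [Fintype V] [Fintype E] (s t : E → V) (T : Finset E) (hT : IsTree s t T)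
    (a b : V) : ∃ x : E → ℚ, ∀ v, net s t x v = (if a = v then 1 else 0) - (if b = v then 1 else 0) := by
  have key : ∀ (e : E) (v : V), net s t (fun i => if i = e then (1 : ℚ) else 0) v =
      (if s e = v then 1 else 0) - (if t e = v then 1 else 0) := by
    intro e v
    unfold net
    congr 1
    · rw [Finset.sum_eq_single e]
      · dsimp only
        rw [if_pos rfl]
      · intro i _ hi
        dsimp only
        rw [if_neg hi, ite_self]
      · intro h
        exact absurd (Finset.mem_univ e) h
    · rw [Finset.sum_eq_single e]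
      · dsimp only
        rw [if_pos rfl]
      · intro i _ hi
        dsimp only
        rw [if_neg hi, ite_self]
      · intro h
        exact absurd (Finset.mem_univ e) h
  have hab := hT.2 a b
  induction hab with
  | refl =>
    refine ⟨fun _ => 0, fun v => ?_⟩
    rw [sub_self]
    unfold net
    simp
  | tail _ hs ih =>
    obtain ⟨x, hx⟩ := ih
    obtain ⟨e, -, he⟩ := hs
    rcases he with ⟨h1, h2⟩ | ⟨h1, h2⟩
    · refine ⟨fun i => x i + (if i = e then (1 : ℚ) else 0), fun v => ?_⟩
      rw [net_add, hx, key, h1, h2]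
      ring
    · refine ⟨fun i => x i + (-1) * (if i = e then (1 : ℚ) else 0), fun v => ?_⟩
      rw [net_add, net_smul, hx, key, h1, h2]
      ring

/-- MODULE CON.  In a connected graph a potential with zero differences is constant.

Proof.  Induction on `Relation.ReflTransGen` (`hT.2 u v`). -/
theorem const_of_conn {V E : Type} [Fintype V] (s t : E → V) (T : Finset E) (hT : IsTree s t T)
    (ψ : V → ℚ) (h : ∀ e ∈ T, ψ (s e) = ψ (t e)) (u v : V) : ψ u = ψ v := by
  have huv := hT.2 u v
  induction huv with
  | refl => rfl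
  | tail _ hs ih =>
    obtain ⟨e, he, h1 | h1⟩ := hs
    · rw [ih, ← h1.1, ← h1.2, h e he]
    · rw [ih, ← h1.1, ← h1.2, h e he]

/-- The current map. -/
noncomputable def netL {V E : Type} [Fintype E] (s t : E → V) : (E → ℚ) →ₗ[ℚ] (V → ℚ) where
  toFun x := net s t x
  map_add' x y := funext fun v => net_add s t x y v
  map_smul' c x := funext fun v => net_smul s t c x v

/-- The coboundary map. -/
def cob {V E : Type} (s t : E → V) : (V → ℚ) →ₗ[ℚ] (E → ℚ) where
  toFun ψ e := ψ (s e) - ψ (t e)
  map_add' _ _ := funext fun _ => add_sub_add_comm _ _ _ _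
  map_smul' _ _ := funext fun _ => (mul_sub _ _ _).symm

/-- MODULE RKA.  The dimension of the space of coboundaries of a connected graph.

Proof.  The kernel of `cob s t` is the space of constants (`const_of_conn`), of dimension `1` (`V` is nonempty, as
`T.card + 1 = card V`): it is `ℚ ∙ (fun _ => 1)`, `finrank_span_singleton`.  `LinearMap.finrank_range_add_finrank_ker`. -/
theorem finrank_cob {V E : Type} [Fintype V] [Fintype E] (s t : E → V) (T : Finset E) (hT : IsTree s t T) :
    Module.finrank ℚ (LinearMap.range (cob s t)) + 1 = Fintype.card V := by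
  have hV : Nonempty V := by
    rw [← Fintype.card_pos_iff, ← hT.1]
    exact Nat.succ_pos _
  have hker : LinearMap.ker (cob s t) = Submodule.span ℚ {fun _ : V => (1 : ℚ)} := by
    ext ψ
    rw [LinearMap.mem_ker, Submodule.mem_span_singleton]
    constructor
    · intro h
      obtain ⟨u⟩ := hV
      refine ⟨ψ u, funext fun v => ?_⟩
      have h1 := const_of_conn s t T hT ψ (fun e _ => sub_eq_zero.mp (congrFun h e)) u v
      simp only [Pi.smul_apply, smul_eq_mul, mul_one]
      exact h1
    · rintro ⟨c, rfl⟩
      funext e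
      exact sub_self _
  have h1 := LinearMap.finrank_range_add_finrank_ker (cob s t)
  have h0 : (fun _ : V => (1 : ℚ)) ≠ 0 := by
    obtain ⟨u⟩ := hV
    intro h
    exact one_ne_zero (congrFun h u)
  rw [hker, finrank_span_singleton h0, Module.finrank_fintype_fun_eq_card] at h1
  exact h1

/-- MODULE RKB.  The dimension of the space of cycles of a connected graph.

Proof.  The range of `netL s t` is `{f | ∑ v, f v = 0}`: `⊆` is `P3.sum_net`; it contains all `Pi.single a 1 - Pi.single b 1`
(`exists_flow`), which span the space of the `f` with sum `0` (`f = ∑ v, f v • (Pi.single v 1 - Pi.single v0 1)`).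
That space is the kernel of the surjective functional `f ↦ ∑ v, f v`, of dimension `card V - 1`.
(Or: `net_pair` shows that `netL` is the transpose of `cob`, and transposed maps have the same rank.)  Then
`LinearMap.finrank_range_add_finrank_ker` for `netL`. -/
theorem finrank_cyc {V E : Type} [Fintype V] [Fintype E] (s t : E → V) (T : Finset E) (hT : IsTree s t T) :
    Module.finrank ℚ (LinearMap.ker (netL s t)) + Fintype.card V = Fintype.card E + 1 := by
  classical
  have hV : Nonempty V := by
    rw [← Fintype.card_pos_iff, ← hT.1]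
    exact Nat.succ_pos _
  obtain ⟨v0⟩ := hV
  have hσ : ∃ σ : (V → ℚ) →ₗ[ℚ] ℚ, ∀ f, σ f = ∑ v, f v :=
    ⟨{ toFun := fun f => ∑ v, f v
       map_add' := fun f g => Finset.sum_add_distrib
       map_smul' := fun c f => (Finset.mul_sum _ _ _).symm }, fun f => rfl⟩
  obtain ⟨σ, hσ⟩ := hσ
  have hrange : LinearMap.range (netL s t) = LinearMap.ker σ := by
    apply le_antisymm
    · rintro _ ⟨x, rfl⟩
      rw [LinearMap.mem_ker, hσ]
      exact P3.sum_net s t x
    · intro f hf
      rw [LinearMap.mem_ker, hσ] at hf
      choose x hx using fun v => exists_flow s t T hT v v0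
      refine ⟨∑ v, f v • x v, funext fun w => ?_⟩
      have h1 : netL s t (∑ v, f v • x v) w = ∑ v, f v * net s t (x v) w := by
        rw [map_sum, Finset.sum_apply]
        refine Finset.sum_congr rfl fun v _ => ?_
        rw [map_smul]
        rfl
      rw [h1]
      have h2 : ∀ v, f v * net s t (x v) w = (if v = w then f v else 0) - (if v0 = w then f v else 0) := by
        intro v
        rw [hx]
        split_ifs <;> simp
      rw [Finset.sum_congr rfl fun v _ => h2 v, Finset.sum_sub_distrib, Finset.sum_ite_eq' Finset.univ w f,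
        if_pos (Finset.mem_univ w)]
      have h3 : ∑ v, (if v0 = w then f v else 0) = 0 := by
        by_cases h : v0 = w
        · simp only [if_pos h]
          exact hf
        · simp [if_neg h]
      rw [h3, sub_zero]
  have hσr : LinearMap.range σ = ⊤ := by
    rw [LinearMap.range_eq_top]
    intro c
    refine ⟨Pi.single v0 c, ?_⟩
    rw [hσ, Finset.sum_pi_single' v0 c, if_pos (Finset.mem_univ v0)]
  have h1 := LinearMap.finrank_range_add_finrank_ker (netL s t)
  have h2 := LinearMap.finrank_range_add_finrank_ker σ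
  rw [hσr, finrank_top, Module.finrank_self, Module.finrank_fintype_fun_eq_card] at h2
  rw [hrange, Module.finrank_fintype_fun_eq_card] at h1
  omega

/-- MODULE UEA.  From chain and Euler to `Du`, the roles of the two graphs exchanged.

Proof.  `range (cob s t) ≤ ker (netL l r)`: for `x = cob s t ψ`, `net l r x d = ∑ e, (ψ (s e) - ψ (t e)) * ic l r e d` (`net_ic`)
`= ∑ v, ψ v * ∑ e, ic s t e v * ic l r e d = 0`.  Dimensions: `finrank (range (cob s t)) = card V - 1` (`finrank_cob`)
and `finrank (ker (netL l r)) = card E + 1 - card D` (`finrank_cyc` for the tree of `h.dconn`), equal by Euler's formula;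
`Submodule.eq_of_le_of_finrank_eq`.  Then unfold `Du`. -/
theorem du_of_dual {V E D : Type} [Fintype V] [Fintype E] [Fintype D] (s t : E → V) (l r : E → D)
    (h : PLN.Dual s t l r) (hc : ∃ T, IsTree s t T) : Du l r s t := by
  intro x
  have hsub : LinearMap.range (cob s t) ≤ LinearMap.ker (netL l r) := by
    rintro x ⟨ψ, rfl⟩
    rw [LinearMap.mem_ker]
    funext d
    change net l r (fun e => ψ (s e) - ψ (t e)) d = 0
    have h2 : ∑ e, (PLN.ic l r e d : ℚ) * (ψ (s e) - ψ (t e)) = ∑ v, ψ v * net s t (fun e => (PLN.ic l r e d : ℚ)) v :=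
      (net_pair s t (fun e => (PLN.ic l r e d : ℚ)) ψ).symm
    have h3 : ∀ v, net s t (fun e => (PLN.ic l r e d : ℚ)) v = 0 := by
      intro v
      rw [net_ic]
      have h4 := h.chain v d
      have h5 : ((∑ e, PLN.ic s t e v * PLN.ic l r e d : ℤ) : ℚ) = 0 := by
        rw [h4, Int.cast_zero]
      rw [Int.cast_sum] at h5
      rw [← h5]
      refine Finset.sum_congr rfl fun e _ => ?_
      rw [Int.cast_mul, mul_comm]
    rw [net_ic]
    calc ∑ e, (ψ (s e) - ψ (t e)) * (PLN.ic l r e d : ℚ)
        = ∑ e, (PLN.ic l r e d : ℚ) * (ψ (s e) - ψ (t e)) :=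
          Finset.sum_congr rfl fun e _ => mul_comm _ _
      _ = ∑ v, ψ v * net s t (fun e => (PLN.ic l r e d : ℚ)) v := h2
      _ = 0 := Finset.sum_eq_zero fun v _ => by rw [h3, mul_zero]
  obtain ⟨T, hT⟩ := hc
  obtain ⟨T', hT'⟩ := h.dconn
  have hd1 := finrank_cob s t T hT
  have hd2 := finrank_cyc l r T' hT'
  have he := h.euler
  have heq : LinearMap.range (cob s t) = LinearMap.ker (netL l r) :=
    Submodule.eq_of_le_of_finrank_eq hsub (by omega)
  constructor
  · intro hx
    have hx' : x ∈ LinearMap.ker (netL l r) := by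
      rw [LinearMap.mem_ker]
      exact funext hx
    rw [← heq] at hx'
    obtain ⟨ψ, hψ⟩ := hx'
    exact ⟨ψ, fun e => (congrFun hψ e).symm⟩
  · rintro ⟨φ, hφ⟩
    have hx' : x ∈ LinearMap.range (cob s t) := ⟨φ, (funext hφ).symm⟩
    have hx2 : netL l r x = 0 := LinearMap.mem_ker.1 (hsub hx')
    exact fun v => congrFun hx2 v

/-- MODULE UEB.  From `Du` and two connected graphs to chain and Euler.

Proof.  `chain`: for `d : D` let `φ = Pi.single d 1`; `x e = φ (l e) - φ (r e) = ic l r e d` is a cycle by `h`, and `net_ic`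
(cast from `ℤ` to `ℚ`, `exact_mod_cast`).  `euler`: `ker (netL s t) = range (cob l r)` by `h`, and `finrank_cyc`, `finrank_cob`. -/
theorem dual_of_du {V E D : Type} [Fintype V] [Fintype E] [Fintype D] (s t : E → V) (l r : E → D)
    (h : Du s t l r) (hc : ∃ T, IsTree s t T) (hd : ∃ T, IsTree l r T) : PLN.Dual s t l r := by
  classical
  refine ⟨fun v d => ?_, ?_, hd⟩
  · have h1 : ∀ v, net s t (fun e => (PLN.ic l r e d : ℚ)) v = 0 := by
      refine (h _).2 ⟨fun d' => (PLN.kd d' d : ℚ), fun e => ?_⟩
      unfold PLN.ic
      push_cast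
      rfl
    have h2 := h1 v
    rw [net_ic] at h2
    have h3 : ((∑ e, PLN.ic s t e v * PLN.ic l r e d : ℤ) : ℚ) = 0 := by
      rw [Int.cast_sum, ← h2]
      refine Finset.sum_congr rfl fun e _ => ?_
      rw [Int.cast_mul, mul_comm]
    exact_mod_cast h3
  · obtain ⟨T, hT⟩ := hc
    obtain ⟨T', hT'⟩ := hd
    have h1 := finrank_cyc s t T hT
    have h2 := finrank_cob l r T' hT'
    have h3 : LinearMap.ker (netL s t) = LinearMap.range (cob l r) := by
      ext x
      rw [LinearMap.mem_ker, LinearMap.mem_range]
      constructor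
      · intro hx
        obtain ⟨φ, hφ⟩ := (h x).1 fun v => congrFun hx v
        exact ⟨φ, (funext hφ).symm⟩
      · rintro ⟨φ, hφ⟩
        exact funext ((h x).2 ⟨φ, fun e => (congrFun hφ e).symm⟩)
    rw [h3] at h1
    omega

/-- One step along an edge of `S`. -/
private def TRE_st {V E : Type} (s t : E → V) (S : Finset E) (a b : V) : Prop :=
  ∃ e ∈ S, (s e = a ∧ t e = b) ∨ (s e = b ∧ t e = a)

private theorem TRE_symm {V E : Type} (s t : E → V) (S : Finset E) {a b : V}
    (h : Relation.ReflTransGen (TRE_st s t S) a b) : Relation.ReflTransGen (TRE_st s t S) b a := by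
  induction h with
  | refl => exact Relation.ReflTransGen.refl
  | tail _ h1 ih =>
    obtain ⟨e, he, h2⟩ := h1
    exact Relation.ReflTransGen.head ⟨e, he, h2.symm⟩ ih

private theorem TRE_ker {V E : Type} [Fintype V] [Nonempty V] [Fintype E] (s t : E → V)
    (h : Fintype.card V ≤ Fintype.card E) : ∃ x : E → ℚ, x ≠ 0 ∧ ∀ v, net s t x v = 0 := by
  classical
  let S : (V → ℚ) →ₗ[ℚ] ℚ := ∑ v, LinearMap.proj v
  have hS : ∀ f : V → ℚ, S f = ∑ v, f v := by
    intro f
    simp [S]
  have h1 : LinearMap.range (netL s t) ≤ LinearMap.ker S := by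
    rintro f ⟨x, rfl⟩
    rw [LinearMap.mem_ker, hS]
    exact sum_net s t x
  obtain ⟨v0⟩ := ‹Nonempty V›
  have h2 : LinearMap.ker S < ⊤ := by
    rw [lt_top_iff_ne_top]
    intro h3
    have h4 : (Pi.single v0 1 : V → ℚ) ∈ LinearMap.ker S := by rw [h3]; exact Submodule.mem_top
    rw [LinearMap.mem_ker, hS, Finset.sum_pi_single'] at h4
    simp at h4
  have h3 := Submodule.finrank_lt (s := LinearMap.range (netL s t)) (lt_of_le_of_lt h1 h2).ne
  rw [Module.finrank_fintype_fun_eq_card] at h3
  have h4 := LinearMap.finrank_range_add_finrank_ker (netL s t)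
  rw [Module.finrank_fintype_fun_eq_card] at h4
  have h5 : LinearMap.ker (netL s t) ≠ ⊥ := by
    intro h6
    rw [h6, finrank_bot] at h4
    omega
  obtain ⟨x, hx, hx0⟩ := Submodule.exists_mem_ne_zero_of_ne_bot h5
  exact ⟨x, hx0, fun v => congrFun (LinearMap.mem_ker.1 hx) v⟩

/-- MODULE TRE.  A connected graph has a spanning tree.

Proof.  Strong induction on the number of edges in a set `S` which connects all vertices: by `card_le_of_conn`
`card V ≤ S.card + 1`.  If equality holds, `S` is the tree.  Otherwise some `e ∈ S` can be left out: if not, then ...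
(simplest: take `S` minimal with the property; a minimal connecting set has `card V = S.card + 1`: if `S.card + 1 >
card V`, the map `netL` restricted to the functions on `S` has a kernel vector `x ≠ 0` (dimensions: its range
lies in the functions with sum `0`), say `x e ≠ 0`; then `s e` and `t e` are connected by `S.erase e`, because otherwise
the set `A` of the vertices reachable from `s e` by `S.erase e` would give `0 = ∑ v ∈ A, net s t x v = x e` (`net_pair` with
the indicator of `A`); so `S.erase e` still connects all vertices.) -/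
theorem exists_tree {V E : Type} [Fintype V] [Nonempty V] [Fintype E] (s t : E → V) (S : Finset E)
    (h : ∀ u v : V, Relation.ReflTransGen
      (fun a b => ∃ e ∈ S, (s e = a ∧ t e = b) ∨ (s e = b ∧ t e = a)) u v) : ∃ T, IsTree s t T := by
  classical
  induction hn : S.card using Nat.strong_induction_on generalizing S with
  | _ n ih =>
    have h1 := card_le_of_conn s t S h
    by_cases h2 : S.card + 1 = Fintype.card V
    · exact ⟨S, h2, h⟩
    · obtain ⟨x, hx0, hx⟩ := TRE_ker (fun e : {e // e ∈ S} => s e.1) (fun e : {e // e ∈ S} => t e.1)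
        (by rw [Fintype.card_coe]; omega)
      obtain ⟨⟨e0, he0⟩, hxe⟩ : ∃ e, x e ≠ 0 := by
        by_contra hc
        push Not at hc
        exact hx0 (funext hc)
      -- the end points of `e0` are connected without `e0`
      have h3 : Relation.ReflTransGen (TRE_st s t (S.erase e0)) (s e0) (t e0) := by
        by_contra hc
        let φ : V → ℚ := fun v => if Relation.ReflTransGen (TRE_st s t (S.erase e0)) (s e0) v then 1 else 0
        have h4 := net_pair (fun e : {e // e ∈ S} => s e.1) (fun e : {e // e ∈ S} => t e.1) x φ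
        have h5 : ∑ v, φ v * net (fun e : {e // e ∈ S} => s e.1) (fun e : {e // e ∈ S} => t e.1) x v = 0 :=
          Finset.sum_eq_zero fun v _ => by rw [hx v, mul_zero]
        rw [h5, Finset.sum_eq_single (⟨e0, he0⟩ : {e // e ∈ S})] at h4
        · have h6 : φ (s e0) = 1 := if_pos Relation.ReflTransGen.refl
          have h7 : φ (t e0) = 0 := if_neg hc
          rw [h6, h7, sub_zero, mul_one] at h4
          exact hxe h4.symm
        · rintro ⟨e, he⟩ _ hne
          have hne' : e ≠ e0 := fun h8 => hne (Subtype.ext h8)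
          have he' : e ∈ S.erase e0 := Finset.mem_erase.2 ⟨hne', he⟩
          have h8 : Relation.ReflTransGen (TRE_st s t (S.erase e0)) (s e0) (s e) ↔
              Relation.ReflTransGen (TRE_st s t (S.erase e0)) (s e0) (t e) :=
            ⟨fun h9 => h9.tail ⟨e, he', Or.inl ⟨rfl, rfl⟩⟩, fun h9 => h9.tail ⟨e, he', Or.inr ⟨rfl, rfl⟩⟩⟩
          simp only [φ, h8, sub_self, mul_zero]
        · intro h8
          exact absurd (Finset.mem_univ _) h8
      refine ih (S.erase e0).card ?_ (S.erase e0) (fun u v => ?_) rfl
      · rw [← hn]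
        exact Finset.card_erase_lt_of_mem he0
      · refine Relation.ReflTransGen.lift' (p := TRE_st s t (S.erase e0)) id ?_ _ _ (h u v)
        rintro a b ⟨e, he, h4⟩
        by_cases hee : e = e0
        · subst hee
          rcases h4 with ⟨rfl, rfl⟩ | ⟨rfl, rfl⟩
          · exact h3
          · exact TRE_symm s t _ h3
        · exact Relation.ReflTransGen.single ⟨e, Finset.mem_erase.2 ⟨hee, he⟩, h4⟩

/-- MODULE CNN.  A dual graph can be made connected.

Proof.  Let `≈` be the equivalence relation on `D` generated by `l e ≈ r e` (`Relation.EqvGen`), `c : D → D` a choice of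
representatives (`c d ≈ d`, and `c d = c d'` if `d ≈ d'`: `Quot.out`).  Let `D' = Option {d // c d ≠ d}` and `p : D → D'`,
`p d = none` if `c d = d` and `some d` otherwise: all representatives are identified (and `D'` is nonempty).  Put
`l' = p ∘ l`, `r' = p ∘ r`.  `Du s t l' r'`: for `φ' : D' → ℚ` the coboundary of `φ'` is the one of `φ' ∘ p`.  For `φ : D → ℚ` the
function `ψ d = φ d - φ (c d)` has the same differences as `φ` along all edges (`c (l e) = c (r e)`), and vanishes on
the representatives, so it is `φ' ∘ p` for `φ' none = 0`, `φ' (some d) = ψ d`.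
`D'` with `l'`, `r'` is connected: by `≈` every `d` is connected with `c d`, and `p (c d) = none`; then `exists_tree`
with `S = Finset.univ`. -/
theorem exists_conn_dual {V E D : Type} [Fintype V] [Fintype E] [Finite D] (s t : E → V) (l r : E → D)
    (h : Du s t l r) : ∃ (D' : Type) (_ : Fintype D') (l' r' : E → D'), Du s t l' r' ∧ ∃ T, IsTree l' r' T := by
  classical
  let st : Setoid D := Relation.EqvGen.setoid fun a b => ∃ e, l e = a ∧ r e = b
  let c : D → D := fun d => (Quotient.mk st d).out
  have hc1 : ∀ d, st (c d) d := fun d => Quotient.exact (Quotient.out_eq (Quotient.mk st d))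
  have hc2 : ∀ e, c (l e) = c (r e) := by
    intro e
    have h1 : Quotient.mk st (l e) = Quotient.mk st (r e) :=
      Quotient.sound (Relation.EqvGen.rel _ _ ⟨e, rfl, rfl⟩)
    show (Quotient.mk st (l e)).out = (Quotient.mk st (r e)).out
    rw [h1]
  have hc3 : ∀ d, c (c d) = c d := by
    intro d
    have h1 : Quotient.mk st (c d) = Quotient.mk st d := Quotient.sound (hc1 d)
    show (Quotient.mk st (c d)).out = (Quotient.mk st d).out
    rw [h1]
  let D' := Option {d // c d ≠ d}
  let p : D → D' := fun d => if hd : c d ≠ d then some ⟨d, hd⟩ else none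
  have hp0 : ∀ d, c d = d → p d = none := fun d hd => dif_neg (not_not.2 hd)
  have hp1 : ∀ d (hd : c d ≠ d), p d = some ⟨d, hd⟩ := fun d hd => dif_pos hd
  have hfin : Fintype D' := Fintype.ofFinite D'
  refine ⟨D', hfin, p ∘ l, p ∘ r, fun x => ?_, ?_⟩
  · rw [h x]
    constructor
    · rintro ⟨φ, hφ⟩
      refine ⟨fun o => o.elim 0 fun d => φ d.1 - φ (c d.1), fun e => ?_⟩
      have key : ∀ d, (p d).elim (0 : ℚ) (fun d => φ d.1 - φ (c d.1)) = φ d - φ (c d) := by
        intro d
        by_cases hd : c d = d
        · rw [hp0 d hd, hd]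
          simp
        · rw [hp1 d hd]
          rfl
      show x e = (p (l e)).elim (0 : ℚ) (fun d => φ d.1 - φ (c d.1)) -
        (p (r e)).elim (0 : ℚ) (fun d => φ d.1 - φ (c d.1))
      rw [key, key, hφ e, hc2 e]
      ring
    · rintro ⟨φ, hφ⟩
      exact ⟨φ ∘ p, hφ⟩
  · have hne : Nonempty D' := ⟨none⟩
    refine exists_tree (p ∘ l) (p ∘ r) Finset.univ ?_
    have hsym : ∀ a b : D', Relation.ReflTransGen (fun a b => ∃ e ∈ (Finset.univ : Finset E),
        ((p ∘ l) e = a ∧ (p ∘ r) e = b) ∨ ((p ∘ l) e = b ∧ (p ∘ r) e = a)) a b →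
        Relation.ReflTransGen (fun a b => ∃ e ∈ (Finset.univ : Finset E),
        ((p ∘ l) e = a ∧ (p ∘ r) e = b) ∨ ((p ∘ l) e = b ∧ (p ∘ r) e = a)) b a := by
      intro a b hab
      induction hab with
      | refl => exact Relation.ReflTransGen.refl
      | tail _ h1 ih =>
        obtain ⟨e, he, h2⟩ := h1
        exact Relation.ReflTransGen.head ⟨e, he, h2.symm⟩ ih
    have h1 : ∀ a b : D, st a b → Relation.ReflTransGen (fun a b => ∃ e ∈ (Finset.univ : Finset E),
        ((p ∘ l) e = a ∧ (p ∘ r) e = b) ∨ ((p ∘ l) e = b ∧ (p ∘ r) e = a)) (p a) (p b) := by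
      intro a b hab
      induction hab with
      | rel a b h2 =>
        obtain ⟨e, rfl, rfl⟩ := h2
        exact Relation.ReflTransGen.single ⟨e, Finset.mem_univ _, Or.inl ⟨rfl, rfl⟩⟩
      | refl a => exact Relation.ReflTransGen.refl
      | symm a b _ ih => exact hsym _ _ ih
      | trans a b c _ _ ih1 ih2 => exact ih1.trans ih2
    have h2 : ∀ o : D', Relation.ReflTransGen (fun a b => ∃ e ∈ (Finset.univ : Finset E),
        ((p ∘ l) e = a ∧ (p ∘ r) e = b) ∨ ((p ∘ l) e = b ∧ (p ∘ r) e = a)) none o := by
      rintro (_ | ⟨d, hd⟩)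
      · exact Relation.ReflTransGen.refl
      · have h3 := h1 _ _ (hc1 d)
        rw [hp0 (c d) (hc3 d), hp1 d hd] at h3
        exact h3
    exact fun u v => (hsym _ _ (h2 u)).trans (h2 v)

private theorem WHI_zero {V E : Type} [Fintype V] [Fintype E] (s t : E → V) (T : Finset E)
    (hT : IsTree s t T) (x : E → ℚ) (hx : ∀ v, net s t x v = 0) (h0 : ∀ e, e ∉ T → x e = 0) : ∀ e, x e = 0 := by
  classical
  have hT' : IsTree (fun e : {e // e ∈ T} => s e.1) (fun e : {e // e ∈ T} => t e.1) Finset.univ := by
    refine ⟨?_, fun u v => ?_⟩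
    · rw [Finset.card_univ, Fintype.card_coe]
      exact hT.1
    · refine Relation.ReflTransGen.mono ?_ _ _ (hT.2 u v)
      rintro a b ⟨e, he, h⟩
      exact ⟨⟨e, he⟩, Finset.mem_univ _, h⟩
  have h1 := finrank_cyc _ _ _ hT'
  rw [Fintype.card_coe, hT.1] at h1
  have h2 : Module.finrank ℚ (LinearMap.ker (netL (fun e : {e // e ∈ T} => s e.1)
      (fun e : {e // e ∈ T} => t e.1))) = 0 := by omega
  rw [Submodule.finrank_eq_zero] at h2
  have h3 : (fun e : {e // e ∈ T} => x e.1) ∈ LinearMap.ker (netL (fun e : {e // e ∈ T} => s e.1)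
      (fun e : {e // e ∈ T} => t e.1)) := by
    rw [LinearMap.mem_ker]
    funext v
    refine Eq.trans ?_ (hx v)
    show net _ _ _ v = _
    unfold net
    have key : ∀ r : E → V, ∑ e : {e // e ∈ T}, (if r e.1 = v then x e.1 else 0) =
        ∑ e, if r e = v then x e else 0 := by
      intro r
      rw [Finset.sum_coe_sort T (fun e => if r e = v then x e else 0)]
      refine Finset.sum_subset (Finset.subset_univ _) fun e _ he => ?_
      rw [h0 e he, ite_self]
    rw [← key s, ← key t]
  rw [h2, Submodule.mem_bot] at h3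
  intro e
  by_cases he : e ∈ T
  · exact congrFun h3 ⟨e, he⟩
  · exact h0 e he

/-- MODULE WHI (1).  The complement of a spanning tree is a spanning tree of the dual graph.

Proof.  Number of edges: `T.card + 1 = card V`, Euler's formula, `Finset.card_compl`.  Connectivity: let `d : D` and let
`A` be the set of the faces reachable from `d` by the edges in `Tᶜ`, `φ` its indicator (`ℚ`-valued).  For `e ∉ T`
`φ (l e) = φ (r e)`.  `x e = φ (l e) - φ (r e)` is a cycle of `s`, `t` (`chain`, `net_ic`, exchange the sums) which vanishes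
outside `T`.  A cycle which vanishes outside a spanning tree is `0`: the map `netL` restricted to the functions on `T` has
range `{f | ∑ f = 0}` (`exists_flow` gives currents; to get currents inside `T` apply `exists_flow` and `finrank_cyc` to the
graph `s ∘ (↑)`, `t ∘ (↑)` on the edges `{e // e ∈ T}`, for which `finrank_cyc` says that the space of cycles has dimension
`T.card + 1 - card V = 0`).  So `x = 0`, `φ` is constant (`const_of_conn` for the tree of `h.dconn`), `A` is everything. -/
theorem isTree_compl_aux {V E D : Type} [Fintype V] [Fintype E] [DecidableEq E] [Fintype D] (s t : E → V)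
    (l r : E → D) (h : PLN.Dual s t l r) (T : Finset E) (hT : IsTree s t T) : IsTree l r Tᶜ := by
  classical
  refine ⟨?_, fun d d' => ?_⟩
  · rw [Finset.card_compl]
    have h1 := hT.1
    have h2 := h.euler
    have h3 : T.card ≤ Fintype.card E := Finset.card_le_univ T
    omega
  · by_contra hn
    let P : D → Prop := fun d' => Relation.ReflTransGen
      (fun a b => ∃ e ∈ Tᶜ, (l e = a ∧ r e = b) ∨ (l e = b ∧ r e = a)) d d'
    let φ : D → ℚ := fun d' => if P d' then 1 else 0
    have hφ : ∀ e, e ∉ T → φ (l e) = φ (r e) := by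
      intro e he
      have he' : e ∈ Tᶜ := Finset.mem_compl.2 he
      have : P (l e) ↔ P (r e) :=
        ⟨fun h1 => h1.tail ⟨e, he', Or.inl ⟨rfl, rfl⟩⟩, fun h1 => h1.tail ⟨e, he', Or.inr ⟨rfl, rfl⟩⟩⟩
      simp only [φ, this]
    have hx : ∀ v, net s t (fun e => φ (l e) - φ (r e)) v = 0 := by
      intro v
      rw [net_ic]
      have h1 : ∀ e, (φ (l e) - φ (r e)) * (PLN.ic s t e v : ℚ) =
          ∑ d, φ d * ((PLN.ic s t e v * PLN.ic l r e d : ℤ) : ℚ) := by
        intro e
        have h2 : ∑ d, φ d * ((PLN.ic l r e d : ℤ) : ℚ) = φ (l e) - φ (r e) := by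
          unfold PLN.ic PLN.kd
          push_cast
          simp only [mul_sub, mul_ite, mul_one, mul_zero, Finset.sum_sub_distrib]
          congr 1
          · rw [Finset.sum_ite_eq]
            simp
          · rw [Finset.sum_ite_eq]
            simp
        rw [← h2, Finset.sum_mul]
        refine Finset.sum_congr rfl fun d _ => ?_
        push_cast
        ring
      simp only [h1]
      rw [Finset.sum_comm]
      refine Finset.sum_eq_zero fun d _ => ?_
      rw [← Finset.mul_sum, ← Int.cast_sum, h.chain v d, Int.cast_zero, mul_zero]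
    have h0 := WHI_zero s t T hT _ hx fun e he => sub_eq_zero.2 (hφ e he)
    obtain ⟨T', hT'⟩ := h.dconn
    have h1 := const_of_conn l r T' hT' φ (fun e _ => sub_eq_zero.1 (h0 e)) d d'
    have h2 : φ d = 1 := if_pos Relation.ReflTransGen.refl
    have h3 : φ d' = 0 := if_neg hn
    rw [h2, h3] at h1
    exact one_ne_zero h1

/-- MODULE WHI (2).  `isTree_compl_aux` for both graphs (`PLN.Dual l r s t` holds with `dconn := hc`; `chain` by `mul_comm`). -/
theorem isTree_compl {V E D : Type} [Fintype V] [Fintype E] [DecidableEq E] [Fintype D] (s t : E → V)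
    (l r : E → D) (h : PLN.Dual s t l r) (hc : ∃ T, IsTree s t T) (T : Finset E) :
    IsTree s t T ↔ IsTree l r Tᶜ := by
  constructor
  · exact isTree_compl_aux s t l r h T
  · intro hT
    have h' : PLN.Dual l r s t := by
      refine ⟨fun d v => ?_, ?_, hc⟩
      · rw [← h.chain v d]
        exact Finset.sum_congr rfl fun e _ => mul_comm _ _
      · rw [add_comm]
        exact h.euler
    have h1 := isTree_compl_aux l r s t h' Tᶜ hT
    rwa [compl_compl] at h1

/-- MODULE WHI (3).  The Kirchhoff polynomial is the Symanzik polynomial of the dual graph.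

Proof.  Substitute `T ↦ Tᶜ` in the sum (`Finset.sum_nbij'` or `Equiv.sum_comp` with the complement). -/
theorem kir_eq_sym {V E D K : Type} [Fintype V] [Fintype E] [Fintype D] [CommRing K] (s t : E → V)
    (l r : E → D) (h : PLN.Dual s t l r) (hc : ∃ T, IsTree s t T) (y : E → K) : kir s t y = sym l r y := by
  classical
  unfold kir sym
  refine Fintype.sum_equiv (Equiv.mk (fun T : Finset E => Tᶜ) (fun T => Tᶜ) (fun T => compl_compl T)
    (fun T => compl_compl T)) _ _ fun T => ?_
  show _ = if IsTree l r Tᶜ then _ else _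
  have h1 := isTree_compl s t l r h hc T
  by_cases h2 : IsTree s t T
  · rw [if_pos h2, if_pos (h1.1 h2)]
    refine Finset.prod_congr ?_ fun e _ => rfl
    have h3 := compl_compl T
    refine Eq.trans h3.symm ?_
    congr
  · rw [if_neg h2, if_neg (fun h3 => h2 (h1.2 h3))]

/-- MODULE WHI (4). -/
theorem nk_eq_ns {V E D : Type} [Fintype V] [Fintype E] [Fintype D] (s t : E → V)
    (l r : E → D) (h : PLN.Dual s t l r) (hc : ∃ T, IsTree s t T) : nk s t = ns l r := by
  funext F
  unfold nk ns NK NS
  simp only [kir_eq_sym s t l r h hc]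

end Pool.Agent.PL3
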