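import Pool.Agent.P3.Defs

/-!
# Planar networks with four ports: the functionals
-/

set_option autoImplicit false

open scoped BigOperators

namespace Pool.Agent.PL3

open Pool.Agent.KG Pool.Agent.P3

/-- The functionals which are combinations of planar cubic networks: closings of the four ports (in their cyclic
order) by two vertices without a crossing, rungs between the ports `0` and `1`, cyclic shifts of the ports. -/
inductive WdP : ((F : FinField) → Set (Pt F.K) → ℤ) → Prop
  | cl (n : Fin 4 → Fin 2) (hn : Function.Surjective n) (hc : ¬ (n 0 = n 2 ∧ n 1 = n 3)) : WdP fun _ B => Cl n B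
  | rung {X : (F : FinField) → Set (Pt F.K) → ℤ} : WdP X → WdP fun F B => R (X F) B
  | rot {X : (F : FinField) → Set (Pt F.K) → ℤ} : WdP X → WdP fun F B => X F (pm (finRotate 4) B)
  | add {X Y : (F : FinField) → Set (Pt F.K) → ℤ} : WdP X → WdP Y → WdP fun F B => X F B + Y F B
  | mulp (c : Polynomial ℤ) {X : (F : FinField) → Set (Pt F.K) → ℤ} : WdP X →
      WdP fun F B => c.eval F.q * X F B
  | div (m : Polynomial ℤ) {X : (F : FinField) → Set (Pt F.K) → ℤ} : m.Monic →
      (WdP fun F B => m.eval F.q * X F B) → WdP X

end Pool.Agent.PL3
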