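import Pool.Agent.PL3.PIb
import Pool.Agent.PL3.WdP
import Pool.Agent.P3.Pmh
import Pool.Agent.P3.Word

/-!
# The vertex of degree four is a combination of planar cubic networks
-/

set_option autoImplicit false

open scoped BigOperators

namespace Pool.Agent.PL3

open Pool.Agent.KG Pool.Agent.P3

section

variable {K : Type} [Field K] [Fintype K]

omit [Field K] [Fintype K] in
private theorem rot_vec (a b c d : K) :
    (![a, b, c, d] : Fin 4 → K) ∘ (finRotate 4).symm = ![d, a, b, c] := by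
  have e0 : (finRotate 4).symm 0 = 3 := by decide
  have e1 : (finRotate 4).symm 1 = 0 := by decide
  have e2 : (finRotate 4).symm 2 = 1 := by decide
  have e3 : (finRotate 4).symm 3 = 2 := by decide
  funext k
  rw [Function.comp_apply]
  fin_cases k
  · exact congrArg _ e0
  · exact congrArg _ e1
  · exact congrArg _ e2
  · exact congrArg _ e3

theorem cf_rot (α β : K) (B : Set (Pt K)) : cf α β (pm (finRotate 4) B) = cf (-β) (-α) B := by
  show C (mt α β) (pm (finRotate 4) B) = _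
  rw [C_pm, C_eq_cf _ ((mt_symm α β).submatrix (finRotate 4).symm)]
  have e0 : (finRotate 4).symm 0 = 3 := by decide
  have e1 : (finRotate 4).symm 1 = 0 := by decide
  have e2 : (finRotate 4).symm 2 = 1 := by decide
  have e3 : (finRotate 4).symm 3 = 2 := by decide
  refine congrArg₂ (fun a b : K => cf a b B) ?_ ?_
  · unfold al
    simp only [Matrix.submatrix_apply, e0, e1, e2, e3]
    simp [P3.mt]
  · unfold be
    simp only [Matrix.submatrix_apply, e0, e1, e2, e3]
    simp [P3.mt]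

theorem H1_rot (B : Set (Pt K)) : H1 B = H3 (pm (finRotate 4) B) := by
  unfold H1 H3
  refine Fintype.sum_equiv (Equiv.neg K) _ _ fun r => ?_
  show cf 0 r B = cf (-r) 0 (pm (finRotate 4) B)
  rw [cf_rot, neg_zero, neg_neg]

/-- Potentials with `φ₀ = φ₃ = 0`. -/
noncomputable def Ps12 (B : Set (Pt K)) : ℤ := ∑ a : K, ∑ b : K, G ![0, a, b, 0] 0 B

theorem Ps12_eq (B : Set (Pt K)) : Ps12 B = Ps (pm (finRotate 4) B) := by
  unfold Ps12 Ps
  refine Finset.sum_congr rfl fun a _ => Finset.sum_congr rfl fun b _ => ?_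
  rw [G_pm, Matrix.submatrix_zero, rot_vec]
  rfl

theorem Ps01_rot (B : Set (Pt K)) : Ps01 B = Ps12 (pm (finRotate 4) B) := by
  unfold Ps01 Ps12
  refine Finset.sum_congr rfl fun a _ => Finset.sum_congr rfl fun b _ => ?_
  rw [G_pm, Matrix.submatrix_zero, rot_vec]
  rfl

open Classical in
/-- The part of `Ps12` with `a`, `b`, `a - b` all nonzero. -/
noncomputable def X12 (B : Set (Pt K)) : ℤ :=
  ∑ a : K, ∑ b : K, if a ≠ 0 ∧ b ≠ 0 ∧ a ≠ b then G ![0, a, b, 0] 0 B else 0

theorem X12_eq (B : Set (Pt K)) :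
    X12 B = Ps12 B - (qK K - 1) * (G ![0, 1, 0, 0] 0 B + G ![0, 0, 1, 0] 0 B + G ![0, 1, 1, 0] 0 B) := by
  classical
  have hc : G (![0, 0, 0, 0] : Fin 4 → K) 0 B = 0 := by
    refine G_const _ ⟨0, fun k => ?_⟩ 0 B
    fin_cases k <;> rfl
  have h1 : ∀ a b : K, (if a ≠ 0 ∧ b ≠ 0 ∧ a ≠ b then G ![0, a, b, 0] 0 B else 0) =
      G ![0, a, b, 0] 0 B - (if b = 0 then (if a = 0 then 0 else G ![0, 1, 0, 0] 0 B) else 0) -
      (if a = 0 then (if b = 0 then 0 else G ![0, 0, 1, 0] 0 B) else 0) -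
      (if b = a then (if a = 0 then 0 else G ![0, 1, 1, 0] 0 B) else 0) := by
    intro a b
    by_cases ha : a = 0
    · rw [if_neg (fun h => h.1 ha)]
      simp only [if_pos ha]
      by_cases hb : b = 0
      · simp only [if_pos hb, if_pos (hb.trans ha.symm)]
        rw [ha, hb, hc]
        ring
      · have hba : ¬ b = a := fun h => hb (h.trans ha)
        have h2 : G (![0, 0, b, 0] : Fin 4 → K) 0 B = G ![0, 0, 1, 0] 0 B :=
          G_smul b hb ![0, 0, 1, 0] ![0, 0, b, 0] (fun k => by fin_cases k <;> simp) 0 B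
        simp only [if_neg hb, if_neg hba]
        rw [ha, h2]
        ring
    · simp only [if_neg ha]
      by_cases hb : b = 0
      · have hba : ¬ b = a := fun h => ha (h.symm.trans hb)
        have h2 : G (![0, a, 0, 0] : Fin 4 → K) 0 B = G ![0, 1, 0, 0] 0 B :=
          G_smul a ha ![0, 1, 0, 0] ![0, a, 0, 0] (fun k => by fin_cases k <;> simp) 0 B
        rw [if_neg (fun h => h.2.1 hb)]
        simp only [if_pos hb, if_neg hba]
        rw [hb, h2]
        ring
      · simp only [if_neg hb]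
        by_cases hab : b = a
        · have h2 : G (![0, a, a, 0] : Fin 4 → K) 0 B = G ![0, 1, 1, 0] 0 B :=
            G_smul a ha ![0, 1, 1, 0] ![0, a, a, 0] (fun k => by fin_cases k <;> simp) 0 B
          rw [if_neg (fun h => h.2.2 hab.symm), if_pos hab, hab, h2]
          ring
        · rw [if_pos ⟨ha, hb, fun h => hab h.symm⟩, if_neg hab]
          ring
  have h0 : ∀ A : ℤ, ∑ S : K, (if S = 0 then 0 else A) = (qK K - 1) * A := by
    intro A
    have h4 : ∀ S : K, (if S = 0 then 0 else A) = A - if S = 0 then A else 0 := by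
      intro S
      split_ifs
      · rw [sub_self]
      · rw [sub_zero]
    rw [Finset.sum_congr rfl fun S _ => h4 S, Finset.sum_sub_distrib, const_sum,
      Finset.sum_ite_eq', if_pos (Finset.mem_univ _)]
    ring
  have h2 : ∀ A : ℤ, ∑ a : K, ∑ b : K, (if b = 0 then (if a = 0 then 0 else A) else 0) =
      (qK K - 1) * A := by
    intro A
    rw [← h0]
    refine Finset.sum_congr rfl fun a _ => ?_
    rw [Finset.sum_ite_eq', if_pos (Finset.mem_univ _)]
  have h3 : ∀ A : ℤ, ∑ a : K, ∑ b : K, (if a = 0 then (if b = 0 then 0 else A) else 0) =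
      (qK K - 1) * A := by
    intro A
    rw [Finset.sum_comm]
    exact h2 A
  have h4 : ∀ A : ℤ, ∑ a : K, ∑ b : K, (if b = a then (if a = 0 then 0 else A) else 0) =
      (qK K - 1) * A := by
    intro A
    rw [← h0]
    refine Finset.sum_congr rfl fun a _ => ?_
    rw [Finset.sum_ite_eq', if_pos (Finset.mem_univ _)]
  unfold X12
  rw [Finset.sum_congr rfl fun a _ => Finset.sum_congr rfl fun b _ => h1 a b]
  simp only [Finset.sum_sub_distrib]
  rw [h2, h3, h4]
  unfold Ps12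
  ring

omit [Fintype K] in
private theorem mt00 : (P3.mt 0 0 : Matrix (Fin 4) (Fin 4) K) = 0 := by
  ext i j
  fin_cases i <;> fin_cases j <;> simp [P3.mt]

omit [Fintype K] in
private theorem gv0 (y0 y1 : K) : gv (0 : Matrix (Fin 4) (Fin 4) K) y0 y1 = ![y0, -y1, 0, 0] := by
  rw [← mt00, gv_mt, neg_zero]

/-- (I8) -/
theorem R_X12 (B : Set (Pt K)) : R X12 B = qK K * (qK K - 1) * (qK K - 2) * PI B := by
  classical
  have h1 : R X12 B = ∑ a : K, ∑ b : K,
      if a ≠ 0 ∧ b ≠ 0 ∧ a ≠ b then R (G ![0, a, b, 0] 0) B else 0 := by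
    have h2 : R X12 B = ∑ a : K, R (fun B => ∑ b : K,
        if a ≠ 0 ∧ b ≠ 0 ∧ a ≠ b then G ![0, a, b, 0] 0 B else 0) B :=
      R_sum Finset.univ (fun a : K => fun B => ∑ b : K,
        if a ≠ 0 ∧ b ≠ 0 ∧ a ≠ b then G ![0, a, b, 0] 0 B else 0) B
    rw [h2]
    refine Finset.sum_congr rfl fun a _ => ?_
    rw [R_sum Finset.univ (fun b : K => fun B =>
        if a ≠ 0 ∧ b ≠ 0 ∧ a ≠ b then G ![0, a, b, 0] 0 B else 0) B]
    refine Finset.sum_congr rfl fun b _ => ?_
    by_cases h : a ≠ 0 ∧ b ≠ 0 ∧ a ≠ b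
    · simp only [if_pos h]
    · simp only [if_neg h, R, Finset.sum_const_zero]
  have h2 : ∀ a b : K, (a ≠ 0 ∧ b ≠ 0 ∧ a ≠ b) → R (G ![0, a, b, 0] 0) B = qK K * PI B := by
    rintro a b ⟨ha, hb, hab⟩
    have h0 : ((![0, a, b, 0] : Fin 4 → K) 0 - (![0, a, b, 0] : Fin 4 → K) 1) ≠ 0 := by
      simpa using ha
    rw [R_G _ _ (Matrix.isSymm_zero) h0 B]
    have h3 := lin2 (fun α β => cf α β B) 0 (a⁻¹ * b) (a⁻¹ * b) (-(a * b)) 0 (a⁻¹ * (a - b)) 0
      0 (Or.inl (by
        have h4 : a⁻¹ * b * 0 - a⁻¹ * b * (a⁻¹ * (a - b)) = -(a⁻¹ * b * (a⁻¹ * (a - b))) := by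
          ring
        rw [h4]
        exact neg_ne_zero.2 (mul_ne_zero (mul_ne_zero (inv_ne_zero ha) hb)
          (mul_ne_zero (inv_ne_zero ha) (sub_ne_zero.2 hab)))))
    unfold PI
    rw [← h3]
    refine Finset.sum_congr rfl fun y0 _ => Finset.sum_congr rfl fun y1 _ =>
      Finset.sum_congr rfl fun s _ => ?_
    rw [gv0]
    refine congrArg₂ (fun a b : K => cf a b B) ?_ ?_
    · show al 0 - (0 - a)⁻¹ * ((y0 - -y1) * (b - 0) + (0 - a) * (0 - 0)) + s * ((0 - a) * (b - 0)) = _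
      have h5 : al (0 : Matrix (Fin 4) (Fin 4) K) = 0 := by simp [al]
      rw [h5, zero_sub a, inv_neg]
      ring
    · show be 0 - (0 - a)⁻¹ * ((y0 - 0) * (a - b) + (0 - 0) * (-y1 - 0)) + s * ((0 - 0) * (a - b)) = _
      have h5 : be (0 : Matrix (Fin 4) (Fin 4) K) = 0 := by simp [be]
      rw [h5, zero_sub a, inv_neg]
      ring
  have h3 : ∀ a b : K, (if a ≠ 0 ∧ b ≠ 0 ∧ a ≠ b then R (G ![0, a, b, 0] 0) B else 0) =
      qK K * PI B - (if b = 0 then qK K * PI B else 0) - (if b = a then qK K * PI B else 0) -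
        (if a = 0 then qK K * PI B - 2 * (if b = 0 then qK K * PI B else 0) else 0) := by
    intro a b
    by_cases ha : a = 0
    · rw [if_neg (fun h => h.1 ha), if_pos ha, ha]
      ring
    · rw [if_neg ha]
      by_cases hb : b = 0
      · have hba : ¬ b = a := fun h => ha (h.symm.trans hb)
        rw [if_neg (fun h => h.2.1 hb), if_pos hb, if_neg hba]
        ring
      · rw [if_neg hb]
        by_cases hab : b = a
        · rw [if_neg (fun h => h.2.2 hab.symm), if_pos hab]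
          ring
        · rw [if_pos ⟨ha, hb, fun h => hab h.symm⟩, if_neg hab,
            h2 a b ⟨ha, hb, fun h => hab h.symm⟩]
          ring
  rw [h1, Finset.sum_congr rfl fun a _ => Finset.sum_congr rfl fun b _ => h3 a b]
  have h4 : ∑ a : K, ∑ b : K, (if a = 0 then qK K * PI B -
      2 * (if b = 0 then qK K * PI B else 0) else 0) =
      qK K * (qK K * PI B) - 2 * (qK K * PI B) := by
    rw [Finset.sum_eq_single (0 : K)]
    · simp only [if_true, Finset.sum_sub_distrib, const_sum, ← Finset.mul_sum,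
        Finset.sum_ite_eq', Finset.mem_univ]
    · intro a _ ha
      simp only [if_neg ha, Finset.sum_const_zero]
    · intro h
      exact absurd (Finset.mem_univ _) h
  simp only [Finset.sum_sub_distrib, Finset.sum_ite_eq', Finset.mem_univ, if_true, const_sum] at h4 ⊢
  rw [h4]
  ring

end

theorem WdP.congr {X Y : (F : FinField) → Set (Pt F.K) → ℤ} (hX : WdP X) (h : ∀ F B, X F B = Y F B) :
    WdP Y := by
  have h' : X = Y := by
    funext F B
    exact h F B
  exact h' ▸ hX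

theorem WdP.smul (c : Polynomial ℤ) {X Y : (F : FinField) → Set (Pt F.K) → ℤ} (hX : WdP X)
    (h : ∀ F B, Y F B = c.eval F.q * X F B) : WdP Y :=
  (WdP.mulp c hX).congr fun F B => (h F B).symm

theorem WdP.sub {X Y : (F : FinField) → Set (Pt F.K) → ℤ} (hX : WdP X) (hY : WdP Y) :
    WdP fun F B => X F B - Y F B := by
  refine (WdP.add hX (WdP.mulp (-1) hY)).congr fun F B => ?_
  rw [Polynomial.eval_neg, Polynomial.eval_one]
  ring

theorem wdp_pat (n : Fin 4 → Fin 2) (hn : Function.Surjective n) (hc : ¬ (n 0 = n 2 ∧ n 1 = n 3)) :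
    WdP fun _ B => G (fun k => if n k = 1 then 1 else 0) 0 B :=
  (WdP.cl n hn hc).congr fun _ B => Cl_eq_G n hn B

theorem wdp_pat1 : WdP fun _ B => G ![0, 1, 0, 0] 0 B := by
  refine (wdp_pat ![0, 1, 0, 0] (by decide) (by decide)).congr fun F B => ?_
  congr 1
  funext k
  fin_cases k <;> rfl

theorem wdp_pat2 : WdP fun _ B => G ![0, 0, 1, 0] 0 B := by
  refine (wdp_pat ![0, 0, 1, 0] (by decide) (by decide)).congr fun F B => ?_
  congr 1
  funext k
  fin_cases k <;> rfl

theorem wdp_pat12 : WdP fun _ B => G ![0, 1, 1, 0] 0 B := by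
  refine (wdp_pat ![0, 1, 1, 0] (by decide) (by decide)).congr fun F B => ?_
  congr 1
  funext k
  fin_cases k <;> rfl

theorem wdp_B3 : WdP fun _ B => B3 0 B := by
  refine (wdp_pat ![1, 0, 0, 1] (by decide) (by decide)).congr fun F B => ?_
  show _ = G ![1, 0, 0, 1] (P3.mt 0 0) B
  rw [mt00]
  congr 1
  funext k
  fin_cases k <;> rfl

theorem wdp_H3 : WdP fun _ B => H3 B := by
  refine WdP.div (Polynomial.X ^ 2) (Polynomial.monic_X_pow 2) ((WdP.rung wdp_B3).congr fun F B => ?_)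
  show R (B3 0) B = _
  rw [R_B3, qK_eq, Polynomial.eval_pow, Polynomial.eval_X]
  rfl

theorem wdp_H1 : WdP fun _ B => H1 B :=
  (WdP.rot wdp_H3).congr fun _ B => (H1_rot B).symm

theorem wdp_Ps : WdP fun _ B => Ps B := by
  refine WdP.div Polynomial.X Polynomial.monic_X ?_
  refine (WdP.add (WdP.rung wdp_H1) (WdP.mulp (Polynomial.X ^ 2 - Polynomial.X ^ 3) wdp_H1)).congr fun F B => ?_
  have h : R (fun B => H1 B) B = R H1 B := rfl
  rw [h, R_H1, qK_eq]
  simp only [Polynomial.eval_sub, Polynomial.eval_pow, Polynomial.eval_X]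
  ring

theorem wdp_Ps12 : WdP fun _ B => Ps12 B :=
  (WdP.rot wdp_Ps).congr fun _ B => (Ps12_eq B).symm

theorem wdp_Ps01 : WdP fun _ B => Ps01 B :=
  (WdP.rot wdp_Ps12).congr fun _ B => (Ps01_rot B).symm

theorem wdp_X12 : WdP fun _ B => X12 B := by
  refine (wdp_Ps12.sub (WdP.mulp (Polynomial.X - 1) ((wdp_pat1.add wdp_pat2).add wdp_pat12))).congr
    fun F B => ?_
  rw [X12_eq, qK_eq]
  simp only [Polynomial.eval_sub, Polynomial.eval_one, Polynomial.eval_X]

theorem wdp_PI : WdP fun _ B => PI B := by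
  refine WdP.div (Polynomial.X * (Polynomial.X - Polynomial.C 1) * (Polynomial.X - Polynomial.C 2))
    ((Polynomial.monic_X.mul (Polynomial.monic_X_sub_C 1)).mul (Polynomial.monic_X_sub_C 2)) ?_
  refine (WdP.rung wdp_X12).congr fun F B => ?_
  have h : R (fun B => X12 B) B = R X12 B := rfl
  rw [h, R_X12, qK_eq]
  simp only [Polynomial.eval_sub, Polynomial.eval_mul, Polynomial.eval_C, Polynomial.eval_X]

theorem wdp_F1 : WdP fun _ B => F1 B := by
  have a1 := (WdP.rung wdp_H3).sub (WdP.mulp (Polynomial.X ^ 2 - 3 * Polynomial.X + 4) wdp_PI)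
  have a2 := a1.sub (WdP.mulp (Polynomial.X ^ 2 - 2 * Polynomial.X) (wdp_H1.add wdp_H3))
  refine a2.congr fun F B => ?_
  unfold F1
  rw [qK_eq]
  simp only [Polynomial.eval_sub, Polynomial.eval_mul, Polynomial.eval_X, Polynomial.eval_pow,
    Polynomial.eval_add, Polynomial.eval_ofNat]

theorem wdp_K2 : WdP fun _ B => K2 B := by
  have a1 := (WdP.mulp (-1) (WdP.rung wdp_F1)).add
    (WdP.mulp (Polynomial.X * (Polynomial.X - 1)) wdp_F1)
  have a2 := a1.add (WdP.mulp (-Polynomial.X * (Polynomial.X ^ 2 - 2 * Polynomial.X) +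
    Polynomial.X ^ 2 * (Polynomial.X - 1) ^ 2 + Polynomial.X ^ 3 * (Polynomial.X - 1)) wdp_H1)
  have a3 := a2.add (WdP.mulp (Polynomial.X ^ 3) wdp_H3)
  have a4 := a3.add (WdP.mulp (-Polynomial.X * (Polynomial.X ^ 2 - 3 * Polynomial.X + 4) +
    Polynomial.X * (Polynomial.X - 1) * (Polynomial.X - 2) * (Polynomial.X + 1) + Polynomial.X ^ 2) wdp_PI)
  have a5 := a4.add (WdP.mulp (Polynomial.X ^ 2) wdp_Ps)
  have a6 := a5.add (WdP.rung wdp_Ps01)
  have a7 := a6.sub (WdP.mulp Polynomial.X (((WdP.rung wdp_PI).sub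
    (WdP.mulp (Polynomial.X * (Polynomial.X - 1) ^ 2) wdp_PI)).sub
    (WdP.mulp (Polynomial.X ^ 2 * (Polynomial.X - 1)) wdp_H1)))
  have a8 := a7.sub (WdP.mulp (Polynomial.X ^ 2 * (Polynomial.X - 2)) wdp_B3)
  refine a8.congr fun F B => ?_
  have h1 : R (fun B => F1 B) B = R F1 B := rfl
  have h2 : R (fun B => Ps01 B) B = R Ps01 B := rfl
  have h3 : R (fun B => PI B) B = R PI B := rfl
  unfold K2
  rw [h1, h2, h3, qK_eq]
  simp only [Polynomial.eval_sub, Polynomial.eval_mul, Polynomial.eval_X, Polynomial.eval_pow,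
    Polynomial.eval_neg, Polynomial.eval_add, Polynomial.eval_one, Polynomial.eval_ofNat]
  ring

theorem wdp_C0 : WdP fun _ B => C 0 B := by
  refine WdP.div (Polynomial.X ^ 4 * (Polynomial.X - Polynomial.C 1))
    ((Polynomial.monic_X_pow 4).mul (Polynomial.monic_X_sub_C 1)) ?_
  have a1 := (WdP.rung wdp_K2).sub (WdP.mulp (Polynomial.X ^ 3 * (Polynomial.X - 1) ^ 2) wdp_H1)
  have a2 := a1.sub (WdP.mulp (Polynomial.X ^ 3) wdp_Ps)
  have a3 := a2.add (WdP.mulp (Polynomial.X ^ 3 * (Polynomial.X - 2)) wdp_PI)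
  refine a3.congr fun F B => ?_
  have hC : C 0 B = cf 0 0 B := by
    unfold cf
    rw [mt00]
  have hm := planar_identity B
  have h1 : R (fun B => K2 B) B = R K2 B := rfl
  rw [qK_eq] at hm
  rw [hC, h1]
  simp only [Polynomial.eval_sub, Polynomial.eval_mul, Polynomial.eval_C, Polynomial.eval_X,
    Polynomial.eval_pow, Polynomial.eval_one, Polynomial.eval_ofNat]
  linear_combination -hm

end Pool.Agent.PL3
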