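import Pool.Agent.PL3.Ops

/-!
# Reduction to connected planar 3-regular graphs without loops
-/

set_option autoImplicit false

open scoped BigOperators

namespace Pool.Agent.PL3

open Pool.Agent.KG Pool.Agent.P3 Pool.Agent.KGU

/-- MODULE PRA (1).  A pendant edge is contracted: `pl_con` with `a = none`, `b = some a`, `π none = a`, `π (some x) = x`. -/
theorem pl_pend {V E : Type} [Fintype V] [Fintype E] (a : V) (s t : E → V)
    (h : Pl (ae none (some ∘ s)) (ae (some a) (some ∘ t))) : Pl s t := by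
  have hk : ∀ u v : Option V, u.elim a id = v.elim a id ↔
      u = v ∨ (u = none ∧ v = some a) ∨ (u = some a ∧ v = none) := by
    intro u v
    rcases u with _ | u
    · rcases v with _ | v
      · simp
      · simp [eq_comm]
    · rcases v with _ | v
      · simp
      · simp
  exact pl_con (some ∘ s) (some ∘ t) none (some a) (Option.some_ne_none a).symm (fun o => o.elim a id) hk h

/-- MODULE PRA (2).  A vertex of degree `2`: `pl_con` for the first edge. -/
theorem pl_two {V E : Type} [Fintype V] [Fintype E] (a b : V) (s t : E → V)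
    (h : Pl (ae (some a) (ae none (some ∘ s))) (ae none (ae (some b) (some ∘ t)))) : Pl (ae a s) (ae b t) := by
  have hk : ∀ u v : Option V, u.elim a id = v.elim a id ↔
      u = v ∨ (u = some a ∧ v = none) ∨ (u = none ∧ v = some a) := by
    intro u v
    rcases u with _ | u
    · rcases v with _ | v
      · simp
      · simp [eq_comm]
    · rcases v with _ | v
      · simp
      · simp
  have h1 := pl_con (ae none (some ∘ s)) (ae (some b) (some ∘ t)) (some a) none (Option.some_ne_none a)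
    (fun o => o.elim a id) hk h
  have e1 : (fun o : Option V => o.elim a id) ∘ ae none (some ∘ s) = ae a s := by
    funext o
    rcases o with _ | e <;> rfl
  have e2 : (fun o : Option V => o.elim a id) ∘ ae (some b) (some ∘ t) = ae b t := by
    funext o
    rcases o with _ | e <;> rfl
  rwa [e1, e2] at h1

private theorem PRA_ns {V E V' E' : Type} [Fintype V] [Fintype E] [Fintype V'] [Fintype E'] (f : V' ≃ V)
    (g : E' ≃ E) (s t : E → V) (S T : E' → V')
    (h : ∀ o, (s (g o) = f (S o) ∧ t (g o) = f (T o)) ∨ (s (g o) = f (T o) ∧ t (g o) = f (S o))) :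
    ns s t = ns S T := by
  have h1 : ns (fun o => s (g o)) (fun o => t (g o)) = ns s t :=
    (ns_iso (Equiv.refl V) g (fun o => s (g o)) (fun o => t (g o)) s t (fun o => rfl) (fun o => rfl)).symm
  have h2 : ns (fun o => f (S o)) (fun o => f (T o)) = ns S T :=
    ns_iso f (Equiv.refl E') S T (fun o => f (S o)) (fun o => f (T o)) (fun o => rfl) (fun o => rfl)
  rw [← h1, ← h2]
  exact ns_flip (fun o => f (S o)) (fun o => f (T o)) (fun o => s (g o)) (fun o => t (g o)) h

open Classical in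
private theorem PRA_deg {V E : Type} [Fintype E] (s t : E → V) (v : V) :
    deg s t v = ∑ e, ((if s e = v then 1 else 0) + (if t e = v then 1 else 0)) := by
  have h : ∀ f : E → V, {e | f e = v}.ncard = ∑ e, if f e = v then 1 else 0 := by
    intro f
    have h1 : {e | f e = v} = ((Finset.univ.filter fun e => f e = v : Finset E) : Set E) := by
      ext e
      simp
    rw [h1, Set.ncard_coe_finset, Finset.card_filter]
  unfold deg
  rw [h, h, Finset.sum_add_distrib]

private theorem PRA_dg {V E V' E' : Type} [Fintype E] [Fintype E'] (f : V' ≃ V)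
    (g : E' ≃ E) (s t : E → V) (S T : E' → V')
    (h : ∀ o, (s (g o) = f (S o) ∧ t (g o) = f (T o)) ∨ (s (g o) = f (T o) ∧ t (g o) = f (S o))) (u : V') :
    deg S T u = deg s t (f u) := by
  classical
  rw [PRA_deg, PRA_deg, ← Equiv.sum_comp g]
  refine Finset.sum_congr rfl fun o _ => ?_
  rcases h o with ⟨h1, h2⟩ | ⟨h1, h2⟩
  · rw [h1, h2]
    simp only [f.injective.eq_iff]
  · rw [h1, h2]
    simp only [f.injective.eq_iff]
    ring

private theorem PRA_at {V E : Type} [Fintype E] (s t : E → V) (h : LL s t) (v : V) :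
    {e | s e = v ∨ t e = v}.ncard = deg s t v := by
  have h1 : {e | s e = v ∨ t e = v} = {e | s e = v} ∪ {e | t e = v} := rfl
  unfold deg
  rw [h1, Set.ncard_union_eq _ (Set.toFinite _) (Set.toFinite _)]
  rw [Set.disjoint_left]
  intro e he he'
  exact h e ((show s e = v from he).trans (show t e = v from he').symm)

private theorem PRA_pl {V E V' E' : Type} [Fintype V] [Fintype E] [Fintype V'] [Fintype E'] (f : V' ≃ V)
    (g : E' ≃ E) (s t : E → V) (S T : E' → V')
    (h : ∀ o, (s (g o) = f (S o) ∧ t (g o) = f (T o)) ∨ (s (g o) = f (T o) ∧ t (g o) = f (S o)))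
    (hp : Pl s t) : Pl S T := by
  have h1 : Pl (fun o => s (g o)) (fun o => t (g o)) :=
    pl_iso (Equiv.refl V) g.symm s t _ _ (fun e => by simp) (fun e => by simp) hp
  have h2 : Pl (fun o => f (S o)) (fun o => f (T o)) := by
    refine pl_flip _ _ _ _ (fun o => ?_) h1
    rcases h o with ⟨h3, h4⟩ | ⟨h3, h4⟩
    · exact Or.inl ⟨h3.symm, h4.symm⟩
    · exact Or.inr ⟨h4.symm, h3.symm⟩
  exact pl_iso f.symm (Equiv.refl E') _ _ S T (fun e => by simp) (fun e => by simp) h2

/-- MODULE PRA (3).  `P3.exists_pend` with planarity: copy the proof; from `key` there: `pl_iso`, `pl_flip`. -/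
theorem exists_pendP {V E : Type} [Fintype V] [Fintype E] (s t : E → V) (h : LL s t) (hp : Pl s t) (v : V)
    (hv : deg s t v = 1) : ∃ (V' E' : Type) (_ : Fintype V') (_ : Fintype E') (s' t' : E' → V') (a : V'),
      Fintype.card E' < Fintype.card E ∧ (∀ n, (∀ u, deg s t u ≤ n) → ∀ u, deg s' t' u ≤ n) ∧
      Pl (ae none (some ∘ s')) (ae (some a) (some ∘ t')) ∧
      ns s t = ns (ae none (some ∘ s')) (ae (some a) (some ∘ t')) := by
  classical
  have hA := PRA_at s t h v
  rw [hv, Set.ncard_eq_one] at hA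
  obtain ⟨e0, he0⟩ := hA
  have h0 : s e0 = v ∨ t e0 = v := by
    have : e0 ∈ {e | s e = v ∨ t e = v} := by rw [he0]; rfl
    exact this
  have hne : ∀ e, e ≠ e0 → s e ≠ v ∧ t e ≠ v := by
    intro e he
    constructor
    · intro hs
      have : e ∈ {e | s e = v ∨ t e = v} := Or.inl hs
      rw [he0] at this
      exact he this
    · intro ht
      have : e ∈ {e | s e = v ∨ t e = v} := Or.inr ht
      rw [he0] at this
      exact he this
  obtain ⟨w, hw, hor⟩ : ∃ w, w ≠ v ∧ ((s e0 = v ∧ t e0 = w) ∨ (s e0 = w ∧ t e0 = v)) := by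
    rcases h0 with h0 | h0
    · exact ⟨t e0, fun hc => h e0 (h0.trans hc.symm), Or.inl ⟨h0, rfl⟩⟩
    · exact ⟨s e0, fun hc => h e0 (hc.trans h0.symm), Or.inr ⟨rfl, h0⟩⟩
  let f : Option {u // u ≠ v} ≃ V := Equiv.optionSubtypeNe v
  let g : Option {e // e ≠ e0} ≃ E := Equiv.optionSubtypeNe e0
  let s' : {e // e ≠ e0} → {u // u ≠ v} := fun e => ⟨s e.1, (hne e.1 e.2).1⟩
  let t' : {e // e ≠ e0} → {u // u ≠ v} := fun e => ⟨t e.1, (hne e.1 e.2).2⟩
  have hf0 : f none = v := Equiv.optionSubtypeNe_none v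
  have hf1 : ∀ u, f (some u) = u.1 := fun u => Equiv.optionSubtypeNe_some v u
  have hg0 : g none = e0 := Equiv.optionSubtypeNe_none e0
  have hg1 : ∀ e, g (some e) = e.1 := fun e => Equiv.optionSubtypeNe_some e0 e
  have key : ∀ o, (s (g o) = f (ae none (some ∘ s') o) ∧ t (g o) = f (ae (some ⟨w, hw⟩) (some ∘ t') o)) ∨
      (s (g o) = f (ae (some ⟨w, hw⟩) (some ∘ t') o) ∧ t (g o) = f (ae none (some ∘ s') o)) := by
    intro o
    rcases o with _ | e
    · show (s (g none) = f none ∧ t (g none) = f (some ⟨w, hw⟩)) ∨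
        (s (g none) = f (some ⟨w, hw⟩) ∧ t (g none) = f none)
      rw [hg0, hf0, hf1]
      exact hor
    · left
      show s (g (some e)) = f (some (s' e)) ∧ t (g (some e)) = f (some (t' e))
      rw [hg1, hf1, hf1]
      exact ⟨rfl, rfl⟩
  refine ⟨{u // u ≠ v}, {e // e ≠ e0}, inferInstance, inferInstance, s', t', ⟨w, hw⟩, ?_, ?_, ?_, ?_⟩
  · rw [← Fintype.card_congr g, Fintype.card_option]
    omega
  · intro n hn u
    have h1 := PRA_dg f g s t _ _ key (some u)
    have h2 := hn (f (some u))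
    have h3 : deg (some ∘ s') (some ∘ t') (some u) = deg s' t' u := KG.deg_some s' t' u
    rw [← h1, KG.deg_ae, h3] at h2
    omega
  · exact PRA_pl f g s t _ _ key hp
  · exact PRA_ns f g s t _ _ key

/-- MODULE PRB.  `P3.exists_two'` with planarity: copy the proof; from `key` there: `pl_iso`, `pl_flip`. -/
theorem exists_twoP {V E : Type} [Fintype V] [Fintype E] (s t : E → V) (h : LL s t) (hp : Pl s t) (v : V)
    (hv : deg s t v = 2) : ∃ (V' E' : Type) (_ : Fintype V') (_ : Fintype E') (s' t' : E' → V') (a b : V'),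
      Fintype.card E' + 1 < Fintype.card E ∧ (∀ n, (∀ u, deg s t u ≤ n) → ∀ u, deg (ae a s') (ae b t') u ≤ n) ∧
      Pl (ae (some a) (ae none (some ∘ s'))) (ae none (ae (some b) (some ∘ t'))) ∧
      ns s t = ns (ae (some a) (ae none (some ∘ s'))) (ae none (ae (some b) (some ∘ t'))) := by
  classical
  have hA := PRA_at s t h v
  rw [hv, Set.ncard_eq_two] at hA
  obtain ⟨e0, e1, he01, he⟩ := hA
  have h0 : s e0 = v ∨ t e0 = v := by
    have : e0 ∈ {e | s e = v ∨ t e = v} := by rw [he]; exact Or.inl rfl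
    exact this
  have h1 : s e1 = v ∨ t e1 = v := by
    have : e1 ∈ {e | s e = v ∨ t e = v} := by rw [he]; exact Or.inr rfl
    exact this
  have hne : ∀ e, e ≠ e0 → e ≠ e1 → s e ≠ v ∧ t e ≠ v := by
    intro e he0 he1
    have hn : e ∉ {e | s e = v ∨ t e = v} := by
      rw [he]
      rintro (hc | hc)
      · exact he0 hc
      · exact he1 hc
    exact ⟨fun hs => hn (Or.inl hs), fun ht => hn (Or.inr ht)⟩
  have hoth : ∀ e, (s e = v ∨ t e = v) → ∃ w, w ≠ v ∧ ((s e = v ∧ t e = w) ∨ (s e = w ∧ t e = v)) := by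
    intro e h0
    rcases h0 with h0 | h0
    · exact ⟨t e, fun hc => h e (h0.trans hc.symm), Or.inl ⟨h0, rfl⟩⟩
    · exact ⟨s e, fun hc => h e (hc.trans h0.symm), Or.inr ⟨rfl, h0⟩⟩
  obtain ⟨w0, hw0, hor0⟩ := hoth e0 h0
  obtain ⟨w1, hw1, hor1⟩ := hoth e1 h1
  let e1' : {e // e ≠ e0} := ⟨e1, he01.symm⟩
  let f : Option {u // u ≠ v} ≃ V := Equiv.optionSubtypeNe v
  let g : Option (Option {e : {e // e ≠ e0} // e ≠ e1'}) ≃ E :=
    (Equiv.optionCongr (Equiv.optionSubtypeNe e1')).trans (Equiv.optionSubtypeNe e0)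
  have hE : ∀ e : {e : {e // e ≠ e0} // e ≠ e1'}, s e.1.1 ≠ v ∧ t e.1.1 ≠ v := fun e =>
    hne e.1.1 e.1.2 fun hc => e.2 (Subtype.ext hc)
  let s' : {e : {e // e ≠ e0} // e ≠ e1'} → {u // u ≠ v} := fun e => ⟨s e.1.1, (hE e).1⟩
  let t' : {e : {e // e ≠ e0} // e ≠ e1'} → {u // u ≠ v} := fun e => ⟨t e.1.1, (hE e).2⟩
  have hf0 : f none = v := Equiv.optionSubtypeNe_none v
  have hf1 : ∀ u, f (some u) = u.1 := fun u => Equiv.optionSubtypeNe_some v u
  have hg0 : g none = e0 := Equiv.optionSubtypeNe_none e0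
  have hg1 : g (some none) = e1 := by
    show Equiv.optionSubtypeNe e0 (some (Equiv.optionSubtypeNe e1' none)) = e1
    rw [Equiv.optionSubtypeNe_none, Equiv.optionSubtypeNe_some]
  have hg2 : ∀ e, g (some (some e)) = e.1.1 := by
    intro e
    show Equiv.optionSubtypeNe e0 (some (Equiv.optionSubtypeNe e1' (some e))) = e.1.1
    rw [Equiv.optionSubtypeNe_some, Equiv.optionSubtypeNe_some]
  have key : ∀ o, (s (g o) = f (ae (some ⟨w0, hw0⟩) (ae none (some ∘ s')) o) ∧
        t (g o) = f (ae none (ae (some ⟨w1, hw1⟩) (some ∘ t')) o)) ∨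
      (s (g o) = f (ae none (ae (some ⟨w1, hw1⟩) (some ∘ t')) o) ∧
        t (g o) = f (ae (some ⟨w0, hw0⟩) (ae none (some ∘ s')) o)) := by
    intro o
    rcases o with _ | _ | e
    · show (s (g none) = f (some ⟨w0, hw0⟩) ∧ t (g none) = f none) ∨
        (s (g none) = f none ∧ t (g none) = f (some ⟨w0, hw0⟩))
      rw [hg0, hf0, hf1]
      exact hor0.symm
    · show (s (g (some none)) = f none ∧ t (g (some none)) = f (some ⟨w1, hw1⟩)) ∨
        (s (g (some none)) = f (some ⟨w1, hw1⟩) ∧ t (g (some none)) = f none)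
      rw [hg1, hf0, hf1]
      exact hor1
    · left
      show s (g (some (some e))) = f (some (s' e)) ∧ t (g (some (some e))) = f (some (t' e))
      rw [hg2, hf1, hf1]
      exact ⟨rfl, rfl⟩
  refine ⟨{u // u ≠ v}, {e : {e // e ≠ e0} // e ≠ e1'}, inferInstance, inferInstance, s', t',
    ⟨w0, hw0⟩, ⟨w1, hw1⟩, ?_, ?_, ?_, ?_⟩
  · rw [← Fintype.card_congr g, Fintype.card_option, Fintype.card_option]
    omega
  · intro n hn u
    have h1 := PRA_dg f g s t _ _ key (some u)
    have h2 := hn (f (some u))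
    have h3 : deg (some ∘ s') (some ∘ t') (some u) = deg s' t' u := KG.deg_some s' t' u
    rw [← h1, KG.deg_ae, KG.deg_ae, h3] at h2
    rw [KG.deg_ae]
    simp only [Option.some.injEq, reduceCtorEq, if_false, add_zero] at h2
    by_cases h5 : u = ⟨w0, hw0⟩
    · by_cases h6 : u = ⟨w1, hw1⟩
      · rw [if_pos h5, if_pos h6] at h2 ⊢
        omega
      · rw [if_pos h5, if_neg h6] at h2 ⊢
        omega
    · by_cases h6 : u = ⟨w1, hw1⟩
      · rw [if_neg h5, if_pos h6] at h2 ⊢
        omega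
      · rw [if_neg h5, if_neg h6] at h2 ⊢
        omega
  · exact PRA_pl f g s t _ _ key hp
  · exact PRA_ns f g s t _ _ key

private theorem prc_kd {X Y : Type} (e : X ≃ Y) (a : X) (b : Y) :
    PLN.kd (e a) b = PLN.kd a (e.symm b) := by
  unfold PLN.kd
  by_cases h : e a = b
  · rw [if_pos h, if_pos ((Equiv.eq_symm_apply e).2 h)]
  · rw [if_neg h, if_neg fun h' => h ((Equiv.eq_symm_apply e).1 h')]

private theorem prc_ic {V W E E' : Type} (f : V ≃ W) (g : E ≃ E') (s t : E → V) (s' t' : E' → W)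
    (hs : ∀ e, s' (g e) = f (s e)) (ht : ∀ e, t' (g e) = f (t e)) (e : E) (w : W) :
    PLN.ic s' t' (g e) w = PLN.ic s t e (f.symm w) := by
  unfold PLN.ic
  rw [hs, ht, prc_kd, prc_kd]

/-- MODULE PRC.  A connected planar 3-regular graph without loops gives an element of `PReg3S`.

Proof.  `exists_conn_dual`, `dual_of_du`; transport `V`, `E`, `D` to `Fin n`, `Fin m`, `Fin k` (`Fintype.equivFin`): the
structure `PLN.PlanarCubic` (`deg_iso`, `isTree_iso` for `conn` and for `dual.dconn`; `chain`: `Equiv.sum_comp`, `PLN.ic`, `PLN.kd`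
of the transported maps; `euler`: `Fintype.card_fin`), `ns_iso`. -/
theorem reg3_base {V E : Type} [Fintype V] [Fintype E] (s t : E → V) (hl : LL s t) (hp : Pl s t)
    (h3 : ∀ v, deg s t v = 3) (hT : ∃ T, IsTree s t T) : ns s t ∈ PReg3S := by
  obtain ⟨D, hDf, l, r, hd⟩ := hp
  obtain ⟨D', hD'f, l', r', hd', hT'⟩ := exists_conn_dual s t l r hd
  have hdu : PLN.Dual s t l' r' := dual_of_du s t l' r' hd' hT hT'
  obtain ⟨T, hT⟩ := hT
  obtain ⟨T', hT'⟩ := hT'
  obtain ⟨e⟩ : Nonempty (V ≃ Fin (Fintype.card V)) := ⟨Fintype.equivFin V⟩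
  obtain ⟨g⟩ : Nonempty (E ≃ Fin (Fintype.card E)) := ⟨Fintype.equivFin E⟩
  obtain ⟨k⟩ : Nonempty (D' ≃ Fin (Fintype.card D')) := ⟨Fintype.equivFin D'⟩
  have hs : ∀ x, (e ∘ s ∘ g.symm) (g x) = e (s x) := fun x => by
    show e (s (g.symm (g x))) = e (s x)
    rw [Equiv.symm_apply_apply]
  have ht : ∀ x, (e ∘ t ∘ g.symm) (g x) = e (t x) := fun x => by
    show e (t (g.symm (g x))) = e (t x)
    rw [Equiv.symm_apply_apply]
  have hl' : ∀ x, (k ∘ l' ∘ g.symm) (g x) = k (l' x) := fun x => by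
    show k (l' (g.symm (g x))) = k (l' x)
    rw [Equiv.symm_apply_apply]
  have hr' : ∀ x, (k ∘ r' ∘ g.symm) (g x) = k (r' x) := fun x => by
    show k (r' (g.symm (g x))) = k (r' x)
    rw [Equiv.symm_apply_apply]
  refine ⟨⟨Fintype.card V, Fintype.card E, Fintype.card D', e ∘ s ∘ g.symm, e ∘ t ∘ g.symm,
    k ∘ l' ∘ g.symm, k ∘ r' ∘ g.symm, ?_, ?_, ?_, ?_⟩, ?_⟩
  · intro v
    have h4 := deg_iso e g s t (e ∘ s ∘ g.symm) (e ∘ t ∘ g.symm) hs ht (e.symm v)
    rw [Equiv.apply_symm_apply] at h4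
    rw [h4]
    exact h3 _
  · intro i hi
    exact hl (g.symm i) (e.injective hi)
  · exact ⟨T.map g.toEmbedding, (isTree_iso e g s t _ _ hs ht T).2 hT⟩
  · refine ⟨fun v d => ?_, ?_, ⟨T'.map g.toEmbedding, (isTree_iso k g l' r' _ _ hl' hr' T').2 hT'⟩⟩
    · rw [← Equiv.sum_comp g]
      rw [← hdu.chain (e.symm v) (k.symm d)]
      refine Finset.sum_congr rfl fun x _ => ?_
      rw [prc_ic e g s t _ _ hs ht x v, prc_ic k g l' r' _ _ hl' hr' x d]
    · rw [Fintype.card_fin, Fintype.card_fin, Fintype.card_fin]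
      exact hdu.euler
  · exact (ns_iso e g s t _ _ hs ht).symm

private theorem prg_zero {V E : Type} [Fintype V] [Fintype E] (s t : E → V)
    (hT : ∃ T, IsTree s t T) (v : V) (hv : deg s t v = 0) (F : FinField) : ns s t F = 0 := by
  classical
  obtain ⟨T, -, hT⟩ := hT
  have hv1 : ∀ e, s e ≠ v := by
    intro e he
    unfold deg at hv
    have h1 : {e | s e = v}.ncard = 0 := by omega
    rw [Set.ncard_eq_zero (Set.toFinite _)] at h1
    have h2 : e ∈ {e | s e = v} := he
    rw [h1] at h2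
    exact h2
  have hv2 : ∀ e, t e ≠ v := by
    intro e he
    unfold deg at hv
    have h1 : {e | t e = v}.ncard = 0 := by omega
    rw [Set.ncard_eq_zero (Set.toFinite _)] at h1
    have h2 : e ∈ {e | t e = v} := he
    rw [h1] at h2
    exact h2
  have huv : ∀ u, v = u := by
    intro u
    rcases (hT v u).cases_head with h1 | ⟨b, ⟨e, -, he | he⟩, -⟩
    · exact h1
    · exact absurd he.1 (hv1 e)
    · exact absurd he.2 (hv2 e)
  have hE : ∀ e : E, False := fun e => hv1 e (huv _).symm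
  have : Nonempty V := ⟨v⟩
  have hs : ∀ x : E → F.K, sym s t x ≠ 0 := by
    intro x
    rw [crit]
    intro i φ _ _
    exact ⟨funext fun e => (hE e).elim, φ v, fun u => by rw [huv u]⟩
  have he : IsEmpty {x : E → F.K // sym s t x = 0} := ⟨fun x => hs x.1 x.2⟩
  unfold ns NS
  rw [Nat.card_of_isEmpty]
  rfl

private theorem prg_aux (N : ℕ) : ∀ (V E : Type) [Fintype V] [Fintype E] (s t : E → V),
    (∀ v, deg s t v ≤ 3) → Pl s t → Fintype.card E = N → Sp PReg3S (ns s t) := by
  classical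
  induction N using Nat.strong_induction_on with
  | _ N ih =>
    intro V E _ _ s t h hp hN
    by_cases hT : ∃ T, IsTree s t T
    swap
    · refine Sp.congr (fun F => ?_) (Sp.pol (Polynomial.X ^ Fintype.card E))
      rw [ns_disc s t hT, Polynomial.eval_pow, Polynomial.eval_X]
    by_cases hl : ∀ e, s e ≠ t e
    swap
    · push Not at hl
      obtain ⟨e0, he0⟩ := hl
      let g : Option {e // e ≠ e0} ≃ E := Equiv.optionSubtypeNe e0
      have hs : ∀ f : E → V, ∀ o, f (g o) = (ae (f e0) fun e : {e // e ≠ e0} => f e.1) o := by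
        intro f o
        rcases o with _ | e
        · show f (Equiv.optionSubtypeNe e0 none) = _
          rw [Equiv.optionSubtypeNe_none]
          rfl
        · show f (Equiv.optionSubtypeNe e0 (some e)) = _
          rw [Equiv.optionSubtypeNe_some]
          rfl
      have h1 : ns s t = ns (ae (s e0) fun e : {e // e ≠ e0} => s e.1)
          (ae (t e0) fun e : {e // e ≠ e0} => t e.1) :=
        ns_iso (Equiv.refl V) g _ _ s t (fun o => hs s o) (fun o => hs t o)
      have h2 : ∀ v, deg (ae (s e0) fun e : {e // e ≠ e0} => s e.1)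
          (ae (t e0) fun e : {e // e ≠ e0} => t e.1) v = deg s t v := fun v =>
        (deg_iso (Equiv.refl V) g _ _ s t (fun o => hs s o) (fun o => hs t o) v).symm
      have h3 : Fintype.card E = Fintype.card {e // e ≠ e0} + 1 := by
        rw [← Fintype.card_congr g, Fintype.card_option]
      have h4 : Pl (fun e : {e // e ≠ e0} => s e.1) (fun e : {e // e ≠ e0} => t e.1) :=
        pl_sub s t (Subtype.val : {e // e ≠ e0} → E) Subtype.val_injective hp
      rw [← he0] at h1 h2
      have h5 : ∀ v, deg (fun e : {e // e ≠ e0} => s e.1) (fun e : {e // e ≠ e0} => t e.1) v ≤ 3 := by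
        intro v
        have h6 := h2 v
        rw [KG.deg_ae] at h6
        have := h v
        omega
      rw [h1]
      have h7 := ih _ (by omega) V {e // e ≠ e0} _ _ h5 h4 rfl
      refine Sp.congr (fun F => ?_) (Sp.add (Sp.mulp (Polynomial.X - 1) h7)
        (Sp.pol (Polynomial.X ^ Fintype.card {e // e ≠ e0})))
      rw [ns_loop]
      simp only [Polynomial.eval_sub, Polynomial.eval_X, Polynomial.eval_one, Polynomial.eval_pow]
    by_cases h0 : ∃ v, deg s t v = 0
    · obtain ⟨v, hv⟩ := h0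
      exact Sp.congr (fun F => (prg_zero s t hT v hv F).symm) Sp.zero
    by_cases h1 : ∃ v, deg s t v = 1
    · obtain ⟨v, hv⟩ := h1
      obtain ⟨V', E', _, _, s', t', a, hc, hd, hp', hns⟩ := exists_pendP s t hl hp v hv
      have h7 := ih _ (by omega) V' E' s' t' (hd 3 h) (pl_pend a s' t' hp') rfl
      rw [hns]
      refine Sp.congr (fun F => ?_) (Sp.mulp Polynomial.X h7)
      rw [ns_pend, Polynomial.eval_X]
    by_cases h2 : ∃ v, deg s t v = 2
    · obtain ⟨v, hv⟩ := h2
      obtain ⟨V', E', _, _, s', t', a, b, hc, hd, hp', hns⟩ := exists_twoP s t hl hp v hv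
      have hc' : Fintype.card (Option E') < N := by rw [Fintype.card_option]; omega
      have h7 := ih _ hc' V' (Option E') (ae a s') (ae b t') (hd 3 h) (pl_two a b s' t' hp') rfl
      rw [hns]
      refine Sp.congr (fun F => ?_) (Sp.mulp Polynomial.X h7)
      rw [ns_two, Polynomial.eval_X]
    have h3 : ∀ v, deg s t v = 3 := by
      intro v
      have := h v
      have k0 : deg s t v ≠ 0 := fun hh => h0 ⟨v, hh⟩
      have k1 : deg s t v ≠ 1 := fun hh => h1 ⟨v, hh⟩
      have k2 : deg s t v ≠ 2 := fun hh => h2 ⟨v, hh⟩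
      omega
    exact Sp.base (reg3_base s t hl hp h3 hT)

/-- MODULE PRG.  Planar version of `P3.reg_mem` (its proof is `rge_aux` in P3/Reg.lean; `rge_zero` there is private, copy it).
The loop case: delete the loop with `pl_sub` (`ι = Subtype.val`, `E ≃ Option {e // e ≠ e0}` as in `KG.phi4_all`,
`KG.NS_loop` or `P3`'s `ns_loop`); degree `1`: `exists_pendP`, `pl_pend`, `ns_pend`; degree `2`: `exists_twoP`, `pl_two`, `ns_two`;
all degrees `3`: `reg3_base`. -/
theorem preg_mem {V E : Type} [Fintype V] [Fintype E] (s t : E → V) (h : ∀ v, deg s t v ≤ 3) (hp : Pl s t) :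
    Sp PReg3S (ns s t) := prg_aux _ V E s t h hp rfl

end Pool.Agent.PL3
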