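import Pool.Agent.PL3.Defs

/-!
# Trails in a balanced directed graph

`A` is the set of the edges, the edge `e` goes from `p e` to `q e`.
-/

set_option autoImplicit false

open scoped BigOperators

namespace Pool.Agent.PL3

/-- MODULE TRA (1).  The next edge.

Proof.  Take `φ = Pi.single d'' 1`: the sum over `A` minus the sum over `J` is
`∑ e ∈ A \ J, (φ (q e) - φ (p e)) = - (φ d'' - φ d') = -1 < 0`, so some term is negative: `φ (p e) = 1`. -/
theorem next_edge {E D : Type} [DecidableEq E] [DecidableEq D] (A J : Finset E) (hJ : J ⊆ A) (p q : E → D)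
    (hA : ∀ φ : D → ℚ, ∑ e ∈ A, (φ (q e) - φ (p e)) = 0) (d' d'' : D) (hne : d' ≠ d'')
    (h : ∀ φ : D → ℚ, ∑ e ∈ J, (φ (q e) - φ (p e)) = φ d'' - φ d') : ∃ e ∈ A \ J, p e = d'' := by
  by_contra hc
  push Not at hc
  have h1 := hA (fun d => if d = d'' then 1 else 0)
  have h2 := h (fun d => if d = d'' then 1 else 0)
  rw [if_pos rfl, if_neg hne] at h2
  rw [← Finset.sum_sdiff hJ, h2] at h1
  have h3 : (0 : ℚ) ≤ ∑ e ∈ A \ J, ((if q e = d'' then (1 : ℚ) else 0) - if p e = d'' then 1 else 0) := by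
    refine Finset.sum_nonneg fun e he => ?_
    rw [if_neg (hc e he)]
    split_ifs <;> norm_num
  linarith

/-- MODULE TRA (2).  Consecutive edges.

Proof.  Induction on `k`: `J = ∅`, `d' = d''` any face for `k = 0`.  Step: if `d' ≠ d''`, add the edge of `next_edge`
(new end `q e`); if `d' = d''`, add any edge `e ∈ A \ J`, new ends `p e`, `q e`. -/
theorem exists_trail {E D : Type} [DecidableEq E] [Nonempty D] (A : Finset E) (p q : E → D)
    (hA : ∀ φ : D → ℚ, ∑ e ∈ A, (φ (q e) - φ (p e)) = 0) (k : ℕ) (hk : k ≤ A.card) :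
    ∃ J ⊆ A, J.card = k ∧ ∃ d' d'' : D, ∀ φ : D → ℚ, ∑ e ∈ J, (φ (q e) - φ (p e)) = φ d'' - φ d' := by
  classical
  induction k with
  | zero =>
    obtain ⟨d⟩ := ‹Nonempty D›
    exact ⟨∅, Finset.empty_subset _, rfl, d, d, fun φ => by simp⟩
  | succ k ih =>
    obtain ⟨J, hJ, hc, d', d'', h⟩ := ih (by omega)
    by_cases hd : d' = d''
    · have hlt : J.card < A.card := by omega
      obtain ⟨e, he, heJ⟩ := Finset.exists_mem_notMem_of_card_lt_card hlt
      refine ⟨insert e J, Finset.insert_subset he hJ, by rw [Finset.card_insert_of_notMem heJ, hc], p e, q e,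
        fun φ => ?_⟩
      rw [Finset.sum_insert heJ, h φ, hd]
      ring
    · obtain ⟨e, he, hp⟩ := next_edge A J hJ p q hA d' d'' hd h
      rw [Finset.mem_sdiff] at he
      refine ⟨insert e J, Finset.insert_subset he.1 hJ, by rw [Finset.card_insert_of_notMem he.2, hc], d', q e,
        fun φ => ?_⟩
      rw [Finset.sum_insert he.2, h φ, hp]
      ring

/-- MODULE TRB.  Two closed edges or three consecutive ones.

Proof.  If `p e = q e` for two different edges `e ∈ A`, then `J` is the set of these two.  Otherwise there is `e0 ∈ A` with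
`p e0 ≠ q e0` (`A` has at least three elements).  `next_edge` for `J = {e0}` gives `e1 ≠ e0` with `p e1 = q e0`.  If
`q e1 = p e0`, then `J = {e0, e1}` is closed.  Otherwise `next_edge` for `{e0, e1}` (ends `p e0 ≠ q e1`) gives `e2` with
`p e2 = q e1`. -/
theorem trail3 {E D : Type} [DecidableEq E] (A : Finset E) (p q : E → D)
    (hA : ∀ φ : D → ℚ, ∑ e ∈ A, (φ (q e) - φ (p e)) = 0) (h3 : 3 ≤ A.card) :
    (∃ J ⊆ A, J.card = 2 ∧ ∀ φ : D → ℚ, ∑ e ∈ J, (φ (q e) - φ (p e)) = 0) ∨
      ∃ e0 ∈ A, ∃ e1 ∈ A, ∃ e2 ∈ A, e0 ≠ e1 ∧ e0 ≠ e2 ∧ e1 ≠ e2 ∧ q e0 = p e1 ∧ q e1 = p e2 := by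
  classical
  by_cases hE : ∃ e0 ∈ A, p e0 ≠ q e0
  · obtain ⟨e0, he0, hpq⟩ := hE
    obtain ⟨e1, he1, hp1⟩ := next_edge A {e0} (Finset.singleton_subset_iff.2 he0) p q hA (p e0) (q e0) hpq
      (fun φ => by rw [Finset.sum_singleton])
    rw [Finset.mem_sdiff, Finset.mem_singleton] at he1
    have h01 : e0 ∉ ({e1} : Finset E) := by
      rw [Finset.mem_singleton]
      exact fun h => he1.2 h.symm
    have hs : ∀ φ : D → ℚ, ∑ e ∈ insert e0 {e1}, (φ (q e) - φ (p e)) = φ (q e1) - φ (p e0) := by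
      intro φ
      rw [Finset.sum_insert h01, Finset.sum_singleton, hp1]
      ring
    have hsub : insert e0 {e1} ⊆ A := Finset.insert_subset he0 (Finset.singleton_subset_iff.2 he1.1)
    by_cases hq : q e1 = p e0
    · left
      refine ⟨insert e0 {e1}, hsub, ?_, fun φ => ?_⟩
      · rw [Finset.card_insert_of_notMem h01, Finset.card_singleton]
      · rw [hs, hq, sub_self]
    · right
      obtain ⟨e2, he2, hp2⟩ := next_edge A (insert e0 {e1}) hsub p q hA (p e0) (q e1) (fun h => hq h.symm) hs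
      rw [Finset.mem_sdiff, Finset.mem_insert, Finset.mem_singleton, not_or] at he2
      exact ⟨e0, he0, e1, he1.1, e2, he2.1, fun h => he1.2 h.symm, fun h => he2.2.1 h.symm,
        fun h => he2.2.2 h.symm, hp1.symm, hp2.symm⟩
  · push Not at hE
    left
    obtain ⟨J, hJ, hc⟩ := Finset.exists_subset_card_eq (show 2 ≤ A.card by omega)
    refine ⟨J, hJ, hc, fun φ => Finset.sum_eq_zero fun e he => ?_⟩
    rw [hE e (hJ he), sub_self]

end Pool.Agent.PL3
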