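import Pool.Agent.PL3.Gad
import Pool.Agent.PL3.Trail

/-!
# Symanzik polynomials of planar graphs with degrees at most four generate those of all planar graphs
-/

set_option autoImplicit false

open scoped BigOperators

namespace Pool.Agent.PL3

open Pool.Agent.KG Pool.Agent.P3

/-- The weight of a graph on `Option V`. -/
private theorem st6_wt_option {V E : Type} [Fintype V] [DecidableEq V] (s t : E → Option V) (v : V) :
    wt s t = (2 * deg s t none - 9) + (2 * deg s t (some v) - 9) +
      ∑ u ∈ Finset.univ.erase v, (2 * deg s t (some u) - 9) := by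
  unfold wt
  rw [Fintype.sum_option, ← Finset.sum_erase_add _ _ (Finset.mem_univ v)]
  ring

private theorem st6_wt {V E : Type} [Fintype V] [DecidableEq V] (s t : E → V) (v : V) :
    wt s t = (2 * deg s t v - 9) + ∑ u ∈ Finset.univ.erase v, (2 * deg s t u - 9) := by
  unfold wt
  rw [← Finset.sum_erase_add _ _ (Finset.mem_univ v)]
  ring

private theorem st6_q (F : FinField) [Fintype F.K] : F.q = (Fintype.card F.K : ℤ) := by
  unfold FinField.q
  rw [Nat.card_eq_fintype_card]

private theorem st6_deg {V E : Type} [Fintype E] [DecidableEq V] {s t : E → V} (h : LL s t) (v : V) :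
    deg s t v = (Finset.univ.filter fun e => s e = v ∨ t e = v).card := by
  unfold deg
  rw [← Set.ncard_union_eq _ (Set.toFinite _) (Set.toFinite _)]
  · rw [← Set.ncard_coe_finset]
    congr 1
    ext e
    simp
  · rw [Set.disjoint_left]
    intro e h1 h2
    exact h e (h1.trans h2.symm)

/-- MODULE ST6.  A vertex of degree at least `6`: planar version of `KG.step6`.

Proof.  Let `l`, `r` be a dual graph (`D` is nonempty: there is an edge at `v`).  `A = Finset.univ.filter (fun e => s e = v ∨ t e
= v)` has `deg s t v` elements (see the proof of `KG.exists_J`), it is balanced (`bal`), `exists_trail` with `k = 3` gives `J ⊆ A` with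
`J.card = 3`, `d'`, `d''`.  Put `s₁ = spl v J s`, `t₁ = spl v J t`.  By `du_split` the graph `(ae (some v) s₁, ae none t₁)` is planar,
by `pl_dbl` also the one with two new edges, by `pl_sub` (`ι = some`) also `(s₁, t₁)`.  Then copy the proof of `KG.step6` with this
`J` (`IH` takes the planarity as an additional argument). -/
theorem pstep6 {V E : Type} [Fintype V] [Fintype E] (s t : E → V) (h : LL s t) (hp : Pl s t) (v : V)
    (hv : 6 ≤ deg s t v)
    (IH : ∀ (V' E' : Type) [Fintype V'] [Fintype E'] (s' t' : E' → V'), LL s' t' → Pl s' t' →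
      wt s' t' < wt s t → Sp PPhi4 (ns s' t')) :
    Sp PPhi4 (ns s t) := by
  classical
  obtain ⟨D, hD, l, r, hdu⟩ := hp
  have hdeg := st6_deg h v
  obtain ⟨e₀, he₀⟩ := Finset.card_pos.mp (by omega : 0 < (Finset.univ.filter fun e => s e = v ∨ t e = v).card)
  have : Nonempty D := ⟨l e₀⟩
  obtain ⟨J, hJA, hJc, d', d'', hJd⟩ := exists_trail (Finset.univ.filter fun e => s e = v ∨ t e = v)
    (tl s l r v) (hd s l r v) (bal s t h l r hdu v) 3 (by omega)
  have hJ : ∀ e ∈ J, s e = v ∨ t e = v := fun e he => by simpa using hJA he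
  have hP1 : Pl (ae (some v) (spl v J s)) (ae none (spl v J t)) :=
    ⟨D, hD, _, _, du_split s t h l r hdu v J hJ d' d'' hJd⟩
  have hP2 : Pl (ae (some v) (ae (some v) (spl v J s))) (ae none (ae none (spl v J t))) :=
    pl_dbl _ _ _ _ hP1
  have hP3 : Pl (spl v J s) (spl v J t) := pl_sub _ _ some (Option.some_injective E) hP1
  set s₁ := spl v J s with hs₁
  set t₁ := spl v J t with ht₁
  have hLL : LL s₁ t₁ := LL_spl h v J
  have hne : (some v : Option V) ≠ none := by simp
  have hn : deg s₁ t₁ none = 3 := by rw [hs₁, ht₁, deg_spl_none h v J hJ, hJc]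
  have hv1 : deg s₁ t₁ (some v) + 3 = deg s t v := by
    have := deg_spl_self h v J hJ
    rwa [hJc] at this
  have hw : ∀ w, w ≠ v → deg s₁ t₁ (some w) = deg s t w := fun w hw =>
    deg_spl_other s t v w hw J
  have f1 : Sp PPhi4 (ns (ae (some v) (ae (some v) s₁)) (ae none (ae none t₁))) := by
    refine IH _ _ _ _ (LL_ae (LL_ae hLL hne) hne) hP2 ?_
    rw [st6_wt_option _ _ v, st6_wt s t v]
    have e1 : ∑ u ∈ Finset.univ.erase v,
        (2 * deg (ae (some v) (ae (some v) s₁)) (ae none (ae none t₁)) (some u) - 9) =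
        ∑ u ∈ Finset.univ.erase v, (2 * deg s t u - 9) := by
      refine Finset.sum_congr rfl fun u hu => ?_
      have hu' := Finset.ne_of_mem_erase hu
      rw [deg_ae, deg_ae, hw u hu']
      simp [hu']
    rw [e1]
    have e2 : deg (ae (some v) (ae (some v) s₁)) (ae none (ae none t₁)) none = 5 := by
      rw [deg_ae, deg_ae, hn]; simp
    have e3 : deg (ae (some v) (ae (some v) s₁)) (ae none (ae none t₁)) (some v) =
        deg s₁ t₁ (some v) + 2 := by
      rw [deg_ae, deg_ae]; simp
    rw [e2, e3]
    omega
  have f2 : Sp PPhi4 (ns s₁ t₁) := by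
    refine IH _ _ _ _ hLL hP3 ?_
    rw [st6_wt_option _ _ v, st6_wt s t v]
    have e1 : ∑ u ∈ Finset.univ.erase v, (2 * deg s₁ t₁ (some u) - 9) =
        ∑ u ∈ Finset.univ.erase v, (2 * deg s t u - 9) := by
      refine Finset.sum_congr rfl fun u hu => ?_
      rw [hw u (Finset.ne_of_mem_erase hu)]
    rw [e1, hn]
    omega
  have f3 : Sp PPhi4 (ns (ae (some v) s₁) (ae none t₁)) := by
    refine IH _ _ _ _ (LL_ae hLL hne) hP1 ?_
    rw [st6_wt_option _ _ v, st6_wt s t v]
    have e1 : ∑ u ∈ Finset.univ.erase v,
        (2 * deg (ae (some v) s₁) (ae none t₁) (some u) - 9) =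
        ∑ u ∈ Finset.univ.erase v, (2 * deg s t u - 9) := by
      refine Finset.sum_congr rfl fun u hu => ?_
      have hu' := Finset.ne_of_mem_erase hu
      rw [deg_ae, hw u hu']
      simp [hu']
    rw [e1]
    have e2 : deg (ae (some v) s₁) (ae none t₁) none = 4 := by
      rw [deg_ae, hn]; simp
    have e3 : deg (ae (some v) s₁) (ae none t₁) (some v) = deg s₁ t₁ (some v) + 1 := by
      rw [deg_ae]; simp
    rw [e2, e3]
    omega
  refine Sp.div Polynomial.X Polynomial.monic_X ?_
  refine Sp.congr ?_ (((f1.sub (f2.mulp (Polynomial.X - 1))).sub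
    (f3.mulp (Polynomial.X - 2))).sub (Sp.pol (Polynomial.X ^ Fintype.card E)))
  intro F
  have : Fintype F.K := Fintype.ofFinite _
  have key := L1G (K := F.K) s₁ t₁ (some v) none hne (fold v) (fold_surj v) (fold_ker v)
  rw [hs₁, ht₁, fold_spl, fold_spl, ← st6_q, ← hs₁, ← ht₁] at key
  simp only [Polynomial.eval_sub, Polynomial.eval_X, Polynomial.eval_one, Polynomial.eval_pow,
    Polynomial.eval_ofNat, ns]
  linarith

/-- MODULE ST5.  A vertex `v` of degree `5` with an edge to `u` and two further consecutive edges: planar version of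
`KG.step5`.

Proof.  `l`, `r`, `d`, `J` as in `duN_three`: the graph `(s₁, t₁) = (spl v J s, spl v J t)` with the terminals `some u`, `none`,
`some v` satisfies `DuN`, so `pl_f11` with `a = some v`, `b = none`, `c = some u` gives the planarity of the graph `f11`, and
`pl_f10`, …, `pl_f2`, `pl_f4` that of `f10`, …, `f2` and of `(s₁, t₁)` itself (`f4`).  `(s, t)` (`f0`) is planar by `pl_sub` with
`ι = some` from the given graph.  Then copy the proof of `KG.step5` with this `J` (there `J` comes from `exists_J`; only
`J.card = 2` and `hJ` are used). -/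
theorem pstep5 {V E D : Type} [Fintype V] [Fintype E] [Finite D] (s t : E → V) (u v : V)
    (h : LL (ae v s) (ae u t)) (hv : deg (ae v s) (ae u t) v = 5) (l r : Option E → D)
    (hdu : Du (ae v s) (ae u t) l r) (J : Finset E) (hJc : J.card = 2) (hJ : ∀ e ∈ J, s e = v ∨ t e = v) (d : D)
    (hJd : ∀ φ : D → ℚ, ∑ e ∈ J, (φ (hd s (l ∘ some) (r ∘ some) v e) - φ (tl s (l ∘ some) (r ∘ some) v e)) =
      φ d - φ (l none))
    (IH : ∀ (V' E' : Type) [Fintype V'] [Fintype E'] (s' t' : E' → V'), LL s' t' → Pl s' t' →
      wt s' t' < wt (ae v s) (ae u t) → Sp PPhi4 (ns s' t')) :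
    Sp PPhi4 (ns (ae v s) (ae u t)) := by
  classical
  have hst : LL s t := fun e => h (some e)
  have hvu : v ≠ u := h none
  have hG : ∀ w, deg (ae v s) (ae u t) w = deg s t w + (if w = v then 1 else 0) +
      (if w = u then 1 else 0) := fun w => deg_ae s t v u w
  have hsv : deg s t v = 4 := by
    have := hG v
    rw [hv, if_pos rfl, if_neg hvu] at this
    omega
  have hB : Pl (starS (some (some v)) (some none) (starS (some v) none (spl v J s)))
      (starT none (starT (some u) (spl v J t))) :=
    pl_f11 _ _ _ _ _ ⟨D, inferInstance, _, _, _, duN_three s t u v h l r hdu J hJ d hJd⟩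
  have hP0 : Pl s t := pl_sub (ae v s) (ae u t) some (Option.some_injective E)
    ⟨D, inferInstance, l, r, hdu⟩
  set s₁ := spl v J s with hs₁
  set t₁ := spl v J t with ht₁
  have hLL : LL s₁ t₁ := LL_spl hst v J
  have hab : (some v : Option V) ≠ none := by simp
  have hac : (some v : Option V) ≠ some u := by simpa using hvu
  have hbc : (none : Option V) ≠ some u := by simp
  have hn : deg s₁ t₁ none = 2 := by rw [hs₁, ht₁, deg_spl_none hst v J hJ, hJc]
  have hv1 : deg s₁ t₁ (some v) = 2 := by
    have := deg_spl_self hst v J hJ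
    rw [hJc, hsv] at this
    rw [hs₁, ht₁]
    omega
  have hw : ∀ w, w ≠ v → deg s₁ t₁ (some w) = deg s t w := fun w hw =>
    deg_spl_other s t v w hw J
  have hGw : ∀ w, w ≠ v → deg (ae v s) (ae u t) w = deg s t w + (if w = u then 1 else 0) := by
    intro w hw'
    rw [hG, if_neg hw']
    omega
  have f0 : Sp PPhi4 (ns s t) := by
    refine IH _ _ _ _ hst hP0 (wt_lt _ _ _ _ v hv.ge id fun w => ?_)
    by_cases hwv : w = v
    · left; rw [hwv, hsv]
    · right; exact ⟨w, hwv, rfl, by rw [hGw w hwv]; omega⟩
  have f2 : Sp PPhi4 (ns (ae (some v) s₁) (ae (some u) t₁)) := by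
    refine IH _ _ _ _ (LL_ae hLL hac) (pl_f2 _ _ _ _ _ hB) (wt_lt _ _ _ _ v hv.ge some fun w => ?_)
    rcases w with _ | w
    · left; rw [deg_ae, hn]; simp
    · by_cases hwv : w = v
      · left; rw [hwv, deg_ae, hv1]; simp [hvu]
      · right; refine ⟨w, hwv, rfl, ?_⟩
        rw [hGw w hwv, deg_ae, hw w hwv]; simp [hwv]
  have f3 : Sp PPhi4 (ns (ae none s₁) (ae (some u) t₁)) := by
    refine IH _ _ _ _ (LL_ae hLL hbc) (pl_f3 _ _ _ _ _ hB) (wt_lt _ _ _ _ v hv.ge some fun w => ?_)
    rcases w with _ | w
    · left; rw [deg_ae, hn]; simp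
    · by_cases hwv : w = v
      · left; rw [hwv, deg_ae, hv1]; simp [hvu]
      · right; refine ⟨w, hwv, rfl, ?_⟩
        rw [hGw w hwv, deg_ae, hw w hwv]; simp
  have f4 : Sp PPhi4 (ns s₁ t₁) := by
    refine IH _ _ _ _ hLL (pl_f4 _ _ _ _ _ hB) (wt_lt _ _ _ _ v hv.ge some fun w => ?_)
    rcases w with _ | w
    · left; rw [hn]; omega
    · by_cases hwv : w = v
      · left; rw [hwv, hv1]; omega
      · right; refine ⟨w, hwv, rfl, ?_⟩
        rw [hGw w hwv, hw w hwv]; omega
  have f5 : Sp PPhi4 (ns (ae (some v) (ae (some v) s₁)) (ae none (ae (some u) t₁))) := by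
    refine IH _ _ _ _ (LL_ae (LL_ae hLL hac) hab) (pl_f5 _ _ _ _ _ hB) (wt_lt _ _ _ _ v hv.ge some fun w => ?_)
    rcases w with _ | w
    · left; rw [deg_ae, deg_ae, hn]; simp
    · by_cases hwv : w = v
      · left; rw [hwv, deg_ae, deg_ae, hv1]; simp [hvu]
      · right; refine ⟨w, hwv, rfl, ?_⟩
        rw [hGw w hwv, deg_ae, deg_ae, hw w hwv]; simp [hwv]
  have f6 : Sp PPhi4 (ns (ae (some v) (ae none s₁)) (ae none (ae (some u) t₁))) := by
    refine IH _ _ _ _ (LL_ae (LL_ae hLL hbc) hab) (pl_f6 _ _ _ _ _ hB) (wt_lt _ _ _ _ v hv.ge some fun w => ?_)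
    rcases w with _ | w
    · left; rw [deg_ae, deg_ae, hn]; simp
    · by_cases hwv : w = v
      · left; rw [hwv, deg_ae, deg_ae, hv1]; simp [hvu]
      · right; refine ⟨w, hwv, rfl, ?_⟩
        rw [hGw w hwv, deg_ae, deg_ae, hw w hwv]; simp [hwv]
  have f7 : Sp PPhi4 (ns (ae (some v) s₁) (ae none t₁)) := by
    refine IH _ _ _ _ (LL_ae hLL hab) (pl_f7 _ _ _ _ _ hB) (wt_lt _ _ _ _ v hv.ge some fun w => ?_)
    rcases w with _ | w
    · left; rw [deg_ae, hn]; simp
    · by_cases hwv : w = v
      · left; rw [hwv, deg_ae, hv1]; simp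
      · right; refine ⟨w, hwv, rfl, ?_⟩
        rw [hGw w hwv, deg_ae, hw w hwv]; simp [hwv]
  have f8 : Sp PPhi4 (ns (starS (some v) none s₁) (starT (some u) t₁)) := by
    refine IH _ _ _ _ (LL_star hLL _ _ _) (pl_f8 _ _ _ _ _ hB) (wt_lt _ _ _ _ v hv.ge (fun w => some (some w))
      fun w => ?_)
    rcases w with _ | w
    · left; rw [deg_star_none]; omega
    · rcases w with _ | w
      · left; rw [deg_star_some, hn]; simp
      · by_cases hwv : w = v
        · left; rw [hwv, deg_star_some, hv1]; simp [hvu]
        · right; refine ⟨w, hwv, rfl, ?_⟩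
          rw [hGw w hwv, deg_star_some, hw w hwv]; simp [hwv]
  have f9 : Sp PPhi4 (ns (starS (some v) none (ae (some v) s₁)) (starT (some u) (ae none t₁))) := by
    refine IH _ _ _ _ (LL_star (LL_ae hLL hab) _ _ _) (pl_f9 _ _ _ _ _ hB)
      (wt_lt _ _ _ _ v hv.ge (fun w => some (some w)) fun w => ?_)
    rcases w with _ | w
    · left; rw [deg_star_none]; omega
    · rcases w with _ | w
      · left; rw [deg_star_some, deg_ae, hn]; simp
      · by_cases hwv : w = v
        · left; rw [hwv, deg_star_some, deg_ae, hv1]; simp [hvu]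
        · right; refine ⟨w, hwv, rfl, ?_⟩
          rw [hGw w hwv, deg_star_some, deg_ae, hw w hwv]; simp [hwv]
  have f10 : Sp PPhi4 (ns (starS (some (some v)) (some none)
      (ae (some (some v)) (ae none fun e => some (s₁ e))))
      (starT none (ae none (ae (some (some u)) fun e => some (t₁ e))))) := by
    refine IH _ _ _ _ (LL_star (LL_ae (LL_ae (LL_some hLL) (by simp)) (by simp)) _ _ _)
      (pl_f10 _ _ _ _ _ hB)
      (wt_lt _ _ _ _ v hv.ge (fun w => some (some (some w))) fun w => ?_)
    rcases w with _ | w
    · left; rw [deg_star_none]; omega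
    · rcases w with _ | w
      · left; rw [deg_star_some, deg_ae, deg_ae, deg_none]; simp
      · rcases w with _ | w
        · left; rw [deg_star_some, deg_ae, deg_ae, deg_some, hn]; simp
        · by_cases hwv : w = v
          · left; rw [hwv, deg_star_some, deg_ae, deg_ae, deg_some, hv1]; simp [hvu]
          · right; refine ⟨w, hwv, rfl, ?_⟩
            rw [hGw w hwv, deg_star_some, deg_ae, deg_ae, deg_some, hw w hwv]; simp [hwv]
  have f11 : Sp PPhi4 (ns (starS (some (some v)) (some none) (starS (some v) none s₁))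
      (starT none (starT (some u) t₁))) := by
    refine IH _ _ _ _ (LL_star (LL_star hLL _ _ _) _ _ _) hB
      (wt_lt _ _ _ _ v hv.ge (fun w => some (some (some w))) fun w => ?_)
    rcases w with _ | w
    · left; rw [deg_star_none]; omega
    · rcases w with _ | w
      · left; rw [deg_star_some, deg_star_none]; simp
      · rcases w with _ | w
        · left; rw [deg_star_some, deg_star_some, hn]; simp
        · by_cases hwv : w = v
          · left; rw [hwv, deg_star_some, deg_star_some, hv1]; simp [hvu]
          · right; refine ⟨w, hwv, rfl, ?_⟩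
            rw [hGw w hwv, deg_star_some, deg_star_some, hw w hwv]; simp [hwv]
  have hmon : (Polynomial.X ^ 2 * (Polynomial.X - 2) : Polynomial ℤ).Monic := by
    have h1 : (Polynomial.X - 2 : Polynomial ℤ) = Polynomial.X - Polynomial.C 2 := by simp
    rw [h1]
    exact (Polynomial.monic_X_pow 2).mul (Polynomial.monic_X_sub_C 2)
  refine Sp.div (Polynomial.X ^ 2 * (Polynomial.X - 2)) hmon ?_
  refine Sp.congr ?_ (((((((((((f0.mulp (Polynomial.X ^ 2)).sub
    ((f2.add f3).mulp (Polynomial.X * (Polynomial.X - 1) ^ 2))).sub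
    (f4.mulp (Polynomial.X * (Polynomial.X - 1) ^ 2))).sub
    (f5.mulp (Polynomial.X ^ 2))).sub
    (f6.mulp (Polynomial.X * (Polynomial.X ^ 2 - 2 * Polynomial.X + 2)))).sub
    (f7.mulp Polynomial.X)).sub
    (f8.mulp (Polynomial.X ^ 2 - 3 * Polynomial.X + 1))).sub f9).sub
    (f10.mulp (Polynomial.X - 2))).add f11).sub
    (Sp.pol ((2 * Polynomial.X ^ 3 - Polynomial.X) * Polynomial.X ^ Fintype.card E)))
  intro F
  have : Fintype F.K := Fintype.ofFinite _
  have key := L2G (K := F.K) s₁ t₁ (some v) none (some u) hab hac hbc (fold v) (fold_surj v)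
    (fold_ker v)
  have e1 : fold v ∘ s₁ = s := fold_spl v J s
  have e2 : fold v ∘ t₁ = t := fold_spl v J t
  rw [e1, e2, ← st6_q] at key
  have e3 : fold v (some v) = v := rfl
  have e4 : fold v (some u) = u := rfl
  rw [e3, e4] at key
  simp only [Polynomial.eval_sub, Polynomial.eval_add, Polynomial.eval_mul, Polynomial.eval_X,
    Polynomial.eval_one, Polynomial.eval_pow, Polynomial.eval_ofNat, ns]
  linarith

private theorem s5r_deg_sum {V E : Type} [Fintype E] [DecidableEq V] (s t : E → V) (v : V) :
    deg s t v = ∑ e, ((if s e = v then 1 else 0) + (if t e = v then 1 else 0)) := by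
  have key : ∀ r : E → V, {e | r e = v}.ncard = ∑ e, (if r e = v then 1 else 0) := by
    intro r
    rw [← Finset.card_filter, ← Set.ncard_coe_finset]
    congr 1
    ext e
    simp
  unfold deg
  rw [key, key, Finset.sum_add_distrib]

/-- MODULE S5R.  A vertex of degree `5`.

Proof.  Let `l`, `r` be a dual graph, `A` the set of the five edges at `v`, balanced by `bal`; `trail3`.
First case (`J` with two elements, closed): `bridge_split`; the new graph has no loops (`LL_ae`, `LL_spl`), degree `3` at `none`,
`4` at `some v`, `deg s t u` at `some u` (`u ≠ v`), so its weight is smaller (`KG.wt_lt` with `ι = some`); `IH` and division by `X`.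
Second case (`e0`, `e1`, `e2`): make `e0` the first edge: `E ≃ Option {e // e ≠ e0}`, turned round if necessary so that it goes from `v`
to `u` (see the proof of `KG.step5'`); then the faces of `e0` are also exchanged: the dual graph of `(ae v S, ae u T)` is
`l' = ae (hd s l r v e0) (l ∘ Subtype.val)`, `r' = ae (tl s l r v e0) (r ∘ Subtype.val)` (prove `Du` directly: a current `x'` of the new
graph corresponds to the current of `s`, `t` with value `± x' none` at `e0`).  Let `J = {e1, e2}` (as a set of elements of
`{e // e ≠ e0}`), `d = hd s l r v e2`: the sum of `φ (hd e) - φ (tl e)` over `J` is `φ (hd e2) - φ (tl e1) = φ d - φ (hd e0)`, as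
`hd e1 = tl e2`, `hd e0 = tl e1`; and `l' none = hd e0`.  `pstep5`; weight, degrees and `ns` are those of `s`, `t` as in `KG.step5'`. -/
theorem pstep5' {V E : Type} [Fintype V] [Fintype E] (s t : E → V) (h : LL s t) (hp : Pl s t) (v : V)
    (hv : deg s t v = 5)
    (IH : ∀ (V' E' : Type) [Fintype V'] [Fintype E'] (s' t' : E' → V'), LL s' t' → Pl s' t' →
      wt s' t' < wt s t → Sp PPhi4 (ns s' t')) :
    Sp PPhi4 (ns s t) := by
  classical
  obtain ⟨D, hD, l, r, hdu⟩ := hp
  have hdeg0 := st6_deg h v
  have hAv : ∀ e ∈ Finset.univ.filter (fun e => s e = v ∨ t e = v), s e = v ∨ t e = v :=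
    fun e he => by simpa using he
  rcases trail3 (Finset.univ.filter fun e => s e = v ∨ t e = v) (tl s l r v) (hd s l r v)
    (bal s t h l r hdu v) (by omega) with ⟨J, hJA, hJc, hJd⟩ |
      ⟨e₀, h0, e1, h1, e2, h2, h01, h02, h12, q0, q1⟩
  · have hJ : ∀ e ∈ J, s e = v ∨ t e = v := fun e he => hAv e (hJA he)
    obtain ⟨hP, hns⟩ := bridge_split s t h l r hdu v J hJ hJc hJd
    have hLL : LL (spl v J s) (spl v J t) := LL_spl h v J
    have hf : Sp PPhi4 (ns (ae (some v) (spl v J s)) (ae none (spl v J t))) := by
      refine IH _ _ _ _ (LL_ae hLL (by simp)) hP (wt_lt _ _ _ _ v hv.ge some fun w => ?_)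
      rcases w with _ | w
      · left; rw [deg_ae, deg_spl_none h v J hJ, hJc]; simp
      · by_cases hwv : w = v
        · left
          have h3 := deg_spl_self h v J hJ
          have h4 : deg (ae (some v) (spl v J s)) (ae none (spl v J t)) (some v) =
              deg (spl v J s) (spl v J t) (some v) + 1 := by rw [deg_ae]; simp
          rw [hwv, h4]
          omega
        · right; refine ⟨w, hwv, rfl, ?_⟩
          rw [deg_ae, deg_spl_other s t v w hwv J]; simp [hwv]
    refine Sp.div Polynomial.X Polynomial.monic_X (Sp.congr (fun F => ?_) hf)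
    rw [Polynomial.eval_X]
    exact hns F
  · have hinc := hAv e₀ h0
    obtain ⟨u, hu⟩ : ∃ u : V, u = if s e₀ = v then t e₀ else s e₀ := ⟨_, rfl⟩
    -- the graph with the first edge from `v` to `u`
    set S : {e // e ≠ e₀} → V := fun e => s e with hS
    set T : {e // e ≠ e₀} → V := fun e => t e with hT
    let g : Option {e // e ≠ e₀} ≃ E := Equiv.optionSubtypeNe e₀
    have hg0 : g none = e₀ := Equiv.optionSubtypeNe_none e₀
    have hg1 : ∀ e : {e // e ≠ e₀}, g (some e) = e := fun e => Equiv.optionSubtypeNe_some e₀ e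
    have hends : ∀ o : Option {e // e ≠ e₀},
        (s (g o) = ae v S o ∧ t (g o) = ae u T o) ∨ (s (g o) = ae u T o ∧ t (g o) = ae v S o) := by
      intro o
      rcases o with _ | e
      · rw [hg0]
        show (s e₀ = v ∧ t e₀ = u) ∨ (s e₀ = u ∧ t e₀ = v)
        by_cases h1 : s e₀ = v
        · left; exact ⟨h1, by rw [hu, if_pos h1]⟩
        · right; exact ⟨by rw [hu, if_neg h1], hinc.resolve_left h1⟩
      · rw [hg1]
        left; exact ⟨rfl, rfl⟩
    have hns : ns (ae v S) (ae u T) = ns s t := by
      have h1 : ns (s ∘ g) (t ∘ g) = ns s t :=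
        ns_iso (Equiv.refl V) g.symm s t (s ∘ g) (t ∘ g) (fun e => by simp) (fun e => by simp)
      rw [← h1]
      exact (ns_flip (ae v S) (ae u T) (s ∘ g) (t ∘ g) hends).symm
    have hdeg : ∀ w, deg (ae v S) (ae u T) w = deg s t w := by
      intro w
      rw [s5r_deg_sum, s5r_deg_sum, ← Equiv.sum_comp g]
      refine Finset.sum_congr rfl fun o _ => ?_
      rcases hends o with ⟨h1, h2⟩ | ⟨h1, h2⟩
      · rw [h1, h2]
      · rw [h1, h2, add_comm]
    have hwt : wt (ae v S) (ae u T) = wt s t := by
      unfold wt
      exact Finset.sum_congr rfl fun w _ => by rw [hdeg]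
    have hLL : LL (ae v S) (ae u T) := by
      intro o
      have h1 := h (g o)
      rcases hends o with ⟨h2, h3⟩ | ⟨h2, h3⟩
      · rw [← h2, ← h3]; exact h1
      · rw [← h2, ← h3]; exact h1.symm
    -- the dual graph
    have hdu' : Du (ae v S) (ae u T) (ae (hd s l r v e₀) fun e : {e // e ≠ e₀} => l e)
        (ae (tl s l r v e₀) fun e : {e // e ≠ e₀} => r e) := by
      intro x'
      obtain ⟨x, hx⟩ : ∃ x : E → ℚ, ∀ o, x (g o) =
          o.elim (if s e₀ = v then x' none else - x' none) fun e => x' (some e) := by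
        refine ⟨fun e => (g.symm e).elim (if s e₀ = v then x' none else - x' none)
          fun e => x' (some e), fun o => ?_⟩
        simp only [Equiv.symm_apply_apply]
      have hx0 : x e₀ = if s e₀ = v then x' none else - x' none := by
        have := hx none
        rwa [hg0] at this
      have hx1 : ∀ e : {e // e ≠ e₀}, x e = x' (some e) := by
        intro e
        have := hx (some e)
        rwa [hg1] at this
      have hnet : ∀ w, net (ae v S) (ae u T) x' w = net s t x w := by
        intro w
        rw [net_ic, net_ic, ← Equiv.sum_comp g]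
        refine Finset.sum_congr rfl fun o _ => ?_
        rcases o with _ | e
        · rw [hg0, hx0]
          by_cases h1 : s e₀ = v
          · have h2 : t e₀ = u := by rw [hu, if_pos h1]
            rw [if_pos h1]
            have h3 : PLN.ic (ae v S) (ae u T) none w = PLN.ic s t e₀ w := by
              unfold PLN.ic
              rw [h1, h2]
              rfl
            rw [h3]
          · have h2 : s e₀ = u := by rw [hu, if_neg h1]
            have h4 : t e₀ = v := hinc.resolve_left h1
            rw [if_neg h1]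
            have h3 : PLN.ic (ae v S) (ae u T) none w = - PLN.ic s t e₀ w := by
              unfold PLN.ic
              rw [h4, h2]
              show _ = - (_ - _)
              rw [neg_sub]
              rfl
            rw [h3]
            push_cast
            ring
        · rw [hg1, hx1]
          rfl
      simp only [hnet]
      rw [hdu x]
      refine exists_congr fun φ => ?_
      constructor
      · intro h3 o
        rcases o with _ | e
        · have h4 := h3 e₀
          rw [hx0] at h4
          show x' none = φ (hd s l r v e₀) - φ (tl s l r v e₀)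
          unfold hd tl
          by_cases h1 : s e₀ = v
          · rw [if_pos h1] at h4 ⊢
            rw [if_pos h1]
            exact h4
          · rw [if_neg h1] at h4 ⊢
            rw [if_neg h1]
            linarith
        · have h4 := h3 e
          rw [hx1] at h4
          exact h4
      · intro h3 e
        obtain ⟨o, rfl⟩ := g.surjective e
        rcases o with _ | e
        · rw [hg0, hx0]
          have h4 : x' none = φ (hd s l r v e₀) - φ (tl s l r v e₀) := h3 none
          unfold hd tl at h4
          by_cases h1 : s e₀ = v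
          · rw [if_pos h1, if_pos h1] at h4
            rw [if_pos h1]
            exact h4
          · rw [if_neg h1, if_neg h1] at h4
            rw [if_neg h1]
            linarith
        · rw [hg1, hx1]
          exact h3 (some e)
    have h10 : e1 ≠ e₀ := h01.symm
    have h20 : e2 ≠ e₀ := h02.symm
    have hne : (⟨e1, h10⟩ : {e // e ≠ e₀}) ≠ ⟨e2, h20⟩ := fun h3 => h12 (congrArg Subtype.val h3)
    have hstep := pstep5 S T u v hLL (by rw [hdeg, hv]) _ _ hdu'
      ({⟨e1, h10⟩, ⟨e2, h20⟩} : Finset {e // e ≠ e₀}) (Finset.card_pair hne) (by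
        intro e he
        rw [Finset.mem_insert, Finset.mem_singleton] at he
        rcases he with rfl | rfl
        · exact hAv e1 h1
        · exact hAv e2 h2) (hd s l r v e2) (by
        intro φ
        rw [Finset.sum_pair hne]
        show (φ (hd s l r v e1) - φ (tl s l r v e1)) + (φ (hd s l r v e2) - φ (tl s l r v e2)) =
          φ (hd s l r v e2) - φ (hd s l r v e₀)
        rw [q0, q1]
        ring) (by
        intro V' E' _ _ s' t' hL' hp' hw'
        exact IH V' E' s' t' hL' hp' (by rwa [hwt] at hw'))
    rwa [hns] at hstep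

/-- MODULE PIN (1).  Planar version of `KG.phi4_of_LL`; all degrees at most four: `Sp.base`. -/
theorem pphi4_of_LL {V E : Type} [Fintype V] [Fintype E] (s t : E → V) (h : LL s t) (hp : Pl s t) :
    Sp PPhi4 (ns s t) := by
  have key : ∀ (n : ℕ) (V E : Type) [Fintype V] [Fintype E] (s t : E → V), LL s t → Pl s t → wt s t = n →
      Sp PPhi4 (ns s t) := by
    intro n
    induction n using Nat.strong_induction_on with
    | _ n ih =>
      intro V E _ _ s t h hp hn
      have IH : ∀ (V' E' : Type) [Fintype V'] [Fintype E'] (s' t' : E' → V'), LL s' t' → Pl s' t' →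
          wt s' t' < wt s t → Sp PPhi4 (ns s' t') := fun V' E' _ _ s' t' h' hp' hlt =>
        ih _ (hn ▸ hlt) V' E' s' t' h' hp' rfl
      by_cases h6 : ∃ v, 6 ≤ deg s t v
      · obtain ⟨v, hv⟩ := h6
        exact pstep6 s t h hp v hv IH
      · push Not at h6
        by_cases h5 : ∃ v, deg s t v = 5
        · obtain ⟨v, hv⟩ := h5
          exact pstep5' s t h hp v hv IH
        · push Not at h5
          refine Sp.base ⟨V, E, inferInstance, inferInstance, s, t, fun v => ?_, hp, rfl⟩
          have h7 := h6 v
          have h8 := h5 v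
          omega
  exact key _ V E s t h hp rfl

/-- MODULE PIN (2).  Planar version of `KG.phi4_all`; `pl_sub` with `ι = Subtype.val` for the graph without the loop. -/
theorem pphi4_all {V E : Type} [Fintype V] [Fintype E] (s t : E → V) (hp : Pl s t) : Sp PPhi4 (ns s t) := by
  classical
  have key : ∀ (n : ℕ) (V E : Type) [Fintype V] [Fintype E] (s t : E → V), Pl s t → Fintype.card E = n →
      Sp PPhi4 (ns s t) := by
    intro n
    induction n using Nat.strong_induction_on with
    | _ n ih =>
      intro V E _ _ s t hp hn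
      by_cases h : LL s t
      · exact pphi4_of_LL s t h hp
      · unfold LL at h
        push Not at h
        obtain ⟨e₀, he⟩ := h
        have e1 : ns s t = ns (ae (s e₀) fun e : {e // e ≠ e₀} => s e)
            (ae (s e₀) fun e : {e // e ≠ e₀} => t e) := by
          refine ns_iso (Equiv.refl V) (Equiv.optionSubtypeNe e₀) _ _ s t ?_ ?_
          · rintro (_ | e) <;> rfl
          · rintro (_ | e)
            · exact he.symm
            · rfl
        have hc : Fintype.card {e // e ≠ e₀} < n := by
          rw [← hn]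
          exact Fintype.card_subtype_lt (x := e₀) (fun h => h rfl)
        have hp1 : Pl (fun e : {e // e ≠ e₀} => s e) (fun e : {e // e ≠ e₀} => t e) :=
          pl_sub s t Subtype.val Subtype.val_injective hp
        have h1 := ih _ hc V {e // e ≠ e₀} (fun e => s e) (fun e => t e) hp1 rfl
        rw [e1]
        refine Sp.congr (fun F => ?_) (Sp.add
          (Sp.mulp (Polynomial.X - 1) h1)
          (Sp.mulp (Polynomial.X ^ Fintype.card {e // e ≠ e₀}) Sp.one))
        have : Fintype F.K := Fintype.ofFinite _
        have h2 := NS_loop (K := F.K) (fun e : {e // e ≠ e₀} => s e) (fun e => t e) (s e₀)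
        have h3 : F.q = (Fintype.card F.K : ℤ) := by
          unfold FinField.q
          rw [Nat.card_eq_fintype_card]
        simp only [ns, Polynomial.eval_sub, Polynomial.eval_X, Polynomial.eval_one,
          Polynomial.eval_pow, mul_one]
        rw [h2, h3]
  exact key _ V E s t hp rfl

end Pool.Agent.PL3
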