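import Pool.Agent.PL3.Port
import Pool.Agent.PL3.Step
import Pool.Agent.PL3.Reg
import Pool.Agent.PL3.PWord
import Pool.Agent.PLN.PFinal

/-!
# Scheme counts are approximated by counts of the hypersurfaces of planar cubic graphs, both graph polynomials
-/

set_option autoImplicit false

open scoped BigOperators

namespace Pool.Agent.PL3

open Pool.Agent.KG Pool.Agent.P3 Pool.Agent.KGU Pool.Agent.HGC Pool.Agent.HGM Pool.Agent.GPM Pool.Agent.PLN

/-- The number of points of the graph hypersurface of a planar cubic graph: the zeros of the first Symanzik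
polynomial (`b = true`) or of the Kirchhoff polynomial (`b = false`). -/
noncomputable def pcount (b : Bool) (G : PlanarCubic) : PF := countPF fun K _ => NG b G.s G.t K

/-- The Kirchhoff polynomial of a planar cubic graph is the Symanzik polynomial of its dual graph, and this is
planar; its number of zeros is a combination of the numbers of zeros of the Symanzik polynomials of planar
cubic graphs. -/
theorem planar_ns (G : PlanarCubic) : Sp PReg3S (nk G.s G.t) := by
  rw [nk_eq_ns G.s G.t G.l G.r G.dual G.conn]
  have hp : Pl G.l G.r := ⟨Fin G.n, inferInstance, G.s, G.t, du_of_dual G.s G.t G.l G.r G.dual G.conn⟩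
  have h1 : Sp (PGm 0) (ns G.l G.r) := Sp.mono (fun g hg => pgm_of_pphi4 wdp_C0 hg) (pphi4_all G.l G.r hp)
  refine Sp.mono ?_ h1
  rintro f ⟨V, E, _, _, s, t, hl, hd, hc, hpl, rfl⟩
  refine preg_mem s t (fun v => ?_) hpl
  have h2 : {v | deg s t v = 4} = ∅ := by
    rw [← Set.ncard_eq_zero (Set.toFinite _)]
    omega
  have h3 : deg s t v ≠ 4 := fun h => by
    have : v ∈ {v | deg s t v = 4} := h
    rw [h2] at this
    exact this
  have := hd v
  omega

theorem bd_pcount (G : PlanarCubic) : Bd (pcount true G) := bd_of_le _ fun K _ _ => NS_le G.s G.t K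

theorem hg_planar2 (b : Bool) (n m : ℕ) (P : Fin m → MvPolynomial (Fin n) ℤ) :
    InB (fam (pcount b)) (tr (countPF (affCount P))) := by
  cases b with
  | false => exact hg_planar n m P
  | true =>
    refine InB.congr (fun p r _ => ?_) (inB_of_sp' bd_pcount ?_ (aff_phi4 P))
    · by_cases hp : p ∈ Bad
      · rw [tr_bad _ hp, tr_bad _ hp]
      · rw [tr_good _ hp, tr_good _ hp]
        exact toPF_aff P p r
    · rintro f ⟨n, m, s, t, -, rfl⟩
      refine InB.congr (fun p r _ => tr_toPF (ns s t) p r) (inB_of_spF bd_pcount ?_ (ns_planar s t))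
      rintro f ⟨G, rfl⟩
      refine InB.congr (fun p r _ => (tr_toPF (nk G.s G.t) p r).symm) (inB_of_sp' bd_pcount ?_ (planar_ns G))
      rintro f ⟨G', rfl⟩
      refine (InB.base (g := fam (pcount true)) (some G')).congr fun p r _ => ?_
      show tr (pcount true G') p r = _
      by_cases hp : p ∈ Bad
      · rw [tr_bad _ hp, tr_bad _ hp]
      · rw [tr_good _ hp, tr_good _ hp]
        simp only [toPF, pcount, countPF, ns, NG_true]
        push_cast
        rfl

end Pool.Agent.PL3
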