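import Pool.Agent.PL3.Lin

/-!
# Planarity: minors, splitting, doubling, bridges
-/

set_option autoImplicit false

open scoped BigOperators

namespace Pool.Agent.PL3

open Pool.Agent.KG Pool.Agent.P3

private theorem SUB_ext {V E E' : Type} [Fintype E] [Fintype E'] (s t : E → V) (ι : E' → E)
    (hι : Function.Injective ι) (x : E → ℚ) (h0 : ∀ e, e ∉ Set.range ι → x e = 0) (v : V) :
    net (s ∘ ι) (t ∘ ι) (x ∘ ι) v = net s t x v := by
  unfold net
  congr 1
  · refine Fintype.sum_of_injective ι hι _ _ (fun e he => ?_) (fun e => rfl)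
    rw [h0 e he, ite_self]
  · refine Fintype.sum_of_injective ι hι _ _ (fun e he => ?_) (fun e => rfl)
    rw [h0 e he, ite_self]

/-- MODULE SUB.  Subgraphs, and renumbering of the edges.

Proof.  Let `l`, `r : E → D` be the dual graph, `R a b := ∃ e, e ∉ Set.range ι ∧ l e = a ∧ r e = b`, `D' = Quot R`,
`l' = Quot.mk R ∘ l ∘ ι`, `r' = Quot.mk R ∘ r ∘ ι`.  For `x' : E' → ℚ` let `x e = ∑ e', if ι e' = e then x' e' else 0`; then
`x (ι e') = x' e'`, `x e = 0` for `e ∉ Set.range ι`, and `net s t x v = net (s ∘ ι) (t ∘ ι) x' v`.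
(→) If `x'` is a cycle, so is `x`; `x` is the coboundary of some `φ`, which respects `R` (`x e = 0`), so it factors
through `Quot R`.  (←) For `φ'` on `D'` the coboundary of `φ' ∘ Quot.mk R` is a cycle which vanishes outside the range of `ι`,
so it is the extension of `x'`. -/
theorem pl_sub {V E E' : Type} [Fintype E] [Fintype E'] (s t : E → V) (ι : E' → E)
    (hι : Function.Injective ι) (h : Pl s t) : Pl (s ∘ ι) (t ∘ ι) := by
  classical
  obtain ⟨D, hD, l, r, hdu⟩ := h
  let R : D → D → Prop := fun a b => ∃ e, e ∉ Set.range ι ∧ l e = a ∧ r e = b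
  have hfin : Finite (Quot R) := Finite.of_surjective (Quot.mk R) Quot.mk_surjective
  refine ⟨Quot R, hfin, fun e => Quot.mk R (l (ι e)), fun e => Quot.mk R (r (ι e)), ?_⟩
  intro x'
  constructor
  · intro hx
    have hz : ∀ e, e ∉ Set.range ι → Function.extend ι x' (0 : E → ℚ) e = 0 := by
      intro e he
      exact Function.extend_apply' _ _ _ he
    have hx2 : ∀ v, net s t (Function.extend ι x' 0) v = 0 := by
      intro v
      rw [← SUB_ext s t ι hι _ hz v, Function.extend_comp hι]
      exact hx v
    obtain ⟨φ, hφ⟩ := (hdu _).1 hx2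
    refine ⟨Quot.lift φ ?_, ?_⟩
    · rintro a b ⟨e, he, rfl, rfl⟩
      have h1 := hφ e
      rw [hz e he] at h1
      exact sub_eq_zero.1 h1.symm
    · intro e'
      have h1 := hφ (ι e')
      rw [hι.extend_apply] at h1
      exact h1
  · rintro ⟨φ, hφ⟩ v
    have h1 : net s t (fun e => φ (Quot.mk R (l e)) - φ (Quot.mk R (r e))) v = 0 :=
      (hdu _).2 ⟨fun d => φ (Quot.mk R d), fun e => rfl⟩ v
    rw [← SUB_ext s t ι hι _ (fun e he => by
      have h2 : Quot.mk R (l e) = Quot.mk R (r e) := Quot.sound ⟨e, he, rfl, rfl⟩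
      rw [h2, sub_self]) v] at h1
    have h3 : (fun e => φ (Quot.mk R (l e)) - φ (Quot.mk R (r e))) ∘ ι = x' :=
      funext fun e => (hφ e).symm
    rw [h3] at h1
    exact h1

/-- MODULE PCO.  Contraction of the first edge, which joins `a` and `b`.

Proof.  The dual graph of the contracted graph is `l ∘ some`, `r ∘ some` on the same `D`.  By `net_map` and `net_ae`:
for `w` not equal to `π a = π b` the fibre of `w` has at most one element `v` and `net (π ∘ s) (π ∘ t) x w = net s t x v`; for `w = π a`
it is `net s t x a + net s t x b`.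
(→) Let `x` be a cycle of `π ∘ s`, `π ∘ t`.  Then `o ↦ o.elim (net s t x b) x` is a cycle of `ae a s`, `ae b t`, so it is the
coboundary of some `φ`.  (←) For `φ` the coboundary of `φ` for `l`, `r` is a cycle `y` of `ae a s`, `ae b t`, and
`net s t (y ∘ some) v = - y none * ([a = v] - [b = v])`, so the sums over the fibres are `0`. -/
theorem pl_con {V W E : Type} [Fintype V] [Fintype E] (s t : E → V) (a b : V) (hab : a ≠ b)
    (π : V → W) (hk : ∀ u v, π u = π v ↔ u = v ∨ (u = a ∧ v = b) ∨ (u = b ∧ v = a))
    (h : Pl (ae a s) (ae b t)) : Pl (π ∘ s) (π ∘ t) := by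
  classical
  obtain ⟨D, hD, l, r, hd⟩ := h
  have hab' : π a = π b := (hk a b).2 (Or.inr (Or.inl ⟨rfl, rfl⟩))
  refine ⟨D, hD, fun e => l (some e), fun e => r (some e), fun x => ⟨fun hx => ?_, ?_⟩⟩
  · have hA : net s t x a + net s t x b = 0 := by
      have h0 := hx (π a)
      rw [net_map] at h0
      rw [← h0, ← Finset.sum_filter]
      have h3 : Finset.univ.filter (fun v => π v = π a) = {a, b} := by
        ext u
        simp only [Finset.mem_filter, Finset.mem_univ, true_and, Finset.mem_insert,
          Finset.mem_singleton]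
        rw [hk u a]
        constructor
        · rintro (h4 | ⟨h4, -⟩ | ⟨h4, -⟩)
          · exact Or.inl h4
          · exact Or.inl h4
          · exact Or.inr h4
        · rintro (h4 | h4)
          · exact Or.inl h4
          · exact Or.inr (Or.inr ⟨h4, rfl⟩)
      have h5 : ∑ v ∈ Finset.univ.filter (fun v => π v = π a), net s t x v
          = net s t x a + net s t x b := by
        rw [h3, Finset.sum_pair hab]
      rw [← h5]
    have hO : ∀ v, v ≠ a → v ≠ b → net s t x v = 0 := by
      intro v hva hvb
      have h0 := hx (π v)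
      rw [net_map] at h0
      rw [← h0, ← Finset.sum_filter]
      have h3 : Finset.univ.filter (fun u => π u = π v) = {v} := by
        ext u
        simp only [Finset.mem_filter, Finset.mem_univ, true_and, Finset.mem_singleton]
        rw [hk u v]
        constructor
        · rintro (h4 | ⟨-, h4⟩ | ⟨-, h4⟩)
          · exact h4
          · exact absurd h4 hvb
          · exact absurd h4 hva
        · intro h4
          exact Or.inl h4
      have h5 : ∑ u ∈ Finset.univ.filter (fun u => π u = π v), net s t x u = net s t x v := by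
        rw [h3, Finset.sum_singleton]
      rw [← h5]
    have h1 : ∀ v, net (ae a s) (ae b t) (fun o => o.elim (net s t x b) x) v = 0 := by
      intro v
      rw [net_ae]
      simp only [Option.elim]
      by_cases hva : a = v
      · subst hva
        rw [if_pos rfl, if_neg (Ne.symm hab)]
        linarith
      · by_cases hvb : b = v
        · subst hvb
          rw [if_neg hva, if_pos rfl]
          ring
        · rw [if_neg hva, if_neg hvb, hO v (Ne.symm hva) (Ne.symm hvb)]
          ring
    obtain ⟨φ, hφ⟩ := (hd _).1 h1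
    exact ⟨φ, fun e => hφ (some e)⟩
  · rintro ⟨φ, hφ⟩ w
    have h2 := (hd (fun o => φ (l o) - φ (r o))).2 ⟨φ, fun _ => rfl⟩
    have hx : x = fun e => φ (l (some e)) - φ (r (some e)) := funext hφ
    have h3 : ∀ v, net s t x v = (if b = v then (φ (l none) - φ (r none)) else 0)
        - (if a = v then (φ (l none) - φ (r none)) else 0) := by
      intro v
      have h4 := h2 v
      rw [net_ae] at h4
      rw [hx]
      linarith
    rw [net_map]
    have h5 : ∀ v, (if π v = w then net s t x v else 0)
        = (if b = v then (if π b = w then (φ (l none) - φ (r none)) else 0) else 0)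
        - (if a = v then (if π a = w then (φ (l none) - φ (r none)) else 0) else 0) := by
      intro v
      rw [h3 v]
      by_cases hva : a = v
      · subst hva
        by_cases hw : π a = w
        · simp [hw, Ne.symm hab]
        · simp [hw, Ne.symm hab]
      · by_cases hvb : b = v
        · subst hvb
          by_cases hw : π b = w
          · simp [hw, hva]
          · simp [hw, hva]
        · simp [hva, hvb]
    rw [Finset.sum_congr rfl (fun v _ => h5 v), Finset.sum_sub_distrib, Finset.sum_ite_eq,
      Finset.sum_ite_eq, if_pos (Finset.mem_univ _), if_pos (Finset.mem_univ _), hab', sub_self]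

private theorem PIS_net {V W E E' : Type} [Fintype E] [Fintype E'] (f : V ≃ W) (g : E ≃ E') (s t : E → V)
    (s' t' : E' → W) (hs : ∀ e, s' (g e) = f (s e)) (ht : ∀ e, t' (g e) = f (t e)) (x : E' → ℚ) (v : V) :
    net s' t' x (f v) = net s t (x ∘ g) v := by
  classical
  unfold net
  congr 1
  · rw [← g.sum_comp]
    refine Finset.sum_congr rfl fun e _ => ?_
    refine if_congr ?_ rfl rfl
    rw [hs, f.injective.eq_iff]
  · rw [← g.sum_comp]
    refine Finset.sum_congr rfl fun e _ => ?_
    refine if_congr ?_ rfl rfl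
    rw [ht, f.injective.eq_iff]

/-- MODULE PIS (1).  Isomorphic graphs: `net s' t' x' (f v) = net s t (x' ∘ g) v`, `f` is surjective; the dual graph is
`l ∘ g.symm`, `r ∘ g.symm`. -/
theorem pl_iso {V W E E' : Type} [Fintype E] [Fintype E'] (f : V ≃ W) (g : E ≃ E') (s t : E → V)
    (s' t' : E' → W) (hs : ∀ e, s' (g e) = f (s e)) (ht : ∀ e, t' (g e) = f (t e)) (h : Pl s t) :
    Pl s' t' := by
  obtain ⟨D, hD, l, r, hdu⟩ := h
  refine ⟨D, hD, l ∘ g.symm, r ∘ g.symm, ?_⟩
  intro x'
  have h1 : (∀ w, net s' t' x' w = 0) ↔ ∀ v, net s t (x' ∘ g) v = 0 := by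
    constructor
    · intro h v
      rw [← PIS_net f g s t s' t' hs ht x' v]
      exact h _
    · intro h w
      obtain ⟨v, rfl⟩ := f.surjective w
      rw [PIS_net f g s t s' t' hs ht x' v]
      exact h v
  rw [h1, hdu]
  constructor
  · rintro ⟨φ, hφ⟩
    refine ⟨φ, fun e' => ?_⟩
    have h2 := hφ (g.symm e')
    rw [Function.comp_apply, g.apply_symm_apply] at h2
    exact h2
  · rintro ⟨φ, hφ⟩
    refine ⟨φ, fun e => ?_⟩
    have h2 := hφ (g e)
    rw [Function.comp_apply, Function.comp_apply, g.symm_apply_apply] at h2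
    exact h2

/-- MODULE PIS (2).  Some edges are turned round: turn round the same edges of the dual graph.  With `c e = 1` or `-1` and
`x' e = c e * x e`: `net s' t' x' v = net s t x v`. -/
theorem pl_flip {V E : Type} [Fintype E] (s t s' t' : E → V)
    (h : ∀ e, (s' e = s e ∧ t' e = t e) ∨ (s' e = t e ∧ t' e = s e)) (hp : Pl s t) : Pl s' t' := by
  classical
  obtain ⟨D, hD, l, r, hdu⟩ := hp
  refine ⟨D, hD, fun e => if s' e = s e ∧ t' e = t e then l e else r e,
    fun e => if s' e = s e ∧ t' e = t e then r e else l e, ?_⟩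
  intro x'
  have h1 : ∀ v, net s' t' x' v = net s t (fun e => if s' e = s e ∧ t' e = t e then x' e else - x' e) v := by
    intro v
    unfold net
    rw [← Finset.sum_sub_distrib, ← Finset.sum_sub_distrib]
    refine Finset.sum_congr rfl fun e _ => ?_
    by_cases hP : s' e = s e ∧ t' e = t e
    · simp only [if_pos hP]
      rw [hP.1, hP.2]
    · simp only [if_neg hP]
      rcases h e with h2 | h2
      · exact absurd h2 hP
      · rw [h2.1, h2.2]
        by_cases ha : s e = v
        · by_cases hb : t e = v
          · rw [if_pos ha, if_pos hb, if_pos ha, if_pos hb, sub_self, sub_self]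
          · rw [if_pos ha, if_neg hb, if_pos ha, if_neg hb, sub_zero, zero_sub]
        · by_cases hb : t e = v
          · rw [if_neg ha, if_pos hb, if_neg ha, if_pos hb, sub_zero, zero_sub, neg_neg]
          · rw [if_neg ha, if_neg hb, if_neg ha, if_neg hb]
  simp only [h1]
  rw [hdu]
  refine exists_congr fun φ => forall_congr' fun e => ?_
  by_cases hP : s' e = s e ∧ t' e = t e
  · simp only [if_pos hP]
  · simp only [if_neg hP]
    constructor
    · intro h2
      linarith
    · intro h2
      linarith

private theorem NSP_w {V E : Type} [Fintype E] (s t : E → V) (x : E → ℚ) (v : V) (w : E → ℚ)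
    (h1 : ∀ e, s e = v → t e = v → w e = 0) (h2 : ∀ e, s e = v → t e ≠ v → w e = x e)
    (h3 : ∀ e, s e ≠ v → t e = v → w e = - x e) (h4 : ∀ e, s e ≠ v → t e ≠ v → w e = 0) :
    net s t x v = ∑ e, w e := by
  unfold net
  rw [← Finset.sum_sub_distrib]
  refine Finset.sum_congr rfl fun e _ => ?_
  by_cases hs : s e = v
  · by_cases ht : t e = v
    · rw [if_pos hs, if_pos ht, sub_self, h1 e hs ht]
    · rw [if_pos hs, if_neg ht, sub_zero, h2 e hs ht]
  · by_cases ht : t e = v
    · rw [if_neg hs, if_pos ht, zero_sub, h3 e hs ht]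
    · rw [if_neg hs, if_neg ht, sub_zero, h4 e hs ht]

open Classical in
/-- MODULE NSP.  Currents after splitting the vertex `v`.

Proof.  Unfold `net`, `spl`.  At `none`: the edges `e ∈ J` with `s e = v` (then `t e ≠ v`) contribute `x e`, those with
`t e = v` contribute `- x e`.  At `some v` the edges of `J` are missing, at `some u` nothing changes. -/
theorem net_spl {V E : Type} [Fintype E] (s t : E → V) (hl : LL s t) (v : V) (J : Finset E)
    (hJ : ∀ e ∈ J, s e = v ∨ t e = v) (x : E → ℚ) :
    net (spl v J s) (spl v J t) x none = ∑ e ∈ J, (if s e = v then x e else - x e) ∧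
    net (spl v J s) (spl v J t) x (some v) = net s t x v - ∑ e ∈ J, (if s e = v then x e else - x e) ∧
    ∀ u, u ≠ v → net (spl v J s) (spl v J t) x (some u) = net s t x u := by
  have hn : ∀ f : E → V, ∀ e, spl v J f e = none ↔ e ∈ J ∧ f e = v := by
    intro f e
    unfold spl
    by_cases he : e ∈ J ∧ f e = v
    · rw [if_pos he]
      exact ⟨fun _ => he, fun _ => rfl⟩
    · rw [if_neg he]
      exact ⟨fun h2 => absurd h2 (Option.some_ne_none _), fun h2 => absurd h2 he⟩
  have hsm : ∀ f : E → V, ∀ u e, spl v J f e = some u ↔ f e = u ∧ ¬ (e ∈ J ∧ f e = v) := by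
    intro f u e
    unfold spl
    by_cases he : e ∈ J ∧ f e = v
    · rw [if_pos he]
      exact ⟨fun h2 => absurd h2.symm (Option.some_ne_none _), fun h2 => absurd he h2.2⟩
    · rw [if_neg he]
      exact ⟨fun h2 => ⟨Option.some_inj.1 h2, he⟩, fun h2 => by rw [h2.1]⟩
  have hJs : ∑ e ∈ J, (if s e = v then x e else - x e) =
      ∑ e, if e ∈ J then (if s e = v then x e else - x e) else 0 := by
    rw [Finset.sum_ite_mem, Finset.univ_inter]
  refine ⟨?_, ?_, ?_⟩
  · rw [hJs]
    refine NSP_w _ _ x none _ ?_ ?_ ?_ ?_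
    · intro e h1 h2
      exact absurd (((hn s e).1 h1).2.trans ((hn t e).1 h2).2.symm) (hl e)
    · intro e h1 _
      have h3 := (hn s e).1 h1
      rw [if_pos h3.1, if_pos h3.2]
    · intro e h1 h2
      have h3 := (hn t e).1 h2
      have h4 : s e ≠ v := fun h4 => h1 ((hn s e).2 ⟨h3.1, h4⟩)
      rw [if_pos h3.1, if_neg h4]
    · intro e h1 h2
      have h3 : e ∉ J := by
        intro h3
        rcases hJ e h3 with h4 | h4
        · exact h1 ((hn s e).2 ⟨h3, h4⟩)
        · exact h2 ((hn t e).2 ⟨h3, h4⟩)
      rw [if_neg h3]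
  · have h0 : net s t x v = ∑ e, if s e = v then x e else if t e = v then - x e else 0 := by
      refine NSP_w _ _ x v _ ?_ ?_ ?_ ?_
      · intro e h1 h2
        exact absurd (h1.trans h2.symm) (hl e)
      · intro e h1 _
        rw [if_pos h1]
      · intro e h1 h2
        rw [if_neg h1, if_pos h2]
      · intro e h1 h2
        rw [if_neg h1, if_neg h2]
    rw [hJs, h0, ← Finset.sum_sub_distrib]
    refine NSP_w _ _ x (some v) _ ?_ ?_ ?_ ?_
    · intro e h1 h2
      exact absurd (((hsm s v e).1 h1).1.trans ((hsm t v e).1 h2).1.symm) (hl e)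
    · intro e h1 _
      have h3 := (hsm s v e).1 h1
      have h4 : e ∉ J := fun h4 => h3.2 ⟨h4, h3.1⟩
      rw [if_pos h3.1, if_neg h4, sub_zero]
    · intro e _ h2
      have h3 := (hsm t v e).1 h2
      have h4 : e ∉ J := fun h4 => h3.2 ⟨h4, h3.1⟩
      have h5 : s e ≠ v := fun h5 => hl e (h5.trans h3.1.symm)
      rw [if_neg h5, if_pos h3.1, if_neg h4, sub_zero]
    · intro e h1 h2
      by_cases hj : e ∈ J
      · rw [if_pos hj]
        by_cases h5 : s e = v
        · rw [if_pos h5, if_pos h5, sub_self]
        · have h6 : t e = v := (hJ e hj).resolve_left h5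
          rw [if_neg h5, if_neg h5, if_pos h6, sub_self]
      · have h5 : s e ≠ v := fun h5 => h1 ((hsm s v e).2 ⟨h5, fun h6 => hj h6.1⟩)
        have h6 : t e ≠ v := fun h5 => h2 ((hsm t v e).2 ⟨h5, fun h6 => hj h6.1⟩)
        rw [if_neg h5, if_neg h6, if_neg hj, sub_zero]
  · intro u hu
    have h1 : ∀ f : E → V, ∀ e, spl v J f e = some u ↔ f e = u := by
      intro f e
      rw [hsm]
      exact ⟨fun h2 => h2.1, fun h2 => ⟨h2, fun h3 => hu (h2.symm.trans h3.2)⟩⟩
    have h0 : net s t x u = ∑ e, ((if s e = u then x e else 0) - (if t e = u then x e else 0)) := by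
      unfold net
      rw [Finset.sum_sub_distrib]
    rw [h0]
    refine NSP_w _ _ x (some u) _ ?_ ?_ ?_ ?_
    · intro e h2 h3
      rw [if_pos ((h1 s e).1 h2), if_pos ((h1 t e).1 h3), sub_self]
    · intro e h2 h3
      rw [if_pos ((h1 s e).1 h2), if_neg (fun h4 => h3 ((h1 t e).2 h4)), sub_zero]
    · intro e h2 h3
      rw [if_neg (fun h4 => h2 ((h1 s e).2 h4)), if_pos ((h1 t e).1 h3), zero_sub]
    · intro e h2 h3
      rw [if_neg (fun h4 => h2 ((h1 s e).2 h4)), if_neg (fun h4 => h3 ((h1 t e).2 h4)), sub_zero]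

/-- MODULE BAL.  The faces around a vertex.

Proof.  `x e = φ (l e) - φ (r e)` is a cycle; its net current at `v` is the sum (an edge `e` with `s e = v` contributes
`x e = φ (hd e) - φ (tl e)`, an edge with `t e = v` contributes `- x e`, which is the same by the definition of `hd`, `tl`). -/
theorem bal {V E D : Type} [Fintype E] [DecidableEq V] (s t : E → V) (hl : LL s t) (l r : E → D)
    (h : Du s t l r) (v : V) (φ : D → ℚ) :
    ∑ e ∈ Finset.univ.filter (fun e => s e = v ∨ t e = v), (φ (hd s l r v e) - φ (tl s l r v e)) = 0 := by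
  have h1 : net s t (fun e => φ (l e) - φ (r e)) v = 0 := (h _).2 ⟨φ, fun e => rfl⟩ v
  rw [Finset.sum_filter]
  refine Eq.trans (Eq.symm ?_) h1
  refine NSP_w _ _ _ v _ ?_ ?_ ?_ ?_
  · intro e h2 h3
    exact absurd (h2.trans h3.symm) (hl e)
  · intro e h2 _
    rw [if_pos (Or.inl h2)]
    unfold hd tl
    rw [if_pos h2, if_pos h2]
  · intro e h2 h3
    rw [if_pos (Or.inr h3)]
    unfold hd tl
    rw [if_neg h2, if_neg h2, neg_sub]
  · intro e h2 h3
    rw [if_neg (fun h4 => h4.elim h2 h3)]

/-- MODULE PSP.  Splitting a vertex along consecutive edges; the new edge goes from `some v` to `none`.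

Proof.  `net_ae` and `net_spl`.  (→) Let `x` be a cycle of the new graph.  Then `x ∘ some` is a cycle of `s`, `t` (add the
equations at `none` and `some v`), so it is the coboundary of some `φ`, and the equation at `none` is
`x none = ∑ e ∈ J, (if s e = v then x e else - x e) = ∑ e ∈ J, (φ (hd e) - φ (tl e)) = φ d'' - φ d'`.  (←) The same equations. -/
theorem du_split {V E D : Type} [Fintype E] (s t : E → V) (hl : LL s t) (l r : E → D) (h : Du s t l r) (v : V)
    (J : Finset E) (hJ : ∀ e ∈ J, s e = v ∨ t e = v) (d' d'' : D)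
    (hd : ∀ φ : D → ℚ, ∑ e ∈ J, (φ (hd s l r v e) - φ (tl s l r v e)) = φ d'' - φ d') :
    Du (ae (some v) (spl v J s)) (ae none (spl v J t)) (ae d'' l) (ae d' r) := by
  classical
  intro x
  obtain ⟨hn, hv, hu⟩ := net_spl s t hl v J hJ (fun e => x (some e))
  have hsum : ∀ φ : D → ℚ, (∀ e, x (some e) = φ (l e) - φ (r e)) →
      ∑ e ∈ J, (if s e = v then x (some e) else - x (some e)) = φ d'' - φ d' := by
    intro φ hφ
    rw [← hd φ]
    refine Finset.sum_congr rfl fun e _ => ?_
    unfold Pool.Agent.PL3.hd Pool.Agent.PL3.tl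
    by_cases hs : s e = v
    · rw [if_pos hs, if_pos hs, if_pos hs, hφ e]
    · rw [if_neg hs, if_neg hs, if_neg hs, hφ e]
      ring
  have hL : (∀ u, net (ae (some v) (spl v J s)) (ae none (spl v J t)) x u = 0) ↔
      ((∀ u, net s t (fun e => x (some e)) u = 0) ∧
        x none = ∑ e ∈ J, (if s e = v then x (some e) else - x (some e))) := by
    constructor
    · intro h0
      have h1 := h0 none
      rw [net_ae, hn, if_neg (by simp), if_pos rfl] at h1
      have h2 := h0 (some v)
      rw [net_ae, hv, if_pos rfl, if_neg (by simp)] at h2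
      refine ⟨fun u => ?_, by linarith⟩
      by_cases huv : u = v
      · subst huv
        linarith
      · have h3 := h0 (some u)
        rw [net_ae, hu u huv, if_neg (by simpa using Ne.symm huv), if_neg (by simp)] at h3
        linarith
    · rintro ⟨h0, h1⟩ u
      rw [net_ae]
      rcases u with _ | u
      · rw [hn, if_neg (by simp), if_pos rfl]
        linarith
      · by_cases huv : u = v
        · subst huv
          rw [hv, if_pos rfl, if_neg (by simp), h0]
          linarith
        · rw [hu u huv, if_neg (by simpa using Ne.symm huv), if_neg (by simp), h0]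
          ring
  rw [hL]
  constructor
  · rintro ⟨h0, h1⟩
    obtain ⟨φ, hφ⟩ := (h _).1 h0
    refine ⟨φ, fun o => ?_⟩
    rcases o with _ | e
    · rw [h1, hsum φ hφ]
      rfl
    · exact hφ e
  · rintro ⟨φ, hφ⟩
    have h1 : ∀ e, x (some e) = φ (l e) - φ (r e) := fun e => hφ (some e)
    refine ⟨(h _).2 ⟨φ, h1⟩, ?_⟩
    rw [hsum φ h1]
    exact hφ none

/-- MODULE PDB.  A double edge.

Proof.  The dual graph on `Option D`: the first copy has the faces `some (l none)`, `none`, the second one `none`,
`some (r none)`, the other edges `some (l (some e))`, `some (r (some e))`.  A current `x` on the new graph is a cycle iff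
`o ↦ o.elim (x none + x (some none)) fun e => x (some (some e))` is a cycle of `ae a s`, `ae b t` (`net_ae` three times).
(→) Take `φ` for it and extend by `φ' none = φ (l none) - x none`. -/
theorem pl_dbl {V E : Type} [Fintype E] (s t : E → V) (a b : V) (h : Pl (ae a s) (ae b t)) :
    Pl (ae a (ae a s)) (ae b (ae b t)) := by
  classical
  obtain ⟨D, hD, l, r, hd⟩ := h
  refine ⟨Option D, inferInstance,
    fun o => o.elim (some (l none)) (fun o => o.elim none fun e => some (l (some e))),
    fun o => o.elim none (fun o => o.elim (some (r none)) fun e => some (r (some e))), fun x => ?_⟩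
  have h1 : ∀ v, net (ae a (ae a s)) (ae b (ae b t)) x v = net (ae a s) (ae b t)
      (fun o => o.elim (x none + x (some none)) fun e => x (some (some e))) v := by
    intro v
    rw [net_ae, net_ae, net_ae]
    simp only [Option.elim]
    split_ifs <;> ring
  rw [forall_congr' (fun v => by rw [h1 v]), hd]
  constructor
  · rintro ⟨φ, hφ⟩
    refine ⟨fun o => o.elim (φ (l none) - x none) φ, fun o => ?_⟩
    rcases o with _ | o
    · simp only [Option.elim]
      ring
    · rcases o with _ | e
      · have h2 := hφ none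
        simp only [Option.elim] at h2 ⊢
        linarith
      · exact hφ (some e)
  · rintro ⟨φ, hφ⟩
    refine ⟨fun d => φ (some d), fun o => ?_⟩
    rcases o with _ | e
    · have h2 := hφ none
      have h3 := hφ (some none)
      simp only [Option.elim] at h2 h3 ⊢
      linarith
    · exact hφ (some (some e))

/-- MODULE BRG.  A bridge.

Proof.  `s`, `t` has no spanning tree: otherwise `exists_flow` gives a current `x` with net `[a = v] - [b = v]`, and
`o ↦ o.elim (-1) x` is a cycle of `ae a s`, `ae b t` (`net_ae`) with value `-1` at `none`.  So `sym s t = 0`, and by `tht_dc`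
(with `sym_eq_tht`) `sym (ae a s) (ae b t) x = sym (π ∘ s) (π ∘ t) (x ∘ some)` for all `x` (over `F.K`).  The number of zeros is
`q` times the other one: `(Option E → K) ≃ K × (E → K)`; see `P3.ns_pend` for the same count. -/
theorem ns_bridge {V W E : Type} [Fintype V] [Fintype W] [Fintype E] (s t : E → V) (a b : V) (hab : a ≠ b)
    (π : V → W) (hπ : Function.Surjective π)
    (hk : ∀ u v, π u = π v ↔ u = v ∨ (u = a ∧ v = b) ∨ (u = b ∧ v = a))
    (hb : ∀ x : Option E → ℚ, (∀ v, net (ae a s) (ae b t) x v = 0) → x none = 0) (F : FinField) :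
    ns (ae a s) (ae b t) F = F.q * ns (π ∘ s) (π ∘ t) F := by
  classical
  have hno : ∀ T : Finset E, ¬ IsTree s t T := by
    intro T hT
    obtain ⟨x, hx⟩ := exists_flow s t T hT a b
    have h1 := hb (fun o => o.elim (-1) x) (fun v => by
      rw [net_ae]
      have h2 : net s t (fun e => (some e).elim (-1) x) v =
        (if a = v then 1 else 0) - (if b = v then 1 else 0) := hx v
      rw [h2]
      show (if a = v then (1 : ℚ) else 0) - (if b = v then 1 else 0) + (if a = v then (-1) else 0) -
        (if b = v then (-1) else 0) = 0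
      split_ifs <;> norm_num)
    have h2 : (-1 : ℚ) = 0 := h1
    norm_num at h2
  have hz : ∀ x : E → F.K, sym s t x = 0 := by
    intro x
    unfold sym
    exact Finset.sum_eq_zero fun T _ => if_neg (hno T)
  have key : ∀ y : Option E → F.K, sym (ae a s) (ae b t) y = sym (π ∘ s) (π ∘ t) (y ∘ some) := by
    intro y
    rw [sym_eq_tht, tht_dc a b hab π hπ hk s t]
    have h1 : tht s t ((1 : Option E → F.K) ∘ some) (y ∘ some) = 0 := by
      have h2 := hz (y ∘ some)
      rw [sym_eq_tht] at h2
      exact h2
    rw [h1, mul_zero, zero_add]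
    show (1 : F.K) * tht (π ∘ s) (π ∘ t) 1 (y ∘ some) = _
    rw [one_mul, sym_eq_tht]
  have k1 : Nat.card {y : Option E → F.K // sym (ae a s) (ae b t) y = 0} =
      Nat.card (F.K × {x : E → F.K // sym (π ∘ s) (π ∘ t) x = 0}) := by
    refine Nat.card_congr ⟨fun y => (y.1 none, ⟨y.1 ∘ some, ?_⟩), fun x => ⟨fun o => o.elim x.1 x.2.1, ?_⟩,
      ?_, ?_⟩
    · rw [← key]
      exact y.2
    · rw [key]
      exact x.2.2
    · intro y
      apply Subtype.ext
      funext o
      rcases o with _ | e <;> rfl
    · rintro ⟨z, x⟩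
      rfl
  unfold ns NS
  rw [k1, Nat.card_prod]
  push_cast
  rfl

/-- MODULE BRS.  Splitting off two edges which form a closed trail in the dual graph: the new edge is a bridge.

Proof.  `d : D` exists (`J` is nonempty: `hd s l r v e`).  `du_split` with `d' = d'' = d`; every cycle of the new graph has
`x none = φ d - φ d = 0`, so `ns_bridge` with `π = fold v` (`fold_surj`, `fold_ker`, `fold_spl`). -/
theorem bridge_split {V E D : Type} [Fintype V] [Fintype E] [Finite D] (s t : E → V) (hl : LL s t)
    (l r : E → D) (h : Du s t l r) (v : V) (J : Finset E) (hJ : ∀ e ∈ J, s e = v ∨ t e = v) (hc : J.card = 2)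
    (hd : ∀ φ : D → ℚ, ∑ e ∈ J, (φ (hd s l r v e) - φ (tl s l r v e)) = 0) :
    Pl (ae (some v) (spl v J s)) (ae none (spl v J t)) ∧
      ∀ F : FinField, ns (ae (some v) (spl v J s)) (ae none (spl v J t)) F = F.q * ns s t F := by
  have hne : J.Nonempty := by
    rw [← Finset.card_pos, hc]
    norm_num
  obtain ⟨e0, he0⟩ := hne
  have hdu := du_split s t hl l r h v J hJ (l e0) (l e0) (fun φ => by rw [hd φ, sub_self])
  refine ⟨⟨D, inferInstance, ae (l e0) l, ae (l e0) r, hdu⟩, fun F => ?_⟩
  have h1 := ns_bridge (spl v J s) (spl v J t) (some v) none (Option.some_ne_none v) (fold v)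
    (fold_surj v) (fold_ker v) (fun x hx => by
      obtain ⟨φ, hφ⟩ := (hdu x).1 hx
      have h2 : x none = φ (l e0) - φ (l e0) := hφ none
      rw [h2, sub_self]) F
  rw [fold_spl, fold_spl] at h1
  exact h1

end Pool.Agent.PL3
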