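import Pool.Agent.P3.RowB

/-!
# The planar identity: the degenerate functionals and the rung on single functionals
-/

set_option autoImplicit false

open scoped BigOperators

namespace Pool.Agent.PL3

open Pool.Agent.KG Pool.Agent.P3

variable {K : Type} [Field K] [Fintype K]

omit [Fintype K] in
theorem gv_mt (α β y0 y1 : K) : gv (mt α β) y0 y1 = ![y0, -y1, 0, -α] := by
  funext k
  fin_cases k <;> simp [gv, P3.mt, vv, Matrix.mulVec, dotProduct, Fin.sum_univ_four]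

omit [Field K] in
theorem const_sum (c : ℤ) : ∑ _x : K, c = qK K * c := by
  rw [Finset.sum_const, Finset.card_univ, nsmul_eq_mul]

/-- The functional `G` with the potential `![y0, -y1, 0, -r]`. -/
noncomputable def T (r y0 y1 β : K) (B : Set (Pt K)) : ℤ := G ![y0, -y1, 0, -r] (mt r β) B

/-- Two strands `02|13` with the coupling `c`. -/
noncomputable def P2 (c : K) (B : Set (Pt K)) : ℤ := G ![0, 1, 0, 1] (mt 0 c) B

/-- Two strands `03|12` with the coupling `c`. -/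
noncomputable def B3 (c : K) (B : Set (Pt K)) : ℤ := G ![1, 0, 0, 1] (mt 0 c) B

open Classical in
/-- The first master formula for `mt α β`. -/
theorem R_cf (α β : K) (B : Set (Pt K)) :
    R (cf α β) B = ∑ y0 : K, ∑ y1 : K, T α y0 y1 β B +
      ∑ y0 : K, ∑ y1 : K, ∑ S : K, (if S = 0 then 0 else
        cf (α - S⁻¹ * (y0 + y1) * α) (β + S⁻¹ * ((y0 + α) * y1)) B) := by
  have h1 := R_C (mt α β) (mt_symm α β) B
  change R (cf α β) B = _ at h1
  rw [h1, ← Finset.sum_add_distrib]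
  refine Finset.sum_congr rfl fun y0 _ => ?_
  rw [← Finset.sum_add_distrib]
  refine Finset.sum_congr rfl fun y1 _ => ?_
  rw [gv_mt, al_mt, be_mt]
  refine congrArg₂ (· + ·) rfl ?_
  refine Finset.sum_congr rfl fun S _ => ?_
  by_cases hS : S = 0
  · rw [if_pos hS, if_pos hS]
  · rw [if_neg hS, if_neg hS]
    refine congrArg₂ (fun a b : K => cf a b B) ?_ ?_
    · show α - S⁻¹ * ((y0 - -y1) * (0 - -α)) = _
      ring
    · show β - S⁻¹ * ((y0 - -α) * (-y1 - 0)) = _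
      ring

/-- Independence of the second invariant, case `y0 - y1 + r ≠ 0`. -/
private theorem T_indep1 (r y0 y1 β β' : K) (h : y0 - y1 + r ≠ 0) (B : Set (Pt K)) :
    T r y0 y1 β' B = T r y0 y1 β B := by
  obtain ⟨v, hv⟩ : ∃ v : K, v * (y0 - y1 + r) = β' - β := ⟨(β' - β) / (y0 - y1 + r), div_mul_cancel₀ _ h⟩
  have hβ : β' = β + v * (y0 - y1 + r) := by rw [hv]; ring
  subst hβ
  refine G_shift ![y0, -y1, 0, -r] ![y0, -y1, 0, -r] 0 (fun k => (add_zero _).symm) (mt r β)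
    (mt r (β + v * (y0 - y1 + r)))
    ![v * (y0 - y1) - 2 * (v * y0), v * (y0 - y1) + 2 * (v * y1), -(v * (y0 - y1)),
      -(v * (y0 - y1)) - 2 * (v * r)]
    ![0, 0, v * (y0 - y1), v * (y0 - y1) + v * r]
    ![-(v * (y0 - y1)), -(v * (y0 - y1)), 0, v * r] ![v, v, 0, 0] ![v, v, 0, 0] (fun k l => ?_) B
  fin_cases k <;> fin_cases l <;> simp [P3.mt] <;> ring

/-- Independence of the second invariant, case `y1 = y0 + r`. -/
private theorem T_indep2 (r y0 κ β : K) (B : Set (Pt K)) :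
    T r y0 (y0 + r) (β - κ * y0 * (y0 + r)) B = T r y0 (y0 + r) β B := by
  refine G_shift ![y0, -(y0 + r), 0, -r] ![y0, -(y0 + r), 0, -r] 0 (fun k => (add_zero _).symm) (mt r β)
    (mt r (β - κ * y0 * (y0 + r))) (fun k => - (2 * (![κ * y0 * (y0 + r) + κ * r * r + κ * y0 * r,
      κ * y0 * (y0 + r) + κ * r * r - κ * r * (y0 + r), κ * r * r, 0] : Fin 4 → K) k +
      (- κ * y0 * (y0 + r) - 2 * κ * r * r)) - 2 * ((![y0, -(y0 + r), 0, -r] : Fin 4 → K) k *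
      (![-κ * r, -κ * r, -κ * r, 0] : Fin 4 → K) k) - κ * (![y0, -(y0 + r), 0, -r] : Fin 4 → K) k *
      (![y0, -(y0 + r), 0, -r] : Fin 4 → K) k)
    ![κ * y0 * (y0 + r) + κ * r * r + κ * y0 * r, κ * y0 * (y0 + r) + κ * r * r - κ * r * (y0 + r), κ * r * r, 0]
    (fun k => (![κ * y0 * (y0 + r) + κ * r * r + κ * y0 * r,
      κ * y0 * (y0 + r) + κ * r * r - κ * r * (y0 + r), κ * r * r, 0] : Fin 4 → K) k +
      (- κ * y0 * (y0 + r) - 2 * κ * r * r))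
    ![-κ * r, -κ * r, -κ * r, 0]
    (fun k => (![-κ * r, -κ * r, -κ * r, 0] : Fin 4 → K) k + κ * (![y0, -(y0 + r), 0, -r] : Fin 4 → K) k)
    (fun k l => ?_) B
  fin_cases k <;> fin_cases l <;> simp [P3.mt] <;> ring

/-- `T` does not depend on the second invariant, except for the two pairings. -/
theorem T_indep (r y0 y1 β β' : K) (h : r = 0 ∨ (¬ (y0 = 0 ∧ y1 = r) ∧ ¬ (y0 = -r ∧ y1 = 0)))
    (B : Set (Pt K)) : T r y0 y1 β' B = T r y0 y1 β B := by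
  by_cases h1 : y0 - y1 + r = 0
  · have h2 : y1 = y0 + r := by linear_combination -h1
    subst h2
    by_cases h3 : y0 * (y0 + r) = 0
    · have h4 : ∀ b : K, T r y0 (y0 + r) b B = 0 := by
        intro b
        refine G_const _ ⟨0, fun k => ?_⟩ _ B
        have h5 : r = 0 ∧ y0 = 0 := by
          rcases mul_eq_zero.1 h3 with h6 | h6
          · rcases h with h | h
            · exact ⟨h, h6⟩
            · exact absurd ⟨h6, by rw [h6, zero_add]⟩ h.1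
          · rcases h with h | h
            · rw [h, add_zero] at h6
              exact ⟨h, h6⟩
            · exact absurd ⟨eq_neg_of_add_eq_zero_left h6, h6⟩ h.2
        rw [h5.1, h5.2]
        fin_cases k <;> simp
      rw [h4, h4]
    · obtain ⟨κ, hκ⟩ : ∃ κ : K, κ * (y0 * (y0 + r)) = β - β' := ⟨(β - β') / (y0 * (y0 + r)), div_mul_cancel₀ _ h3⟩
      have hβ : β' = β - κ * y0 * (y0 + r) := by linear_combination hκ
      rw [hβ]
      exact T_indep2 r y0 κ β B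
  · exact T_indep1 r y0 y1 β β' h1 B

theorem T_P2 (r β : K) (hr : r ≠ 0) (B : Set (Pt K)) : T r 0 r β B = P2 (r + β) B := by
  unfold T P2
  rw [G_smul (-r) (neg_ne_zero.2 hr) ![0, 1, 0, 1] ![0, -r, 0, -r] (fun k => by fin_cases k <;> simp)]
  refine G_shift ![0, 1, 0, 1] ![0, 1, 0, 1] 0 (fun k => (add_zero _).symm) (mt 0 (r + β)) (mt r β)
    ![-r, -r, r, -r] ![r, r, 0, r] ![0, 0, -r, 0] ![-r, 0, 0, 0] ![-r, 0, 0, 0] (fun k l => ?_) B
  fin_cases k <;> fin_cases l <;> simp [P3.mt]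

theorem T_B3 (r β : K) (hr : r ≠ 0) (B : Set (Pt K)) : T r (-r) 0 β B = B3 β B := by
  unfold T B3
  rw [G_smul (-r) (neg_ne_zero.2 hr) ![1, 0, 0, 1] ![-r, -0, 0, -r] (fun k => by fin_cases k <;> simp)]
  refine G_shift ![1, 0, 0, 1] ![1, 0, 0, 1] 0 (fun k => (add_zero _).symm) (mt 0 β) (mt r β)
    ![2 * r, 0, 0, -(2 * r)] ![0, 0, 0, r] ![0, 0, 0, r] ![-r, 0, 0, 0] ![-r, 0, 0, 0] (fun k l => ?_) B
  fin_cases k <;> fin_cases l <;> simp [P3.mt] <;> ring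

/-- The rung on `B3`. -/
theorem R_B3 (c : K) (B : Set (Pt K)) : R (B3 c) B = qK K ^ 2 * ∑ α : K, cf α c B := by
  have h0 : ((![1, 0, 0, 1] : Fin 4 → K) 0 - (![1, 0, 0, 1] : Fin 4 → K) 1) ≠ 0 := by
    simp
  change R (G ![1, 0, 0, 1] (mt 0 c)) B = _
  rw [R_G _ _ (mt_symm 0 c) h0 B]
  have h1 : ∀ y0 y1 : K, ∑ s : K,
      cf (al (mt 0 c) - ((![1, 0, 0, 1] : Fin 4 → K) 0 - (![1, 0, 0, 1] : Fin 4 → K) 1)⁻¹ *
          ((gv (mt 0 c) y0 y1 0 - gv (mt 0 c) y0 y1 1) *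
            ((![1, 0, 0, 1] : Fin 4 → K) 2 - (![1, 0, 0, 1] : Fin 4 → K) 3) +
          ((![1, 0, 0, 1] : Fin 4 → K) 0 - (![1, 0, 0, 1] : Fin 4 → K) 1) *
            (gv (mt 0 c) y0 y1 2 - gv (mt 0 c) y0 y1 3)) +
          s * (((![1, 0, 0, 1] : Fin 4 → K) 0 - (![1, 0, 0, 1] : Fin 4 → K) 1) *
            ((![1, 0, 0, 1] : Fin 4 → K) 2 - (![1, 0, 0, 1] : Fin 4 → K) 3)))
        (be (mt 0 c) - ((![1, 0, 0, 1] : Fin 4 → K) 0 - (![1, 0, 0, 1] : Fin 4 → K) 1)⁻¹ *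
          ((gv (mt 0 c) y0 y1 0 - gv (mt 0 c) y0 y1 3) *
            ((![1, 0, 0, 1] : Fin 4 → K) 1 - (![1, 0, 0, 1] : Fin 4 → K) 2) +
          ((![1, 0, 0, 1] : Fin 4 → K) 0 - (![1, 0, 0, 1] : Fin 4 → K) 3) *
            (gv (mt 0 c) y0 y1 1 - gv (mt 0 c) y0 y1 2)) +
          s * (((![1, 0, 0, 1] : Fin 4 → K) 0 - (![1, 0, 0, 1] : Fin 4 → K) 3) *
            ((![1, 0, 0, 1] : Fin 4 → K) 1 - (![1, 0, 0, 1] : Fin 4 → K) 2))) B = ∑ α : K, cf α c B := by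
    intro y0 y1
    refine Fintype.sum_equiv (Equiv.subLeft (y0 + y1)) _ _ fun s => ?_
    rw [gv_mt, al_mt, be_mt, Equiv.subLeft_apply]
    refine congrArg₂ (fun a b : K => cf a b B) ?_ ?_
    · simp
      ring
    · simp
  rw [Finset.sum_congr rfl fun y0 _ => Finset.sum_congr rfl fun y1 _ => h1 y0 y1]
  rw [const_sum, const_sum]
  ring

/-- The rung on `P2`. -/
theorem R_P2 (c : K) (B : Set (Pt K)) : R (P2 c) B = qK K ^ 2 * ∑ α : K, cf α (c - α) B := by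
  have h0 : ((![0, 1, 0, 1] : Fin 4 → K) 0 - (![0, 1, 0, 1] : Fin 4 → K) 1) ≠ 0 := by
    simp
  change R (G ![0, 1, 0, 1] (mt 0 c)) B = _
  rw [R_G _ _ (mt_symm 0 c) h0 B]
  have h1 : ∀ y0 y1 : K, ∑ s : K,
      cf (al (mt 0 c) - ((![0, 1, 0, 1] : Fin 4 → K) 0 - (![0, 1, 0, 1] : Fin 4 → K) 1)⁻¹ *
          ((gv (mt 0 c) y0 y1 0 - gv (mt 0 c) y0 y1 1) *
            ((![0, 1, 0, 1] : Fin 4 → K) 2 - (![0, 1, 0, 1] : Fin 4 → K) 3) +
          ((![0, 1, 0, 1] : Fin 4 → K) 0 - (![0, 1, 0, 1] : Fin 4 → K) 1) *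
            (gv (mt 0 c) y0 y1 2 - gv (mt 0 c) y0 y1 3)) +
          s * (((![0, 1, 0, 1] : Fin 4 → K) 0 - (![0, 1, 0, 1] : Fin 4 → K) 1) *
            ((![0, 1, 0, 1] : Fin 4 → K) 2 - (![0, 1, 0, 1] : Fin 4 → K) 3)))
        (be (mt 0 c) - ((![0, 1, 0, 1] : Fin 4 → K) 0 - (![0, 1, 0, 1] : Fin 4 → K) 1)⁻¹ *
          ((gv (mt 0 c) y0 y1 0 - gv (mt 0 c) y0 y1 3) *
            ((![0, 1, 0, 1] : Fin 4 → K) 1 - (![0, 1, 0, 1] : Fin 4 → K) 2) +
          ((![0, 1, 0, 1] : Fin 4 → K) 0 - (![0, 1, 0, 1] : Fin 4 → K) 3) *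
            (gv (mt 0 c) y0 y1 1 - gv (mt 0 c) y0 y1 2)) +
          s * (((![0, 1, 0, 1] : Fin 4 → K) 0 - (![0, 1, 0, 1] : Fin 4 → K) 3) *
            ((![0, 1, 0, 1] : Fin 4 → K) 1 - (![0, 1, 0, 1] : Fin 4 → K) 2))) B =
        ∑ α : K, cf α (c - α) B := by
    intro y0 y1
    refine Fintype.sum_equiv (Equiv.subRight (y0 + y1)) _ _ fun s => ?_
    rw [gv_mt, al_mt, be_mt, Equiv.subRight_apply]
    refine congrArg₂ (fun a b : K => cf a b B) ?_ ?_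
    · simp [inv_neg]
      ring
    · simp [inv_neg]
      ring
  rw [Finset.sum_congr rfl fun y0 _ => Finset.sum_congr rfl fun y1 _ => h1 y0 y1]
  rw [const_sum, const_sum]
  ring

end Pool.Agent.PL3
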