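import Pool.Agent.PL3.PIa

/-!
# The planar identity
-/

set_option autoImplicit false

open scoped BigOperators

namespace Pool.Agent.PL3

open Pool.Agent.KG Pool.Agent.P3

variable {K : Type} [Field K] [Fintype K]

/-- The degenerate part of the planar four-cycle. -/
noncomputable def Bs (B : Set (Pt K)) : ℤ := ∑ r : K, ∑ y0 : K, ∑ y1 : K, T r y0 y1 0 B

/-- The degenerate part of `R PI`. -/
noncomputable def Bp (B : Set (Pt K)) : ℤ := ∑ r : K, ∑ y0 : K, ∑ y1 : K, ∑ β : K, T r y0 y1 β B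

/-- Two strands `03|12` with all couplings. -/
noncomputable def B3s (B : Set (Pt K)) : ℤ := ∑ c : K, B3 c B

theorem Bx_eq (B : Set (Pt K)) : Bx B = ∑ r : K, ∑ y0 : K, ∑ y1 : K, T r y0 y1 (-r) B := rfl

theorem sumC (g h : K → K) (b : K → ℤ) :
    ∑ r : K, ∑ y0 : K, ∑ y1 : K, (open Classical in if r ≠ 0 ∧ y0 = g r ∧ y1 = h r then b r else 0) =
      ∑ r : K, b r - b 0 := by
  classical
  have h1 : ∀ r y0 y1 : K, (if r ≠ 0 ∧ y0 = g r ∧ y1 = h r then b r else 0) =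
      if y0 = g r then (if y1 = h r then b r - (if r = 0 then b 0 else 0) else 0) else 0 := by
    intro r y0 y1
    by_cases h2 : y0 = g r
    · by_cases h3 : y1 = h r
      · by_cases h4 : r = 0
        · rw [if_neg (fun h5 => h5.1 h4), if_pos h2, if_pos h3, if_pos h4, h4, sub_self]
        · rw [if_pos ⟨h4, h2, h3⟩, if_pos h2, if_pos h3, if_neg h4, sub_zero]
      · rw [if_neg (fun h5 => h3 h5.2.2), if_pos h2, if_neg h3]
    · rw [if_neg (fun h5 => h2 h5.2.1), if_neg h2]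
  have h2 : ∀ r : K, ∑ y0 : K, ∑ y1 : K, (if r ≠ 0 ∧ y0 = g r ∧ y1 = h r then b r else 0) =
      b r - (if r = 0 then b 0 else 0) := by
    intro r
    rw [Finset.sum_comm]
    simp only [h1, Finset.sum_ite_eq', Finset.mem_univ, if_true]
  rw [Finset.sum_congr rfl fun r _ => h2 r, Finset.sum_sub_distrib, Finset.sum_ite_eq',
    if_pos (Finset.mem_univ _)]

/-- (I3) -/
theorem Bx_Bs (B : Set (Pt K)) : Bx B + (qK K - 1) * Bs B =
    Bp B - (qK K - 2) * B3s B + qK K * (qK K - 2) * B3 0 B := by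
  classical
  have h1 : ∀ r y0 y1 : K, T r y0 y1 (-r) B + (qK K - 1) * T r y0 y1 0 B - ∑ β : K, T r y0 y1 β B =
      (if r ≠ 0 ∧ y0 = (fun _ => 0 : K → K) r ∧ y1 = (fun r => r : K → K) r then
        P2 0 B + (qK K - 1) * P2 r B - ∑ c : K, P2 c B else 0) +
      (if r ≠ 0 ∧ y0 = (fun r => -r : K → K) r ∧ y1 = (fun _ => 0 : K → K) r then
        B3 (-r) B + (qK K - 1) * B3 0 B - ∑ c : K, B3 c B else 0) := by
    intro r y0 y1
    show _ = (if r ≠ 0 ∧ y0 = 0 ∧ y1 = r then _ else 0) + (if r ≠ 0 ∧ y0 = -r ∧ y1 = 0 then _ else 0)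
    by_cases h2 : r ≠ 0 ∧ y0 = 0 ∧ y1 = r
    · obtain ⟨hr, rfl, rfl⟩ := h2
      rw [if_pos ⟨hr, rfl, rfl⟩, if_neg (fun h3 => hr h3.2.2), add_zero]
      simp only [T_P2 _ _ hr]
      rw [add_neg_cancel, add_zero]
      have h4 : ∑ β : K, P2 (y1 + β) B = ∑ c : K, P2 c B :=
        Fintype.sum_equiv (Equiv.addLeft y1) _ _ fun _ => rfl
      rw [h4]
    · rw [if_neg h2, zero_add]
      by_cases h3 : r ≠ 0 ∧ y0 = -r ∧ y1 = 0
      · obtain ⟨hr, rfl, rfl⟩ := h3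
        rw [if_pos ⟨hr, rfl, rfl⟩]
        simp only [T_B3 _ _ hr]
      · rw [if_neg h3]
        have h5 : r = 0 ∨ (¬ (y0 = 0 ∧ y1 = r) ∧ ¬ (y0 = -r ∧ y1 = 0)) := by
          by_cases hr : r = 0
          · exact Or.inl hr
          · exact Or.inr ⟨fun h => h2 ⟨hr, h⟩, fun h => h3 ⟨hr, h⟩⟩
        have h6 : ∀ β : K, T r y0 y1 β B = T r y0 y1 0 B := fun β => T_indep r y0 y1 0 β h5 B
        simp only [h6]
        rw [const_sum]
        ring
  have h2 : Bx B + (qK K - 1) * Bs B - Bp B = ∑ r : K, ∑ y0 : K, ∑ y1 : K,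
      (T r y0 y1 (-r) B + (qK K - 1) * T r y0 y1 0 B - ∑ β : K, T r y0 y1 β B) := by
    rw [Bx_eq]
    unfold Bs Bp
    simp only [Finset.sum_sub_distrib, Finset.sum_add_distrib, Finset.mul_sum]
  have h3 := sumC (fun _ => 0 : K → K) (fun r => r : K → K)
    (fun r => P2 0 B + (qK K - 1) * P2 r B - ∑ c : K, P2 c B)
  have h4 := sumC (fun r => -r : K → K) (fun _ => 0 : K → K)
    (fun r => B3 (-r) B + (qK K - 1) * B3 0 B - ∑ c : K, B3 c B)
  simp only [h1, Finset.sum_add_distrib] at h2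
  rw [h3, h4] at h2
  have h5 : ∑ r : K, B3 (-r) B = ∑ c : K, B3 c B := Fintype.sum_equiv (Equiv.neg K) _ _ fun _ => rfl
  simp only [Finset.sum_sub_distrib, Finset.sum_add_distrib, const_sum, ← Finset.mul_sum, h5,
    neg_zero] at h2
  unfold B3s
  linear_combination h2

open Classical in
private theorem H3_sub (f : K → K → ℤ) (r : K) :
    ∑ y0 : K, ∑ y1 : K, ∑ S : K, (if S = 0 then 0 else
        f (-r - S⁻¹ * (y0 + y1) * -r) (0 + S⁻¹ * ((y0 + -r) * y1))) =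
      ∑ x : K, ∑ y0 : K, ∑ y' : K, (if x + r + y0 + y' = 0 then 0 else
        f (-(x * r * (x + r + y0 + y')⁻¹)) (y0 * y' * (x + r + y0 + y')⁻¹)) := by
  rw [Finset.sum_comm (γ := K) (f := fun x y0 => ∑ y' : K, (if x + r + y0 + y' = 0 then 0 else
        f (-(x * r * (x + r + y0 + y')⁻¹)) (y0 * y' * (x + r + y0 + y')⁻¹)))]
  refine Fintype.sum_equiv (Equiv.subRight r) _ _ fun y0 => ?_
  rw [Finset.sum_comm (γ := K) (f := fun x y' => (if x + r + (Equiv.subRight r) y0 + y' = 0 then 0 else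
        f (-(x * r * (x + r + (Equiv.subRight r) y0 + y')⁻¹))
          ((Equiv.subRight r) y0 * y' * (x + r + (Equiv.subRight r) y0 + y')⁻¹)))]
  refine Finset.sum_congr rfl fun y1 _ => ?_
  refine Fintype.sum_equiv (Equiv.subRight (y0 + y1)) _ _ fun S => ?_
  have h : (Equiv.subRight (y0 + y1)) S + r + (Equiv.subRight r) y0 + y1 = S := by
    show S - (y0 + y1) + r + (y0 - r) + y1 = S
    ring
  rw [h]
  by_cases hS : S = 0
  · rw [if_pos hS, if_pos hS]
  · rw [if_neg hS, if_neg hS]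
    refine congrArg₂ f ?_ ?_
    · show -r - S⁻¹ * (y0 + y1) * -r = -((S - (y0 + y1)) * r * S⁻¹)
      field_simp
      ring
    · show 0 + S⁻¹ * ((y0 + -r) * y1) = (y0 - r) * y1 * S⁻¹
      ring

/-- (I1) -/
theorem R_H3 (B : Set (Pt K)) :
    R H3 B = (qK K ^ 2 - 3 * qK K + 4) * PI B + (qK K ^ 2 - 2 * qK K) * (H1 B + H3 B) - qK K * H2 B +
      qK K ^ 2 * cf 0 0 B + Bs B := by
  classical
  have h1 : R H3 B = ∑ r : K, R (cf r 0) B := R_sum Finset.univ (fun r : K => cf r 0) B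
  rw [h1]
  simp only [R_cf, Finset.sum_add_distrib]
  have h2 : ∑ r : K, ∑ y0 : K, ∑ y1 : K, ∑ S : K, (if S = 0 then 0 else
        cf (r - S⁻¹ * (y0 + y1) * r) (0 + S⁻¹ * ((y0 + r) * y1)) B) =
      (qK K ^ 2 - 3 * qK K + 4) * PI B + (qK K ^ 2 - 2 * qK K) * (H1 B + H3 B) - qK K * H2 B +
      qK K ^ 2 * cf 0 0 B := by
    have h3 := cnt (fun κ κ' : K => cf (-κ) κ' B)
    have h4 : ∑ κ : K, ∑ κ' : K, cf (-κ) κ' B = PI B := by
      unfold PI
      exact Fintype.sum_equiv (Equiv.neg K) _ _ fun _ => rfl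
    have h5 : ∑ κ' : K, cf (-0) κ' B = H1 B := by
      unfold H1
      rw [neg_zero]
    have h6 : ∑ κ : K, cf (-κ) 0 B = H3 B := by
      unfold H3
      exact Fintype.sum_equiv (Equiv.neg K) _ _ fun _ => rfl
    have h7 : ∑ κ : K, cf (-κ) κ B = H2 B := by
      unfold H2
      refine Fintype.sum_equiv (Equiv.neg K) _ _ fun κ => ?_
      show cf (-κ) κ B = cf (-κ) (- -κ) B
      rw [neg_neg]
    have h8 : cf (-0 : K) 0 B = cf 0 0 B := by rw [neg_zero]
    have h9 : ∑ r : K, ∑ y0 : K, ∑ y1 : K, ∑ S : K, (if S = 0 then 0 else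
        cf (r - S⁻¹ * (y0 + y1) * r) (0 + S⁻¹ * ((y0 + r) * y1)) B) =
        ∑ x : K, ∑ r : K, ∑ y : K, ∑ y' : K, (if x + r + y + y' = 0 then 0 else
        (fun κ κ' : K => cf (-κ) κ' B) (x * r * (x + r + y + y')⁻¹)
          (y * y' * (x + r + y + y')⁻¹)) := by
      rw [← Equiv.sum_comp (Equiv.neg K)]
      exact (Finset.sum_congr rfl fun r _ => H3_sub (fun κ β => cf κ β B) r).trans Finset.sum_comm
    rw [h9, h3]
    have h10 : (∑ κ : K, ∑ κ' : K, (fun κ κ' : K => cf (-κ) κ' B) κ κ') = PI B := h4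
    have h11 : (∑ κ' : K, (fun κ κ' : K => cf (-κ) κ' B) 0 κ') = H1 B := h5
    have h12 : (∑ κ : K, (fun κ κ' : K => cf (-κ) κ' B) κ 0) = H3 B := h6
    have h13 : (∑ κ : K, (fun κ κ' : K => cf (-κ) κ' B) κ κ) = H2 B := h7
    rw [h10, h11, h12, h13, h8]
  rw [h2]
  unfold Bs
  ring

open Classical in
private theorem PI_cnt (L : K → ℤ) :
    ∑ α : K, ∑ y0 : K, ∑ y1 : K, ∑ S : K, (if S = 0 then 0 else L (α - S⁻¹ * (y0 + y1) * α)) =
      qK K * (qK K - 1) ^ 2 * ∑ κ : K, L κ + qK K ^ 2 * (qK K - 1) * L 0 := by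
  have h1 : ∀ α S : K, S ≠ 0 → ∑ t : K, L (α - S⁻¹ * t * α) = ∑ u : K, L (α * u) := by
    intro α S hS
    refine Fintype.sum_equiv ((Equiv.mulLeft₀ S⁻¹ (inv_ne_zero hS)).trans (Equiv.subLeft 1)) _ _ fun t => ?_
    show _ = L (α * (1 - S⁻¹ * t))
    refine congrArg L ?_
    ring
  have h2 : ∀ α : K, ∑ u : K, L (α * u) = if α = 0 then qK K * L 0 else ∑ κ : K, L κ := by
    intro α
    by_cases hα : α = 0
    · rw [if_pos hα, hα]
      simp only [zero_mul]
      rw [const_sum]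
    · rw [if_neg hα]
      exact Fintype.sum_equiv (Equiv.mulLeft₀ α hα) _ _ fun _ => rfl
  have h3 : ∀ A : ℤ, ∑ S : K, (if S = 0 then 0 else A) = (qK K - 1) * A := by
    intro A
    have h4 : ∀ S : K, (if S = 0 then 0 else A) = A - if S = 0 then A else 0 := by
      intro S
      split_ifs
      · rw [sub_self]
      · rw [sub_zero]
    rw [Finset.sum_congr rfl fun S _ => h4 S, Finset.sum_sub_distrib, const_sum,
      Finset.sum_ite_eq', if_pos (Finset.mem_univ _)]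
    ring
  have h5 : ∀ α y0 : K, ∑ y1 : K, ∑ S : K, (if S = 0 then 0 else L (α - S⁻¹ * (y0 + y1) * α)) =
      (qK K - 1) * ∑ u : K, L (α * u) := by
    intro α y0
    rw [Finset.sum_comm, ← h3]
    refine Finset.sum_congr rfl fun S _ => ?_
    by_cases hS : S = 0
    · simp only [if_pos hS, Finset.sum_const_zero]
    · simp only [if_neg hS]
      rw [← h1 α S hS]
      exact Fintype.sum_equiv (Equiv.addLeft y0) _ _ fun _ => rfl
  simp only [h5, const_sum]
  rw [← Finset.mul_sum, ← Finset.mul_sum]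
  have h6 : ∑ α : K, ∑ u : K, L (α * u) = (qK K - 1) * ∑ κ : K, L κ + qK K * L 0 := by
    rw [Finset.sum_congr rfl fun α _ => h2 α]
    have h7 : ∀ α : K, (if α = 0 then qK K * L 0 else ∑ κ : K, L κ) =
        (if α = 0 then qK K * L 0 else 0) + (if α = 0 then 0 else ∑ κ : K, L κ) := by
      intro α
      split_ifs
      · rw [add_zero]
      · rw [zero_add]
    rw [Finset.sum_congr rfl fun α _ => h7 α, Finset.sum_add_distrib, h3, Finset.sum_ite_eq',
      if_pos (Finset.mem_univ _)]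
    ring
  rw [h6]
  ring

/-- (I2) -/
theorem R_PI (B : Set (Pt K)) :
    R PI B = qK K * (qK K - 1) ^ 2 * PI B + qK K ^ 2 * (qK K - 1) * H1 B + Bp B := by
  classical
  have h1 : R PI B = ∑ α : K, ∑ β : K, R (cf α β) B := by
    have h2 : R PI B = ∑ α : K, R (fun B => ∑ β : K, cf α β B) B :=
      R_sum Finset.univ (fun (α : K) (B : Set (Pt K)) => ∑ β : K, cf α β B) B
    rw [h2]
    exact Finset.sum_congr rfl fun α _ => R_sum Finset.univ (fun β : K => cf α β) B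
  rw [h1]
  simp only [R_cf, Finset.sum_add_distrib]
  have h3 : ∑ α : K, ∑ β : K, ∑ y0 : K, ∑ y1 : K, T α y0 y1 β B = Bp B := by
    unfold Bp
    refine Finset.sum_congr rfl fun α _ => ?_
    rw [Finset.sum_comm]
    refine Finset.sum_congr rfl fun y0 _ => ?_
    rw [Finset.sum_comm]
  have h4 : ∑ α : K, ∑ β : K, ∑ y0 : K, ∑ y1 : K, ∑ S : K, (if S = 0 then 0 else
        cf (α - S⁻¹ * (y0 + y1) * α) (β + S⁻¹ * ((y0 + α) * y1)) B) =
      ∑ α : K, ∑ y0 : K, ∑ y1 : K, ∑ S : K, (if S = 0 then 0 else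
        (fun κ : K => ∑ β : K, cf κ β B) (α - S⁻¹ * (y0 + y1) * α)) := by
    refine Finset.sum_congr rfl fun α _ => ?_
    rw [Finset.sum_comm]
    refine Finset.sum_congr rfl fun y0 _ => ?_
    rw [Finset.sum_comm]
    refine Finset.sum_congr rfl fun y1 _ => ?_
    rw [Finset.sum_comm]
    refine Finset.sum_congr rfl fun S _ => ?_
    by_cases hS : S = 0
    · simp only [if_pos hS, Finset.sum_const_zero]
    · simp only [if_neg hS]
      exact Fintype.sum_equiv (Equiv.addRight (S⁻¹ * ((y0 + α) * y1))) _ _ fun _ => rfl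
  have h7 := h4.trans (PI_cnt (fun κ : K => ∑ β : K, cf κ β B))
  have h8 : qK K * (qK K - 1) ^ 2 * ∑ κ : K, (fun κ : K => ∑ β : K, cf κ β B) κ +
      qK K ^ 2 * (qK K - 1) * (fun κ : K => ∑ β : K, cf κ β B) 0 =
      qK K * (qK K - 1) ^ 2 * PI B + qK K ^ 2 * (qK K - 1) * H1 B := rfl
  rw [h3, h7, h8]
  ring

open Classical in
/-- The rung on `T r y0 y1 0`. -/
theorem R_T (r y0 y1 : K) (h : y0 + y1 ≠ 0) (B : Set (Pt K)) :
    R (T r y0 y1 0) B = (if r = 0 then qK K ^ 2 * H1 B else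
      if y0 = 0 ∧ y1 = r then 0 else
      if y0 = -r ∧ y1 = 0 then qK K ^ 2 * H3 B else qK K * PI B) +
      (if r ≠ 0 ∧ y0 = (fun _ => 0 : K → K) r ∧ y1 = (fun r => r : K → K) r then
        qK K ^ 2 * ∑ α : K, cf α (r - α) B else 0) := by
  by_cases hr : r = 0
  · have h1 : R (T r y0 y1 0) B = R (G ![y0, -y1, 0, -r] (mt r (-r))) B := by
      show R (G ![y0, -y1, 0, -r] (mt r 0)) B = _
      rw [hr, neg_zero]
    rw [h1, R_G_box r y0 y1 h B, if_pos hr, if_pos hr, if_neg (fun h5 => h5.1 hr), add_zero]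
  · rw [if_neg hr]
    show _ = _ + (if r ≠ 0 ∧ y0 = 0 ∧ y1 = r then _ else 0)
    by_cases h2 : y0 = 0 ∧ y1 = r
    · obtain ⟨rfl, rfl⟩ := h2
      rw [if_pos ⟨rfl, rfl⟩, if_pos ⟨hr, rfl, rfl⟩, zero_add]
      have h3 : T y1 0 y1 0 = P2 y1 := by
        funext B
        rw [T_P2 _ _ hr, add_zero]
      rw [h3, R_P2]
    · rw [if_neg h2, if_neg (fun h5 : r ≠ 0 ∧ y0 = 0 ∧ y1 = r => h2 h5.2), add_zero]
      by_cases h3 : y0 = -r ∧ y1 = 0
      · obtain ⟨rfl, rfl⟩ := h3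
        rw [if_pos ⟨rfl, rfl⟩]
        have h4 : T r (-r) 0 0 = B3 0 := by
          funext B
          rw [T_B3 _ _ hr]
        rw [h4, R_B3]
        rfl
      · rw [if_neg h3]
        have h4 : T r y0 y1 0 = G ![y0, -y1, 0, -r] (mt r (-r)) := by
          funext B
          exact T_indep r y0 y1 (-r) 0 (Or.inr ⟨h2, h3⟩) B
        rw [h4, R_G_box r y0 y1 h B, if_neg hr, if_neg h2, if_neg h3]

theorem sum_T_yy (B : Set (Pt K)) : ∑ r : K, ∑ y : K, T r y (-y) 0 B = Ps01 B := by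
  rw [← sum_G_yy]
  refine Finset.sum_congr rfl fun r _ => Finset.sum_congr rfl fun y _ => ?_
  rw [T_indep r y (-y) (-r) 0 ?_ B]
  · unfold T
    rw [neg_neg]
  · by_cases hr : r = 0
    · exact Or.inl hr
    · refine Or.inr ⟨fun h => hr ?_, fun h => hr ?_⟩
      · rw [← h.2, h.1, neg_zero]
      · have h2 : y = 0 := neg_eq_zero.1 h.2
        rw [h2] at h
        exact (neg_eq_zero.1 h.1.symm)

/-- (I4) -/
theorem R_Bs (B : Set (Pt K)) :
    R Bs B = qK K * (qK K - 1) * (qK K - 2) * (qK K + 1) * PI B + qK K ^ 3 * (qK K - 1) * H1 B +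
      qK K ^ 2 * (PI B - H2 B) + qK K ^ 2 * (qK K - 1) * H3 B + R Ps01 B := by
  classical
  have h1 : R Bs B = ∑ r : K, ∑ y0 : K, ∑ y1 : K, R (T r y0 y1 0) B := by
    have e1 : R Bs B = ∑ r : K, R (fun B => ∑ y0 : K, ∑ y1 : K, T r y0 y1 0 B) B :=
      R_sum Finset.univ (fun (r : K) (B : Set (Pt K)) => ∑ y0 : K, ∑ y1 : K, T r y0 y1 0 B) B
    rw [e1]
    refine Finset.sum_congr rfl fun r _ => ?_
    rw [R_sum Finset.univ (fun (y0 : K) (B : Set (Pt K)) => ∑ y1 : K, T r y0 y1 0 B) B]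
    refine Finset.sum_congr rfl fun y0 _ => ?_
    exact R_sum Finset.univ (fun (y1 : K) (B : Set (Pt K)) => T r y0 y1 0 B) B
  have h2 : R Ps01 B = ∑ r : K, ∑ y : K, R (T r y (-y) 0) B := by
    have e0 : (Ps01 : Set (Pt K) → ℤ) = fun B => ∑ r : K, ∑ y : K, T r y (-y) 0 B := by
      funext B
      exact (sum_T_yy B).symm
    rw [e0]
    rw [R_sum Finset.univ (fun (r : K) (B : Set (Pt K)) => ∑ y : K, T r y (-y) 0 B) B]
    refine Finset.sum_congr rfl fun r _ => ?_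
    exact R_sum Finset.univ (fun (y : K) (B : Set (Pt K)) => T r y (-y) 0 B) B
  obtain ⟨Z, hZ⟩ : ∃ Z : K → K → K → ℤ, ∀ r y0 y1, Z r y0 y1 =
      if r ≠ 0 ∧ y0 = (fun _ => 0 : K → K) r ∧ y1 = (fun r => r : K → K) r then
        qK K ^ 2 * ∑ α : K, cf α (r - α) B else 0 := ⟨_, fun _ _ _ => rfl⟩
  have h3 : ∀ r y0 : K, ∑ y1 : K, R (T r y0 y1 0) B =
      R (T r y0 (-y0) 0) B + (∑ y1 : K, (if y0 + y1 = 0 then 0 else if r = 0 then
      qK K ^ 2 * H1 B else if y0 = 0 ∧ y1 = r then 0 else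
      if y0 = -r ∧ y1 = 0 then qK K ^ 2 * H3 B else qK K * PI B) + ∑ y1 : K, Z r y0 y1) := by
    intro r y0
    rw [← Finset.sum_add_distrib]
    rw [← Finset.add_sum_erase Finset.univ (fun y1 => R (T r y0 y1 0) B)
      (Finset.mem_univ (-y0)), ← Finset.add_sum_erase Finset.univ (fun y1 => (if y0 + y1 = 0 then 0 else
      if r = 0 then qK K ^ 2 * H1 B else if y0 = 0 ∧ y1 = r then 0 else
      if y0 = -r ∧ y1 = 0 then qK K ^ 2 * H3 B else qK K * PI B) + Z r y0 y1)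
      (Finset.mem_univ (-y0))]
    have hz : Z r y0 (-y0) = 0 := by
      rw [hZ, if_neg]
      rintro ⟨h5, h6, h7⟩
      have h8 : y0 = 0 := h6
      have h9 : -y0 = r := h7
      rw [h8, neg_zero] at h9
      exact h5 h9.symm
    rw [if_pos (add_neg_cancel y0), zero_add, hz, zero_add]
    refine congrArg₂ (· + ·) rfl ?_
    refine Finset.sum_congr rfl fun y1 hy1 => ?_
    have h4 : y0 + y1 ≠ 0 := by
      intro h5
      exact (Finset.ne_of_mem_erase hy1) (eq_neg_of_add_eq_zero_right h5)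
    rw [if_neg h4, R_T r y0 y1 h4 B, hZ]
  rw [h1, h2]
  simp only [h3, Finset.sum_add_distrib]
  have h4 := cnt3 (qK K ^ 2 * H1 B) 0 (qK K * PI B) (fun _ : K => qK K ^ 2 * H3 B)
  have h5 : ∑ r : K, ∑ y0 : K, ∑ y1 : K, Z r y0 y1 = qK K ^ 2 * (PI B - H2 B) := by
    simp only [hZ]
    rw [sumC (fun _ => 0 : K → K) (fun r => r : K → K) (fun r => qK K ^ 2 * ∑ α : K, cf α (r - α) B),
      ← Finset.mul_sum]
    have h6 : ∑ r : K, ∑ α : K, cf α (r - α) B = PI B := by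
      unfold PI
      rw [Finset.sum_comm]
      refine Finset.sum_congr rfl fun α _ => ?_
      exact Fintype.sum_equiv (Equiv.subRight α) _ _ fun _ => rfl
    have h7 : ∑ α : K, cf α (0 - α) B = H2 B := by
      unfold H2
      refine Finset.sum_congr rfl fun α _ => ?_
      rw [zero_sub]
    rw [h6, h7]
    ring
  rw [h4, h5, const_sum]
  ring

/-- The planar square without its nondegenerate part. -/
noncomputable def F1 (B : Set (Pt K)) : ℤ :=
  R H3 B - (qK K ^ 2 - 3 * qK K + 4) * PI B - (qK K ^ 2 - 2 * qK K) * (H1 B + H3 B)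

theorem F1_eq (B : Set (Pt K)) : F1 B = -qK K * H2 B + qK K ^ 2 * cf 0 0 B + Bs B := by
  unfold F1
  rw [R_H3]
  ring

theorem R_F1 (B : Set (Pt K)) : R F1 B = -qK K * R H2 B + qK K ^ 2 * R (cf 0 0) B + R Bs B := by
  have h : (F1 : Set (Pt K) → ℤ) = fun B => (-qK K * H2 B + qK K ^ 2 * cf 0 0 B) + Bs B := by
    funext B
    exact F1_eq B
  rw [h, R_add, R_add, R_smul, R_smul]

/-- The combination without `H2` and without the degenerate parts. -/
noncomputable def K2 (B : Set (Pt K)) : ℤ :=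
  -R F1 B + qK K * (qK K - 1) * F1 B +
    (-qK K * (qK K ^ 2 - 2 * qK K) + qK K ^ 2 * (qK K - 1) ^ 2 + qK K ^ 3 * (qK K - 1)) * H1 B +
    qK K ^ 3 * H3 B +
    (-qK K * (qK K ^ 2 - 3 * qK K + 4) + qK K * (qK K - 1) * (qK K - 2) * (qK K + 1) + qK K ^ 2) * PI B +
    qK K ^ 2 * Ps B + R Ps01 B -
    qK K * (R PI B - qK K * (qK K - 1) ^ 2 * PI B - qK K ^ 2 * (qK K - 1) * H1 B) -
    qK K ^ 2 * (qK K - 2) * B3 0 B

theorem K2_eq (B : Set (Pt K)) : K2 B = qK K ^ 3 * cf 0 0 B + (-(qK K * (qK K - 2))) * B3s B := by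
  have h1 := R_F1 B
  have h2 := F1_eq B
  have h3 := R_PI B
  have h4 := Bx_Bs B
  have h5 := R_H2 B
  have h6 := R_c00 B
  have h7 := R_Bs B
  unfold K2
  rw [h1, h2, h3, h5, h6, h7]
  linear_combination (qK K) * h4

theorem R_B3s (B : Set (Pt K)) : R B3s B = qK K ^ 2 * PI B := by
  have h1 : R B3s B = ∑ c : K, R (B3 c) B := R_sum Finset.univ (fun c : K => B3 c) B
  rw [h1]
  simp only [R_B3]
  rw [← Finset.mul_sum]
  unfold PI
  rw [Finset.sum_comm]

/-- The planar identity: the vertex of degree four in terms of planar cubic networks. -/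
theorem planar_identity (B : Set (Pt K)) : qK K ^ 4 * (qK K - 1) * cf 0 0 B =
    R K2 B - qK K ^ 3 * (qK K - 1) ^ 2 * H1 B - qK K ^ 3 * Ps B + qK K ^ 3 * (qK K - 2) * PI B := by
  have h : (K2 : Set (Pt K) → ℤ) = fun B => qK K ^ 3 * cf 0 0 B + (-(qK K * (qK K - 2))) * B3s B := by
    funext B
    exact K2_eq B
  rw [h, R_add, R_smul, R_smul, R_c00, R_B3s]
  ring

end Pool.Agent.PL3
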