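import Pool.Agent.PL3.Ops
import Pool.Agent.PL3.Trail

/-!
# Planar graphs with four ports
-/

set_option autoImplicit false

open scoped BigOperators

namespace Pool.Agent.PL3

open Pool.Agent.KG Pool.Agent.P3

/-- MODULE ROT.  Rotation of the ports: `g' k = g (k + 1)`, `finRotate 4 k = k + 1` (`finRotate_succ_apply`); for a
currents vector `j` of the rotated ports use `j'` with `j' (k + 1) = j k`, `j' = j ∘ (finRotate 4).symm`
(`Equiv.sum_comp`). -/
theorem plN_rot {V E : Type} [Fintype E] (s t : E → V) (a : Fin 4 → V) (h : PlN s t a) :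
    PlN s t (a ∘ finRotate 4) := by
  classical
  obtain ⟨D, hD, l, r, g, h⟩ := h
  refine ⟨D, hD, l, r, fun k => g (k + 1), fun x j => ?_⟩
  have hk : ∀ k : Fin 4, finRotate 4 k = k + 1 := fun k => finRotate_apply k
  have hs : ∀ v, (∑ k, @ite ℚ ((a ∘ finRotate 4) k = v) (Classical.propDecidable _) (j k) 0) =
      ∑ k, @ite ℚ (a k = v) (Classical.propDecidable _) ((j ∘ (finRotate 4).symm) k) 0 := by
    intro v
    rw [← Equiv.sum_comp (finRotate 4) (fun k => @ite ℚ (a k = v) (Classical.propDecidable _)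
      ((j ∘ (finRotate 4).symm) k) 0)]
    refine Finset.sum_congr rfl fun k _ => ?_
    simp only [Function.comp_apply, Equiv.symm_apply_apply]
  constructor
  · intro h1
    obtain ⟨φ, h2, h3⟩ := (h x (j ∘ (finRotate 4).symm)).1 (fun v => (h1 v).trans (hs v))
    refine ⟨φ, h2, fun k => ?_⟩
    have h4 := h3 (finRotate 4 k)
    simp only [Function.comp_apply, Equiv.symm_apply_apply] at h4
    rw [hk] at h4
    exact h4
  · rintro ⟨φ, h2, h3⟩ v
    refine ((h x (j ∘ (finRotate 4).symm)).2 ⟨φ, h2, fun k => ?_⟩ v).trans (hs v).symm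
    obtain ⟨k', rfl⟩ := (finRotate 4).surjective k
    simp only [Function.comp_apply, Equiv.symm_apply_apply]
    rw [h3, hk]

private theorem RUN_ports {V : Type} (a : Fin 4 → V) (w : Fin 4 → ℚ) :
    (∀ v : V, (∑ k, @ite ℚ (rgA a k = Sum.inl v) (Classical.propDecidable _) (w k) 0) =
      open Classical in ((if a 2 = v then w 2 else 0) + if a 3 = v then w 3 else 0)) ∧
    ((∑ k, @ite ℚ (rgA a k = Sum.inr 0) (Classical.propDecidable _) (w k) 0) = w 0) ∧
    (∑ k, @ite ℚ (rgA a k = Sum.inr 1) (Classical.propDecidable _) (w k) 0) = w 1 := by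
  classical
  have h0 : rgA a 0 = Sum.inr 0 := rfl
  have h1 : rgA a 1 = Sum.inr 1 := rfl
  have h2 : rgA a 2 = Sum.inl (a 2) := rfl
  have h3 : rgA a 3 = Sum.inl (a 3) := rfl
  refine ⟨fun v => ?_, ?_, ?_⟩
  · rw [Fin.sum_univ_four, h0, h1, h2, h3]
    simp
  · rw [Fin.sum_univ_four, h0, h1, h2, h3]
    simp
  · rw [Fin.sum_univ_four, h0, h1, h2, h3]
    simp

/-- MODULE RUN.  Two legs and a rung.

Proof.  The dual graph on `Option D` (`none` is the new face between the ports `0`, `1`; the old face `g 1` between them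
becomes the inner face of the rung): `l' = Sum.elim (some ∘ l) ![some (g 1), some (g 2), none]`,
`r' = Sum.elim (some ∘ r) ![some (g 0), some (g 1), some (g 1)]`, `g' = ![some (g 0), none, some (g 2), some (g 3)]`.
For `x' : E ⊕ Fin 3 → ℚ` and `j'` put `x = x' ∘ inl`, `y = x' ∘ inr`, `j = ![y 0, y 1, j' 2, j' 3]`.  By `P3.net_rg_inl`,
`P3.net_rg_inr` (and `rgA a = ![inr 0, inr 1, inl (a 2), inl (a 3)]`) the equations for `x'`, `j'` are: `net s t x v =
∑ k, if a k = v then j k else 0` for all `v`, `y 0 + y 2 = j' 0`, `y 1 - y 2 = j' 1`.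
(→) `h` gives `φ`; extend it by `φ' none = φ (g 0) + j' 0`.  Then `j' 0 = φ' none - φ (g 0)`, `y 2 = j' 0 - y 0 = φ' none - φ (g 1)`,
`j' 1 = y 1 - y 2 = φ (g 2) - φ' none`.  (←) The same equations. -/
theorem plN_rung {V E : Type} [Fintype E] (s t : E → V) (a : Fin 4 → V) (h : PlN s t a) :
    PlN (rgS s) (rgT t a) (rgA a) := by
  classical
  obtain ⟨D, hD, l, r, g, h⟩ := h
  refine ⟨Option D, inferInstance, Sum.elim (fun e => some (l e)) ![some (g 1), some (g 2), none],
    Sum.elim (fun e => some (r e)) ![some (g 0), some (g 1), some (g 1)],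
    ![some (g 0), none, some (g 2), some (g 3)], fun x' j' => ?_⟩
  obtain ⟨x, y, rfl⟩ : ∃ (x : E → ℚ) (y : Fin 3 → ℚ), x' = Sum.elim x y :=
    ⟨fun e => x' (Sum.inl e), fun k => x' (Sum.inr k), (Sum.elim_comp_inl_inr x').symm⟩
  obtain ⟨p1, p2, p3⟩ := RUN_ports a j'
  have key : (∀ v, net (rgS s) (rgT t a) (Sum.elim x y) v =
      ∑ k, @ite ℚ (rgA a k = v) (Classical.propDecidable _) (j' k) 0) ↔
      (∀ v, net s t x v = ∑ k, @ite ℚ (a k = v) (Classical.propDecidable _)
        ((![y 0, y 1, j' 2, j' 3] : Fin 4 → ℚ) k) 0) ∧ y 0 + y 2 = j' 0 ∧ y 1 - y 2 = j' 1 := by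
    have hv : ∀ v, (∑ k, @ite ℚ (a k = v) (Classical.propDecidable _)
        ((![y 0, y 1, j' 2, j' 3] : Fin 4 → ℚ) k) 0) =
        (if a 0 = v then y 0 else 0) + (if a 1 = v then y 1 else 0) + (if a 2 = v then j' 2 else 0) +
          (if a 3 = v then j' 3 else 0) := by
      intro v
      rw [Fin.sum_univ_four]
      rfl
    constructor
    · intro h1
      refine ⟨fun v => ?_, ?_, ?_⟩
      · have h2 := h1 (Sum.inl v)
        rw [net_rg_inl, p1] at h2
        rw [hv]
        linarith
      · exact (net_rg_inr s t a x y).1.symm.trans ((h1 (Sum.inr 0)).trans p2)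
      · exact (net_rg_inr s t a x y).2.symm.trans ((h1 (Sum.inr 1)).trans p3)
    · rintro ⟨h1, h2, h3⟩ (v | k)
      · have h4 := h1 v
        rw [hv] at h4
        rw [net_rg_inl, p1]
        linarith
      · fin_cases k
        · exact (net_rg_inr s t a x y).1.trans (h2.trans p2.symm)
        · exact (net_rg_inr s t a x y).2.trans (h3.trans p3.symm)
  rw [key, h]
  constructor
  · rintro ⟨⟨φ, h1, h2⟩, h3, h4⟩
    have e0 : y 0 = φ (g 1) - φ (g 0) := h2 0
    have e1 : y 1 = φ (g 2) - φ (g 1) := h2 1
    have e2 : j' 2 = φ (g 3) - φ (g 2) := h2 2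
    have e3 : j' 3 = φ (g 0) - φ (g 3) := h2 3
    refine ⟨fun o => o.elim (φ (g 0) + j' 0) φ, ?_, ?_⟩
    · rintro (e | k)
      · exact h1 e
      · fin_cases k
        · exact e0
        · exact e1
        · show y 2 = φ (g 0) + j' 0 - φ (g 1)
          linarith
    · intro k
      fin_cases k
      · show j' 0 = φ (g 0) + j' 0 - φ (g 0)
        ring
      · show j' 1 = φ (g 2) - (φ (g 0) + j' 0)
        linarith
      · exact e2
      · exact e3
  · rintro ⟨φ, h1, h2⟩
    have e0 : y 0 = φ (some (g 1)) - φ (some (g 0)) := h1 (Sum.inr 0)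
    have e1 : y 1 = φ (some (g 2)) - φ (some (g 1)) := h1 (Sum.inr 1)
    have e4 : y 2 = φ none - φ (some (g 1)) := h1 (Sum.inr 2)
    have f0 : j' 0 = φ none - φ (some (g 0)) := h2 0
    have f1 : j' 1 = φ (some (g 2)) - φ none := h2 1
    have f2 : j' 2 = φ (some (g 3)) - φ (some (g 2)) := h2 2
    have f3 : j' 3 = φ (some (g 0)) - φ (some (g 3)) := h2 3
    refine ⟨⟨fun d => φ (some d), fun e => h1 (Sum.inl e), fun k => ?_⟩, ?_, ?_⟩
    · fin_cases k
      · exact e0
      · exact e1
      · exact f2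
      · exact f3
    · linarith
    · linarith

private def CLP_k (c : Fin 2) : ℚ := if c = 0 then 1 else 0

private theorem CLP_iff (n : Fin 4 → Fin 2) (f : Fin 4 → ℚ) :
    (∀ w, ∑ k, (if n k = w then f (k + 1) - f k else 0) = 0) ↔
      CLP_k (n 0) * (f 1 - f 0) + CLP_k (n 1) * (f 2 - f 1) + CLP_k (n 2) * (f 3 - f 2) +
        CLP_k (n 3) * (f 0 - f 3) = 0 := by
  have hb : ∀ c : Fin 2, c = 0 ∨ c = 1 := by decide
  have hs : ∀ w, ∑ k, (if n k = w then f (k + 1) - f k else 0) =
      (if n 0 = w then f 1 - f 0 else 0) + (if n 1 = w then f 2 - f 1 else 0) +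
        (if n 2 = w then f 3 - f 2 else 0) + (if n 3 = w then f 0 - f 3 else 0) := by
    intro w
    rw [Fin.sum_univ_four]
    rfl
  have e0 : ∀ (c : Fin 2) (x : ℚ), (if c = 0 then x else 0) = CLP_k c * x := by
    intro c x
    unfold CLP_k
    split_ifs
    · rw [one_mul]
    · rw [zero_mul]
  have e1 : ∀ (c : Fin 2) (x : ℚ), (if c = 1 then x else 0) = x - CLP_k c * x := by
    intro c x
    rcases hb c with rfl | rfl
    · rw [if_neg (by decide)]
      show 0 = x - 1 * x
      ring
    · rw [if_pos rfl]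
      show x = x - 0 * x
      ring
  constructor
  · intro h
    have h1 := h 0
    rw [hs, e0, e0, e0, e0] at h1
    exact h1
  · intro h w
    rcases hb w with rfl | rfl
    · rw [hs, e0, e0, e0, e0]
      exact h
    · rw [hs, e1, e1, e1, e1]
      linarith

/-- MODULE CLP (1).  The noncrossing patterns.

Proof.  `n` is one of `14` functions (`n 0`, …, `n 3 : Fin 2`, not constant); two are excluded.  If exactly one value `n k` is
different from the others: `p = k + 1`, `q = k`; if `n 0 = n 1`, `n 2 = n 3`: `p = 2`, `q = 0`; if `n 1 = n 2`, `n 3 = n 0`: `p = 3`,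
`q = 1`.  In each case the sums telescope: `constructor`, `linarith`. -/
theorem pattern (n : Fin 4 → Fin 2) (hn : Function.Surjective n) (hc : ¬ (n 0 = n 2 ∧ n 1 = n 3)) :
    ∃ p q : Fin 4, ∀ f : Fin 4 → ℚ, (∀ w, ∑ k, (if n k = w then f (k + 1) - f k else 0) = 0) ↔ f p = f q := by
  have hb : ∀ c : Fin 2, c = 0 ∨ c = 1 := by decide
  have hs0 : ∃ k, n k = 0 := hn 0
  have hs1 : ∃ k, n k = 1 := hn 1
  have k0 : CLP_k 0 = 1 := rfl
  have k1 : CLP_k 1 = 0 := rfl
  rcases hb (n 0) with h0 | h0 <;> rcases hb (n 1) with h1 | h1 <;> rcases hb (n 2) with h2 | h2 <;>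
    rcases hb (n 3) with h3 | h3
  · exfalso
    obtain ⟨k, hk⟩ := hs1
    fin_cases k
    · exact absurd (h0.symm.trans hk) (by decide)
    · exact absurd (h1.symm.trans hk) (by decide)
    · exact absurd (h2.symm.trans hk) (by decide)
    · exact absurd (h3.symm.trans hk) (by decide)
  · refine ⟨0, 3, fun f => (CLP_iff n f).trans ?_⟩
    rw [h0, h1, h2, h3, k0, k1]
    constructor <;> intro h <;> linarith
  · refine ⟨3, 2, fun f => (CLP_iff n f).trans ?_⟩
    rw [h0, h1, h2, h3, k0, k1]
    constructor <;> intro h <;> linarith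
  · refine ⟨2, 0, fun f => (CLP_iff n f).trans ?_⟩
    rw [h0, h1, h2, h3, k0, k1]
    constructor <;> intro h <;> linarith
  · refine ⟨2, 1, fun f => (CLP_iff n f).trans ?_⟩
    rw [h0, h1, h2, h3, k0, k1]
    constructor <;> intro h <;> linarith
  · exact absurd ⟨h0.trans h2.symm, h1.trans h3.symm⟩ hc
  · refine ⟨3, 1, fun f => (CLP_iff n f).trans ?_⟩
    rw [h0, h1, h2, h3, k0, k1]
    constructor <;> intro h <;> linarith
  · refine ⟨1, 0, fun f => (CLP_iff n f).trans ?_⟩
    rw [h0, h1, h2, h3, k0, k1]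
    constructor <;> intro h <;> linarith
  · refine ⟨1, 0, fun f => (CLP_iff n f).trans ?_⟩
    rw [h0, h1, h2, h3, k0, k1]
    constructor <;> intro h <;> linarith
  · refine ⟨3, 1, fun f => (CLP_iff n f).trans ?_⟩
    rw [h0, h1, h2, h3, k0, k1]
    constructor <;> intro h <;> linarith
  · exact absurd ⟨h0.trans h2.symm, h1.trans h3.symm⟩ hc
  · refine ⟨2, 1, fun f => (CLP_iff n f).trans ?_⟩
    rw [h0, h1, h2, h3, k0, k1]
    constructor <;> intro h <;> linarith
  · refine ⟨2, 0, fun f => (CLP_iff n f).trans ?_⟩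
    rw [h0, h1, h2, h3, k0, k1]
    constructor <;> intro h <;> linarith
  · refine ⟨3, 2, fun f => (CLP_iff n f).trans ?_⟩
    rw [h0, h1, h2, h3, k0, k1]
    constructor <;> intro h <;> linarith
  · refine ⟨0, 3, fun f => (CLP_iff n f).trans ?_⟩
    rw [h0, h1, h2, h3, k0, k1]
    constructor <;> intro h <;> linarith
  · exfalso
    obtain ⟨k, hk⟩ := hs0
    fin_cases k
    · exact absurd (h0.symm.trans hk) (by decide)
    · exact absurd (h1.symm.trans hk) (by decide)
    · exact absurd (h2.symm.trans hk) (by decide)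
    · exact absurd (h3.symm.trans hk) (by decide)

/-- MODULE CLP (2).  Closing of the ports.

Proof.  `p`, `q` of `pattern`; `D' = Quot (fun a b => a = g p ∧ b = g q)`.  The edge `inr k` has the faces `g (k + 1)`, `g k`
(images in `D'`).  By `P3.net_clo_inl`, `P3.net_clo_inr` a current `Sum.elim x j` is a cycle iff `net s t x v = ∑ k, if a k = v
then j k else 0` for all `v` and `∑ k, (if n k = w then j k else 0) = 0` for all `w`.  (→) `h` gives `φ` with
`j k = φ (g (k + 1)) - φ (g k)`, and `pattern` for `f = φ ∘ g` gives `φ (g p) = φ (g q)`: `Quot.lift`.  (←) `φ ∘ Quot.mk _`. -/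
theorem pl_clo {V E : Type} [Fintype E] (s t : E → V) (a : Fin 4 → V) (n : Fin 4 → Fin 2)
    (hn : Function.Surjective n) (hc : ¬ (n 0 = n 2 ∧ n 1 = n 3)) (h : PlN s t a) :
    Pl (clS s n) (clT (Fin 2) t a) := by
  classical
  obtain ⟨D, hD, l, r, g, h⟩ := h
  obtain ⟨p, q, hpq⟩ := pattern n hn hc
  let R' : D → D → Prop := fun a b => a = g p ∧ b = g q
  refine ⟨Quot R', inferInstance, Sum.elim (fun e => Quot.mk _ (l e)) (fun k => Quot.mk _ (g (k + 1))),
    Sum.elim (fun e => Quot.mk _ (r e)) (fun k => Quot.mk _ (g k)), fun z => ?_⟩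
  obtain ⟨x, j, rfl⟩ : ∃ (x : E → ℚ) (j : Fin 4 → ℚ), z = Sum.elim x j :=
    ⟨fun e => z (Sum.inl e), fun k => z (Sum.inr k), (Sum.elim_comp_inl_inr z).symm⟩
  have key : (∀ v, net (clS s n) (clT (Fin 2) t a) (Sum.elim x j) v = 0) ↔
      (∀ v, net s t x v = ∑ k, @ite ℚ (a k = v) (Classical.propDecidable _) (j k) 0) ∧
        ∀ w, ∑ k, (if n k = w then j k else 0) = 0 := by
    constructor
    · intro h1
      refine ⟨fun v => ?_, fun w => ?_⟩
      · have h2 := h1 (Sum.inl v)
        rw [net_clo_inl] at h2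
        exact sub_eq_zero.1 h2
      · have h2 := h1 (Sum.inr w)
        rw [net_clo_inr] at h2
        exact h2
    · rintro ⟨h1, h2⟩ (v | w)
      · rw [net_clo_inl]
        exact sub_eq_zero.2 (h1 v)
      · rw [net_clo_inr]
        exact h2 w
  rw [key, h]
  constructor
  · rintro ⟨⟨φ, h1, h2⟩, h3⟩
    have h4 : φ (g p) = φ (g q) := by
      refine (hpq (fun k => φ (g k))).1 fun w => ?_
      refine Eq.trans (Finset.sum_congr rfl fun k _ => ?_) (h3 w)
      rw [h2]
    have h5 : ∀ a b, R' a b → φ a = φ b := by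
      rintro a b ⟨rfl, rfl⟩
      exact h4
    refine ⟨Quot.lift φ h5, ?_⟩
    rintro (e | k)
    · exact h1 e
    · exact h2 k
  · rintro ⟨φ, h1⟩
    have h2 : ∀ k, j k = φ (Quot.mk _ (g (k + 1))) - φ (Quot.mk _ (g k)) := fun k => h1 (Sum.inr k)
    refine ⟨⟨fun d => φ (Quot.mk _ d), fun e => h1 (Sum.inl e), h2⟩, fun w => ?_⟩
    have h3 := (hpq (fun k => φ (Quot.mk _ (g k)))).2 (congrArg φ (Quot.sound ⟨rfl, rfl⟩)) w
    refine Eq.trans (Finset.sum_congr rfl fun k _ => ?_) h3
    rw [h2]

/-- MODULE CY4.  The cyclic order of the four edges at a vertex.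

Proof.  `A = Finset.univ.filter (fun e => s e = v ∨ t e = v)` has `4` elements (no loops), `bal` says that it is balanced for
`p = tl s l r v`, `q = hd s l r v`; `trail3`.  In the second case let `e3` be the fourth element of `A`.  From `bal`, for all
`φ`: `φ (q e3) - φ (p e3) = φ (p e0) - φ (q e2)`.  If `q e2 ≠ p e0`: `p e3 = q e2` and `q e3 = p e0` (take indicators), `b = ![e0, e1, e2,
e3]`, `l' = l`, `r' = r`.  If `q e2 = p e0`: then `p e3 = q e3`, that is `l e3 = r e3`; let `l'`, `r'` be `l`, `r` with the value `p e0` at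
`e3` (`Function.update`); the coboundaries do not change, so `Du s t l' r'`. -/
theorem cyc4 {V E D : Type} [Fintype E] (s t : E → V) (hl : LL s t) (l r : E → D) (h : Du s t l r) (v : V)
    (hv : deg s t v = 4) :
    (∃ J : Finset E, (∀ e ∈ J, s e = v ∨ t e = v) ∧ J.card = 2 ∧
      ∀ φ : D → ℚ, ∑ e ∈ J, (φ (hd s l r v e) - φ (tl s l r v e)) = 0) ∨
    ∃ (l' r' : E → D) (b : Fin 4 ≃ {e // s e = v ∨ t e = v}), Du s t l' r' ∧
      ∀ k, hd s l' r' v (b k).1 = tl s l' r' v (b (k + 1)).1 := by
  classical
  let A : Finset E := Finset.univ.filter (fun e => s e = v ∨ t e = v)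
  have hmem : ∀ e, e ∈ A ↔ s e = v ∨ t e = v := fun e => by simp [A]
  have hA4 : A.card = 4 := by
    have h1 : {e | s e = v ∨ t e = v}.ncard = 4 := by
      have h2 : {e | s e = v ∨ t e = v} = {e | s e = v} ∪ {e | t e = v} := rfl
      rw [h2, Set.ncard_union_eq, ← hv]
      · rfl
      · rw [Set.disjoint_left]
        intro e h3 h4
        exact hl e (h3.trans h4.symm)
    have h2 : {e | s e = v ∨ t e = v} = (A : Set E) := by
      ext e
      exact (hmem e).symm
    rw [h2, Set.ncard_coe_finset] at h1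
    exact h1
  have hbal : ∀ φ : D → ℚ, ∑ e ∈ A, (φ (hd s l r v e) - φ (tl s l r v e)) = 0 := bal s t hl l r h v
  rcases trail3 A (tl s l r v) (hd s l r v) hbal (by omega) with
    ⟨J, hJ, hJc, hJs⟩ | ⟨e0, he0, e1, he1, e2, he2, h01, h02, h12, q0, q1⟩
  · exact Or.inl ⟨J, fun e he => (hmem e).1 (hJ he), hJc, hJs⟩
  right
  have hB : ({e0, e1, e2} : Finset E) ⊆ A := by
    intro e he
    rw [Finset.mem_insert, Finset.mem_insert, Finset.mem_singleton] at he
    rcases he with rfl | rfl | rfl
    · exact he0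
    · exact he1
    · exact he2
  have hB3 : ({e0, e1, e2} : Finset E).card = 3 := Finset.card_eq_three.2 ⟨e0, e1, e2, h01, h02, h12, rfl⟩
  have hc1 : (A \ {e0, e1, e2}).card = 1 := by
    rw [Finset.card_sdiff_of_subset hB, hA4, hB3]
  obtain ⟨e3, he3⟩ := Finset.card_eq_one.1 hc1
  have he3' : e3 ∈ A \ {e0, e1, e2} := by
    rw [he3]
    exact Finset.mem_singleton_self e3
  rw [Finset.mem_sdiff, Finset.mem_insert, Finset.mem_insert, Finset.mem_singleton, not_or, not_or] at he3'
  obtain ⟨he3A, h30, h31, h32⟩ := he3'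
  have hsum : ∀ φ : D → ℚ, φ (hd s l r v e3) - φ (tl s l r v e3) +
      (φ (hd s l r v e2) - φ (tl s l r v e0)) = 0 := by
    intro φ
    have h1 := hbal φ
    rw [← Finset.sum_sdiff hB, he3, Finset.sum_singleton, Finset.sum_insert, Finset.sum_insert,
      Finset.sum_singleton, q0, q1] at h1
    · linarith
    · rw [Finset.mem_singleton]
      exact h12
    · rw [Finset.mem_insert, Finset.mem_singleton, not_or]
      exact ⟨h01, h02⟩
  obtain ⟨l', r', hdu, hsame, ht3, hh3⟩ : ∃ l' r' : E → D, Du s t l' r' ∧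
      (∀ e, e ≠ e3 → l' e = l e ∧ r' e = r e) ∧ tl s l' r' v e3 = hd s l r v e2 ∧
        hd s l' r' v e3 = tl s l r v e0 := by
    by_cases hq : hd s l r v e2 = tl s l r v e0
    · have heq : l e3 = r e3 := by
        by_contra hne
        have h1 : hd s l r v e3 ≠ tl s l r v e3 := by
          unfold hd tl
          by_cases h2 : s e3 = v
          · rw [if_pos h2, if_pos h2]
            exact hne
          · rw [if_neg h2, if_neg h2]
            exact fun h3 => hne h3.symm
        have h2 := hsum (fun d => if d = hd s l r v e3 then 1 else 0)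
        rw [if_pos rfl, if_neg h1.symm, hq] at h2
        linarith
      refine ⟨Function.update l e3 (tl s l r v e0), Function.update r e3 (tl s l r v e0), ?_, ?_, ?_, ?_⟩
      · intro x
        rw [h x]
        refine exists_congr fun φ => forall_congr' fun e => ?_
        by_cases he : e = e3
        · rw [he, Function.update_self, Function.update_self, heq, sub_self, sub_self]
        · rw [Function.update_of_ne he, Function.update_of_ne he]
      · intro e he
        exact ⟨Function.update_of_ne he _ _, Function.update_of_ne he _ _⟩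
      · unfold tl
        rw [Function.update_self, Function.update_self, ite_self]
        exact hq.symm
      · unfold hd
        rw [Function.update_self, Function.update_self, ite_self]
    · refine ⟨l, r, h, fun e _ => ⟨rfl, rfl⟩, ?_, ?_⟩
      · by_contra hne
        have h1 := hsum (fun d => if d = hd s l r v e2 then 1 else 0)
        rw [if_neg hne, if_pos rfl,
          if_neg (show ¬ tl s l r v e0 = hd s l r v e2 from fun h2 => hq h2.symm)] at h1
        split_ifs at h1 <;> linarith
      · by_contra hne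
        have h1 := hsum (fun d => if d = tl s l r v e0 then 1 else 0)
        rw [if_neg hne, if_neg hq, if_pos rfl] at h1
        split_ifs at h1 <;> linarith
  let c : Fin 4 → E := ![e0, e1, e2, e3]
  have hcA : ∀ k, s (c k) = v ∨ t (c k) = v := by
    intro k
    fin_cases k
    · exact (hmem e0).1 he0
    · exact (hmem e1).1 he1
    · exact (hmem e2).1 he2
    · exact (hmem e3).1 he3A
  have hinj : ∀ i j, c i = c j → i = j := by
    intro i j hij
    fin_cases i <;> fin_cases j <;>
      first
        | rfl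
        | exact absurd hij h01
        | exact absurd hij.symm h01
        | exact absurd hij h02
        | exact absurd hij.symm h02
        | exact absurd hij h12
        | exact absurd hij.symm h12
        | exact absurd hij h30
        | exact absurd hij.symm h30
        | exact absurd hij h31
        | exact absurd hij.symm h31
        | exact absurd hij h32
        | exact absurd hij.symm h32
  have hsurj : ∀ e, s e = v ∨ t e = v → ∃ k, c k = e := by
    intro e he
    by_cases h1 : e ∈ ({e0, e1, e2} : Finset E)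
    · rw [Finset.mem_insert, Finset.mem_insert, Finset.mem_singleton] at h1
      rcases h1 with rfl | rfl | rfl
      · exact ⟨0, rfl⟩
      · exact ⟨1, rfl⟩
      · exact ⟨2, rfl⟩
    · have h2 : e ∈ A \ {e0, e1, e2} := Finset.mem_sdiff.2 ⟨(hmem e).2 he, h1⟩
      rw [he3, Finset.mem_singleton] at h2
      exact ⟨3, h2.symm⟩
  have hbij : Function.Bijective (fun k : Fin 4 => (⟨c k, hcA k⟩ : {e // s e = v ∨ t e = v})) := by
    constructor
    · intro i j hij
      exact hinj i j (congrArg Subtype.val hij)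
    · rintro ⟨e, he⟩
      obtain ⟨k, hk⟩ := hsurj e he
      exact ⟨k, Subtype.ext hk⟩
  have hhd : ∀ e, e ≠ e3 → hd s l' r' v e = hd s l r v e := by
    intro e he
    unfold hd
    rw [(hsame e he).1, (hsame e he).2]
  have htl : ∀ e, e ≠ e3 → tl s l' r' v e = tl s l r v e := by
    intro e he
    unfold tl
    rw [(hsame e he).1, (hsame e he).2]
  refine ⟨l', r', Equiv.ofBijective _ hbij, hdu, fun k => ?_⟩
  fin_cases k
  · show hd s l' r' v e0 = tl s l' r' v e1
    rw [hhd e0 (fun h1 => h30 h1.symm), htl e1 (fun h1 => h31 h1.symm), q0]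
  · show hd s l' r' v e1 = tl s l' r' v e2
    rw [hhd e1 (fun h1 => h31 h1.symm), htl e2 (fun h1 => h32 h1.symm), q1]
  · show hd s l' r' v e2 = tl s l' r' v e3
    rw [hhd e2 (fun h1 => h32 h1.symm), ht3]
  · show hd s l' r' v e3 = tl s l' r' v e0
    rw [hh3, htl e0 (fun h1 => h30 h1.symm)]

open Classical in
private theorem EXP_deg {V E : Type} [Fintype E] (s t : E → V) (v : V) :
    deg s t v = ∑ e, ((if s e = v then 1 else 0) + if t e = v then 1 else 0) := by
  have h : ∀ f : E → V, {e | f e = v}.ncard = ∑ e, if f e = v then 1 else 0 := by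
    intro f
    rw [Set.ncard_eq_toFinset_card', Finset.sum_boole, Nat.cast_id]
    congr 1
    ext e
    simp
  unfold deg
  rw [h s, h t, Finset.sum_add_distrib]

private theorem EXP_flip {V E : Type} [Fintype E] (s t s' t' : E → V)
    (h : ∀ e, (s' e = s e ∧ t' e = t e) ∨ (s' e = t e ∧ t' e = s e)) (v : V) : deg s' t' v = deg s t v := by
  classical
  rw [EXP_deg, EXP_deg]
  refine Finset.sum_congr rfl fun e _ => ?_
  rcases h e with ⟨h1, h2⟩ | ⟨h1, h2⟩
  · rw [h1, h2]
  · rw [h1, h2, add_comm]

private theorem EXP_net {V W E E1 : Type} [Fintype E] [Fintype E1] (f : W ≃ V) (g : E1 ≃ E)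
    (s1 t1 : E1 → W) (s t : E → V) (z : E1 → ℚ) (y : E → ℚ)
    (h : ∀ o, (s (g o) = f (s1 o) ∧ t (g o) = f (t1 o) ∧ y (g o) = z o) ∨
      (s (g o) = f (t1 o) ∧ t (g o) = f (s1 o) ∧ y (g o) = - z o)) (w : W) :
    net s t y (f w) = net s1 t1 z w := by
  classical
  unfold net
  rw [← Finset.sum_sub_distrib, ← Finset.sum_sub_distrib, ← Equiv.sum_comp g]
  refine Finset.sum_congr rfl fun o _ => ?_
  rcases h o with ⟨h1, h2, h3⟩ | ⟨h1, h2, h3⟩
  · simp only [h1, h2, h3, f.injective.eq_iff]
  · simp only [h1, h2, h3, f.injective.eq_iff]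
    split_ifs <;> ring

/-- MODULE EXP.  A vertex of degree `4` is taken out (planar version of `P3.exists_ports`, which has an arbitrary
numbering `b`; copy its proof).

Proof of `PlN s' t' a`.  `V' = {u // u ≠ v}`, `E' = {e // ¬ (s e = v ∨ t e = v)}`, `a k` is the end of `b k` different from `v`.  The faces:
`l`, `r` on `E'`, `g k = tl s l r v (b k)`.  Let `x : E' → ℚ`, `j : Fin 4 → ℚ`; extend `x` to `y : E → ℚ` by `y (b k) = j k` if
`s (b k) = v` and `- j k` if not.  `net s t y u = net s' t' x u - ∑ k, if a k = u then j k else 0` for `u ≠ v`, and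
`net s t y v = ∑ k, j k`, which is `0` if all the others are `0` (`P3.sum_net`).  So the equations for `x`, `j` say that `y` is a
cycle, i.e. a coboundary; and `y (b k) = φ (l (b k)) - φ (r (b k))` is `j k = φ (hd (b k)) - φ (tl (b k)) = φ (g (k + 1)) - φ (g k)`. -/
theorem exists_portsP {V E D : Type} [Fintype V] [Fintype E] [Finite D] (s t : E → V) (hl : LL s t)
    (l r : E → D) (h : Du s t l r) (v : V) (b : Fin 4 ≃ {e // s e = v ∨ t e = v})
    (hb : ∀ k, hd s l r v (b k).1 = tl s l r v (b (k + 1)).1) :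
    ∃ (V' E' : Type) (_ : Fintype V') (_ : Fintype E') (s' t' : E' → V')
      (a : Fin 4 → V') (f : V' ⊕ Fin 1 ≃ V), LL s' t' ∧ f (Sum.inr 0) = v ∧
      (∀ u, pd s' t' a u = deg s t (f (Sum.inl u))) ∧
      ns s t = ns (clS s' fun _ => (0 : Fin 1)) (clT (Fin 1) t' a) ∧ PlN s' t' a := by
  classical
  have ho : ∀ k, (if s (b k).1 = v then t (b k).1 else s (b k).1) ≠ v := by
    intro k
    by_cases h1 : s (b k).1 = v
    · rw [if_pos h1]
      exact fun h2 => hl _ (h1.trans h2.symm)
    · rw [if_neg h1]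
      exact h1
  let a : Fin 4 → {u // u ≠ v} := fun k => ⟨_, ho k⟩
  let E' := {e // ¬ (s e = v ∨ t e = v)}
  let s' : E' → {u // u ≠ v} := fun e => ⟨s e.1, fun h1 => e.2 (Or.inl h1)⟩
  let t' : E' → {u // u ≠ v} := fun e => ⟨t e.1, fun h1 => e.2 (Or.inr h1)⟩
  have hf : Function.Bijective (Sum.elim Subtype.val fun _ => v : {u // u ≠ v} ⊕ Fin 1 → V) := by
    constructor
    · rintro (x | x) (y | y) hxy
      · exact congrArg _ (Subtype.ext hxy)
      · exact absurd hxy x.2
      · exact absurd hxy.symm y.2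
      · exact congrArg _ (Subsingleton.elim _ _)
    · intro u
      by_cases hu : u = v
      · exact ⟨Sum.inr 0, hu.symm⟩
      · exact ⟨Sum.inl ⟨u, hu⟩, rfl⟩
  have hg : Function.Bijective (Sum.elim Subtype.val fun k => (b k).1 : E' ⊕ Fin 4 → E) := by
    constructor
    · rintro (x | x) (y | y) hxy
      · exact congrArg _ (Subtype.ext hxy)
      · have h1 : x.1 = (b y).1 := hxy
        exact absurd (h1 ▸ (b y).2) x.2
      · have h1 : (b x).1 = y.1 := hxy
        exact absurd (h1 ▸ (b x).2) y.2
      · exact congrArg _ (b.injective (Subtype.ext hxy))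
    · intro e
      by_cases he : s e = v ∨ t e = v
      · refine ⟨Sum.inr (b.symm ⟨e, he⟩), ?_⟩
        show (b (b.symm ⟨e, he⟩)).1 = e
        rw [Equiv.apply_symm_apply]
      · exact ⟨Sum.inl ⟨e, he⟩, rfl⟩
  let f : {u // u ≠ v} ⊕ Fin 1 ≃ V := Equiv.ofBijective _ hf
  let g : E' ⊕ Fin 4 ≃ E := Equiv.ofBijective _ hg
  have hs1 : ∀ e, s (g e) = f ((f.symm ∘ s ∘ g) e) := fun e => (f.apply_symm_apply _).symm
  have ht1 : ∀ e, t (g e) = f ((f.symm ∘ t ∘ g) e) := fun e => (f.apply_symm_apply _).symm
  have hk1 : ∀ k, s (b k).1 = v → s (g (Sum.inr k)) = f (clS s' (fun _ => (0 : Fin 1)) (Sum.inr k)) ∧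
      t (g (Sum.inr k)) = f (clT (Fin 1) t' a (Sum.inr k)) := by
    intro k h2
    refine ⟨h2, ?_⟩
    show t (b k).1 = if s (b k).1 = v then t (b k).1 else s (b k).1
    rw [if_pos h2]
  have hk2 : ∀ k, s (b k).1 ≠ v → s (g (Sum.inr k)) = f (clT (Fin 1) t' a (Sum.inr k)) ∧
      t (g (Sum.inr k)) = f (clS s' (fun _ => (0 : Fin 1)) (Sum.inr k)) := by
    intro k h2
    refine ⟨?_, (b k).2.resolve_left h2⟩
    show s (b k).1 = if s (b k).1 = v then t (b k).1 else s (b k).1
    rw [if_neg h2]
  have hflip : ∀ e, ((f.symm ∘ s ∘ g) e = clS s' (fun _ => (0 : Fin 1)) e ∧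
      (f.symm ∘ t ∘ g) e = clT (Fin 1) t' a e) ∨
      ((f.symm ∘ s ∘ g) e = clT (Fin 1) t' a e ∧ (f.symm ∘ t ∘ g) e = clS s' (fun _ => (0 : Fin 1)) e) := by
    rintro (e | k)
    · left
      constructor
      · exact (Equiv.symm_apply_eq f).2 rfl
      · exact (Equiv.symm_apply_eq f).2 rfl
    · by_cases h2 : s (b k).1 = v
      · left
        exact ⟨(Equiv.symm_apply_eq f).2 (hk1 k h2).1, (Equiv.symm_apply_eq f).2 (hk1 k h2).2⟩
      · right
        exact ⟨(Equiv.symm_apply_eq f).2 (hk2 k h2).1, (Equiv.symm_apply_eq f).2 (hk2 k h2).2⟩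
  refine ⟨{u // u ≠ v}, E', inferInstance, inferInstance, s', t', a, f, ?_, rfl, ?_, ?_, ?_⟩
  · intro e he
    exact hl e.1 (congrArg Subtype.val he)
  · intro u
    have h1 := deg_iso f g (f.symm ∘ s ∘ g) (f.symm ∘ t ∘ g) s t hs1 ht1 (Sum.inl u)
    rw [h1, EXP_flip _ _ _ _ hflip]
    exact (deg_clo_inl s' t' a (fun _ => (0 : Fin 1)) u).symm
  · rw [ns_iso f g (f.symm ∘ s ∘ g) (f.symm ∘ t ∘ g) s t hs1 ht1]
    exact ns_flip _ _ _ _ hflip
  · refine ⟨D, inferInstance, fun e => l e.1, fun e => r e.1, fun k => tl s l r v (b k).1, fun x j => ?_⟩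
    let y : E → ℚ := fun e => Sum.elim x (fun k => if s (b k).1 = v then j k else - j k) (g.symm e)
    have hy1 : ∀ e : E', y e.1 = x e := by
      intro e
      have h1 : g.symm e.1 = Sum.inl e := (Equiv.symm_apply_eq g).2 rfl
      show Sum.elim x _ (g.symm e.1) = x e
      rw [h1]
      rfl
    have hy2 : ∀ k, y (b k).1 = if s (b k).1 = v then j k else - j k := by
      intro k
      have h1 : g.symm (b k).1 = Sum.inr k := (Equiv.symm_apply_eq g).2 rfl
      show Sum.elim x _ (g.symm (b k).1) = _
      rw [h1]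
      rfl
    have hnet : ∀ w, net s t y (f w) = net (clS s' (fun _ => (0 : Fin 1))) (clT (Fin 1) t' a)
        (Sum.elim x j) w := by
      refine EXP_net f g _ _ s t _ y fun o => ?_
      rcases o with e | k
      · exact Or.inl ⟨rfl, rfl, hy1 e⟩
      · by_cases h2 : s (b k).1 = v
        · refine Or.inl ⟨(hk1 k h2).1, (hk1 k h2).2, ?_⟩
          exact (hy2 k).trans (if_pos h2)
        · refine Or.inr ⟨(hk2 k h2).1, (hk2 k h2).2, ?_⟩
          exact (hy2 k).trans (if_neg h2)
    have key : (∀ u, net s' t' x u = ∑ k, @ite ℚ (a k = u) (Classical.propDecidable _) (j k) 0) ↔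
        ∀ u, net s t y u = 0 := by
      constructor
      · intro h1 u
        obtain ⟨w, rfl⟩ := f.surjective u
        rw [hnet]
        rcases w with w | w
        · rw [net_clo_inl, h1]
          exact sub_self _
        · rw [net_clo_inr]
          have h2 := P3.sum_net s' t' x
          have h3 : ∀ k, (∑ u : {u // u ≠ v}, @ite ℚ (a k = u) (Classical.propDecidable _) (j k) 0) =
              j k := by
            intro k
            rw [Finset.sum_eq_single (a k)]
            · exact if_pos rfl
            · intro u _ hu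
              exact if_neg (fun h4 => hu h4.symm)
            · intro h4
              exact absurd (Finset.mem_univ _) h4
          rw [Finset.sum_congr rfl fun u _ => h1 u, Finset.sum_comm] at h2
          refine Eq.trans (Finset.sum_congr rfl fun k _ => ?_) h2
          rw [if_pos (Subsingleton.elim _ _)]
          exact (h3 k).symm
      · intro h1 u
        have h2 := h1 (f (Sum.inl u))
        rw [hnet, net_clo_inl] at h2
        exact sub_eq_zero.1 h2
    rw [key, h]
    refine exists_congr fun φ => ?_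
    have hj : ∀ k, (y (b k).1 = φ (l (b k).1) - φ (r (b k).1) ↔
        j k = φ (tl s l r v (b (k + 1)).1) - φ (tl s l r v (b k).1)) := by
      intro k
      rw [hy2 k, ← hb k]
      unfold hd tl
      by_cases h2 : s (b k).1 = v
      · rw [if_pos h2, if_pos h2, if_pos h2]
      · rw [if_neg h2, if_neg h2, if_neg h2]
        constructor
        · intro h3
          linarith
        · intro h3
          linarith
    constructor
    · intro h1
      refine ⟨fun e => (hy1 e).symm.trans (h1 e.1), fun k => (hj k).1 (h1 _)⟩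
    · rintro ⟨h1, h2⟩ e
      by_cases he : s e = v ∨ t e = v
      · obtain ⟨k, hk⟩ : ∃ k, (b k).1 = e := ⟨b.symm ⟨e, he⟩, by rw [Equiv.apply_symm_apply]⟩
        rw [← hk]
        exact (hj k).2 (h2 k)
      · exact (hy1 ⟨e, he⟩).trans (h1 ⟨e, he⟩)

private theorem WDM_fib (n : Fin 4 → Fin 2) (hn : Function.Surjective n) (w : Fin 2) :
    {k | n k = w}.ncard ≤ 3 := by
  obtain ⟨w', hw'⟩ : ∃ w', w' ≠ w := ⟨w + 1, by fin_cases w <;> decide⟩
  obtain ⟨k0, hk0⟩ := hn w'
  have h : {k | n k = w} ⊂ Set.univ := by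
    refine ⟨Set.subset_univ _, fun hc => ?_⟩
    have : k0 ∈ {k | n k = w} := hc (Set.mem_univ k0)
    have h2 : n k0 = w := this
    exact hw' (hk0.symm.trans h2)
  have := Set.ncard_lt_ncard h (Set.toFinite _)
  rw [Set.ncard_univ, Nat.card_eq_fintype_card, Fintype.card_fin] at this
  omega

/-- MODULE WDM.  Planar version of `P3.wd_mem`; copy its proof and add the planarity: `pl_clo`, `plN_rung`, `plN_rot`
(there is no case `one`; the case `perm` is `rot`, with `P3.ev_perm`, `P3.pd_perm` for `finRotate 4`). -/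
theorem wdp_mem {X : (F : FinField) → Set (Pt F.K) → ℤ} (hX : WdP X) : ∀ {V E : Type} [Fintype V] [Fintype E]
    (s t : E → V) (a : Fin 4 → V) (m : ℕ), LL s t → (∀ v, pd s t a v ≤ 4) →
    {v | pd s t a v = 4}.ncard ≤ m → PlN s t a → Sp (PGm m) (ev X s t a) := by
  induction hX with
  | cl n hn hc =>
    intro V E _ _ s t a m h1 h2 h3 hp
    have hle : ∀ w, {k | n k = w}.ncard ≤ 3 := WDM_fib n hn
    refine KGU.sp_congr (KGU.sp_sub (KGU.sp_mulq (Fintype.card E + 4) Sp.one) (Sp.base (f := ns (clS s n)
      (clT (Fin 2) t a)) ⟨V ⊕ Fin 2, E ⊕ Fin 4, inferInstance, inferInstance, clS s n, clT (Fin 2) t a,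
        ?_, ?_, ?_, pl_clo s t a n hn hc hp, rfl⟩)) fun F => ?_
    · rintro (e | k) hc
      · exact h1 e (Sum.inl_injective hc)
      · exact Sum.inr_ne_inl hc
    · rintro (v | w)
      · rw [deg_clo_inl]
        exact h2 v
      · rw [deg_clo_inr]
        exact (hle w).trans (by norm_num)
    · have he : {v | deg (clS s n) (clT (Fin 2) t a) v = 4} =
          (Sum.inl '' {v | pd s t a v = 4} : Set (V ⊕ Fin 2)) := by
        ext v
        rcases v with v | w
        · show deg (clS s n) (clT (Fin 2) t a) (Sum.inl v) = 4 ↔ _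
          rw [deg_clo_inl]
          simp
        · show deg (clS s n) (clT (Fin 2) t a) (Sum.inr w) = 4 ↔ _
          rw [deg_clo_inr]
          have := hle w
          constructor
          · intro hc
            omega
          · rintro ⟨v, _, hv⟩
            exact absurd hv Sum.inl_ne_inr
      rw [he, Set.ncard_image_of_injective _ Sum.inl_injective]
      exact h3
    · rw [ns_clo s t a n hn F]
      ring
  | rung _ ih =>
    intro V E _ _ s t a m h1 h2 h3 hp
    refine KGU.sp_congr (ih (rgS s) (rgT t a) (rgA a) m ?_ ?_ ?_ (plN_rung s t a hp))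
      fun F => (ev_rung _ s t a F).symm
    · rintro (e | k) hc
      · exact h1 e (Sum.inl_injective hc)
      · fin_cases k
        · exact Sum.inr_ne_inl hc
        · exact Sum.inr_ne_inl hc
        · have : (Sum.inr 0 : V ⊕ Fin 2) = Sum.inr 1 := hc
          exact absurd (Sum.inr_injective this) (by decide)
    · rintro (v | j)
      · rw [pd_rung_inl]
        exact h2 v
      · rw [pd_rung_inr]
        norm_num
    · have he : {v | pd (rgS s) (rgT t a) (rgA a) v = 4} =
          (Sum.inl '' {v | pd s t a v = 4} : Set (V ⊕ Fin 2)) := by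
        ext v
        rcases v with v | j
        · show pd (rgS s) (rgT t a) (rgA a) (Sum.inl v) = 4 ↔ _
          rw [pd_rung_inl]
          simp
        · show pd (rgS s) (rgT t a) (rgA a) (Sum.inr j) = 4 ↔ _
          rw [pd_rung_inr]
          constructor
          · intro hc
            omega
          · rintro ⟨v, _, hv⟩
            exact absurd hv Sum.inl_ne_inr
      rw [he, Set.ncard_image_of_injective _ Sum.inl_injective]
      exact h3
  | rot _ ih =>
    intro V E _ _ s t a m h1 h2 h3 hp
    refine KGU.sp_congr (ih s t (a ∘ finRotate 4) m h1 ?_ ?_ (plN_rot s t a hp))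
      fun F => (ev_perm _ (finRotate 4) s t a F).symm
    · intro v
      rw [pd_perm]
      exact h2 v
    · simp only [pd_perm]
      exact h3
  | add _ _ ih1 ih2 =>
    intro V E _ _ s t a m h1 h2 h3 hp
    refine KGU.sp_congr (Sp.add (ih1 s t a m h1 h2 h3 hp) (ih2 s t a m h1 h2 h3 hp)) fun F => ?_
    unfold ev
    rw [Finset.sum_add_distrib]
  | mulp c _ ih =>
    intro V E _ _ s t a m h1 h2 h3 hp
    refine KGU.sp_congr (Sp.mulp c (ih s t a m h1 h2 h3 hp)) fun F => ?_
    unfold ev
    rw [Finset.mul_sum]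
  | div q hq _ ih =>
    intro V E _ _ s t a m h1 h2 h3 hp
    refine Sp.div q hq (KGU.sp_congr (ih s t a m h1 h2 h3 hp) fun F => ?_)
    unfold ev
    rw [Finset.mul_sum]

/-- MODULE PGS.  Planar version of `P3.gm_step`.

Proof.  Let `v` be a vertex of degree `4`, `l`, `r` a dual graph; `cyc4`.  First case: `bridge_split`; the new graph has no
loops (`LL_ae`, `LL_spl`), degrees `3` at `none` and `some v` (`deg_ae`, `deg_spl_none`, `deg_spl_self`) and `deg s t u` at `some u`, `u ≠ v`
(`deg_spl_other`), so at most `m` vertices of degree `4`; divide by `X`.  Second case: `exists_portsP`, and then as in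
`P3.gm_step` with `hC` instead of `wd_C0` and `wdp_mem` instead of `wd_mem`. -/
theorem pgm_step (hC : WdP fun _ B => C 0 B) (m : ℕ) {f : FinField → ℤ} (hf : f ∈ PGm (m + 1)) :
    Sp (PGm m) f := by
  classical
  obtain ⟨V, E, _, _, s, t, hl, hd, hc, hpl, rfl⟩ := hf
  by_cases h4 : {v | deg s t v = 4}.ncard ≤ m
  · exact Sp.base ⟨V, E, inferInstance, inferInstance, s, t, hl, hd, h4, hpl, rfl⟩
  · have hne : {v | deg s t v = 4}.Nonempty := by
      by_contra h
      rw [Set.not_nonempty_iff_eq_empty] at h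
      rw [h, Set.ncard_empty] at h4
      exact h4 (Nat.zero_le _)
    obtain ⟨v, hv⟩ := hne
    have hv4 : deg s t v = 4 := hv
    obtain ⟨D, _, l, r, hdu⟩ := hpl
    rcases cyc4 s t hl l r hdu v hv4 with ⟨J, hJ, hJc, hJs⟩ | ⟨l', r', b, hdu', hb⟩
    · obtain ⟨hpl', hns⟩ := bridge_split s t hl l r hdu v J hJ hJc hJs
      have hself : deg (spl v J s) (spl v J t) (some v) = 2 := by
        have := deg_spl_self hl v J hJ
        omega
      have hnone : deg (spl v J s) (spl v J t) none = 2 := by
        rw [deg_spl_none hl v J hJ, hJc]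
      have e1 : deg (ae (some v) (spl v J s)) (ae none (spl v J t)) none = 3 := by
        rw [KG.deg_ae, hnone, if_neg (Option.some_ne_none v).symm, if_pos rfl]
      have e2 : deg (ae (some v) (spl v J s)) (ae none (spl v J t)) (some v) = 3 := by
        rw [KG.deg_ae, hself, if_neg (Option.some_ne_none v), if_pos rfl]
      have e3 : ∀ u, u ≠ v → deg (ae (some v) (spl v J s)) (ae none (spl v J t)) (some u) = deg s t u := by
        intro u hu
        rw [KG.deg_ae, deg_spl_other s t v u hu, if_neg (fun h => hu (Option.some_injective V h)),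
          if_neg (Option.some_ne_none u), add_zero, add_zero]
      have hbase : Sp (PGm m) (ns (ae (some v) (spl v J s)) (ae none (spl v J t))) := by
        refine Sp.base ⟨Option V, Option E, inferInstance, inferInstance, _, _,
          LL_ae (LL_spl hl v J) (Option.some_ne_none v), ?_, ?_, hpl', rfl⟩
        · intro o
          rcases o with _ | u
          · rw [e1]
            norm_num
          · by_cases hu : u = v
            · rw [hu, e2]
              norm_num
            · rw [e3 u hu]
              exact hd u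
        · have h5 : {o | deg (ae (some v) (spl v J s)) (ae none (spl v J t)) o = 4} =
              some '' ({u | deg s t u = 4} \ {v}) := by
            ext o
            constructor
            · intro ho
              have ho' : deg (ae (some v) (spl v J s)) (ae none (spl v J t)) o = 4 := ho
              rcases o with _ | u
              · rw [e1] at ho'
                exact absurd ho' (by norm_num)
              · by_cases hu : u = v
                · rw [hu, e2] at ho'
                  exact absurd ho' (by norm_num)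
                · rw [e3 u hu] at ho'
                  exact ⟨u, ⟨ho', hu⟩, rfl⟩
            · rintro ⟨u, ⟨hu1, hu2⟩, rfl⟩
              exact (e3 u hu2).trans hu1
          rw [h5, Set.ncard_image_of_injective _ (Option.some_injective V)]
          have h6 := Set.ncard_sdiff_singleton_of_mem hv
          omega
      refine Sp.div Polynomial.X Polynomial.monic_X (Sp.congr (fun F => ?_) hbase)
      rw [hns F, Polynomial.eval_X]
    · obtain ⟨V', E', _, _, s', t', a, f, hl', hfv, hpd, hns, hplN⟩ := exists_portsP s t hl l' r' hdu' v b hb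
      have hsurj : Function.Surjective fun _ : Fin 4 => (0 : Fin 1) := fun w => ⟨0, (Subsingleton.elim _ _)⟩
      have h1 := ns_clo s' t' a (fun _ => (0 : Fin 1)) hsurj
      have h5 : {v | deg s t v = 4} = insert v ((fun u => f (Sum.inl u)) '' {u | pd s' t' a u = 4}) := by
        ext u
        simp only [Set.mem_ofPred_eq, Set.mem_insert_iff, Set.mem_image]
        constructor
        · intro hu
          obtain ⟨u', rfl⟩ := f.surjective u
          rcases u' with u' | u'
          · exact Or.inr ⟨u', (hpd u').trans hu, rfl⟩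
          · left
            rw [← hfv, Subsingleton.elim u' 0]
        · rintro (rfl | ⟨u', hu', rfl⟩)
          · exact hv
          · rw [← hpd]
            exact hu'
      have h6 : v ∉ (fun u => f (Sum.inl u)) '' {u | pd s' t' a u = 4} := by
        rintro ⟨u, _, hu⟩
        have : (Sum.inl u : V' ⊕ Fin 1) = Sum.inr 0 := f.injective (hu.trans hfv.symm)
        exact Sum.inl_ne_inr this
      have h7 : {v | deg s t v = 4}.ncard = {u | pd s' t' a u = 4}.ncard + 1 := by
        rw [h5, Set.ncard_insert_of_notMem h6, Set.ncard_image_of_injective]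
        exact f.injective.comp Sum.inl_injective
      have h3 := wdp_mem hC s' t' a m hl' (fun u => (hpd u).symm ▸ hd _) (by omega) hplN
      rw [hns]
      refine Sp.congr (fun F => ?_) (Sp.sub (Sp.pol (Polynomial.X ^ (Fintype.card E' + 4))) h3)
      rw [h1 F, Polynomial.eval_pow, Polynomial.eval_X]
      have h8 : ev (fun F B => Cl (fun _ => (0 : Fin 1)) B) s' t' a F = ev (fun _ B => C 0 B) s' t' a F := by
        unfold ev
        refine Finset.sum_congr rfl fun x _ => ?_
        exact Cl_eq_C _
      rw [h8]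

/-- MODULE PGA (1). -/
theorem pgm_all (hC : WdP fun _ B => C 0 B) (m : ℕ) : ∀ {f : FinField → ℤ}, f ∈ PGm m → Sp (PGm 0) f := by
  induction m with
  | zero => exact fun hf => Sp.base hf
  | succ m ih => exact fun hf => Sp.mono (fun g hg => ih hg) (pgm_step hC m hf)

private theorem PGA_aux (hC : WdP fun _ B => C 0 B) (N : ℕ) : ∀ (V E : Type) [Fintype V] [Fintype E]
    (s t : E → V), (∀ v, deg s t v ≤ 4) → Pl s t → Fintype.card E = N → Sp (PGm 0) (ns s t) := by
  classical
  induction N using Nat.strong_induction_on with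
  | _ N ih =>
    intro V E _ _ s t h hp hN
    by_cases hl : ∀ e, s e ≠ t e
    · exact pgm_all hC _ ⟨V, E, inferInstance, inferInstance, s, t, hl, h, le_rfl, hp, rfl⟩
    · push Not at hl
      obtain ⟨e0, he0⟩ := hl
      have hs : ∀ f : E → V, ∀ o, f (Equiv.optionSubtypeNe e0 o) =
          (ae (f e0) fun e : {e // e ≠ e0} => f e.1) o := by
        intro f o
        rcases o with _ | e
        · rw [Equiv.optionSubtypeNe_none]
          rfl
        · rw [Equiv.optionSubtypeNe_some]
          rfl
      let s' : {e // e ≠ e0} → V := s ∘ Subtype.val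
      let t' : {e // e ≠ e0} → V := t ∘ Subtype.val
      have h1 : ns s t = ns (ae (s e0) s') (ae (s e0) t') := by
        rw [ns_iso (Equiv.refl V) (Equiv.optionSubtypeNe e0) (ae (s e0) s') (ae (t e0) t') s t
          (fun o => hs s o) (fun o => hs t o), he0]
      have h2 : ∀ v, deg (ae (s e0) s') (ae (s e0) t') v = deg s t v := by
        intro v
        have h3 := deg_iso (Equiv.refl V) (Equiv.optionSubtypeNe e0) (ae (s e0) s') (ae (t e0) t') s t
          (fun o => hs s o) (fun o => hs t o) v
        rw [← he0] at h3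
        exact h3.symm
      have h5 : ∀ v, deg s' t' v ≤ 4 := by
        intro v
        have h6 := h2 v
        rw [KG.deg_ae] at h6
        have := h v
        omega
      have hc : Fintype.card E = Fintype.card {e // e ≠ e0} + 1 := by
        rw [← Fintype.card_congr (Equiv.optionSubtypeNe e0), Fintype.card_option]
      rw [h1]
      have h7 := ih _ (by omega) V {e // e ≠ e0} s' t' h5 (pl_sub s t Subtype.val Subtype.val_injective hp) rfl
      refine Sp.congr (fun F => ?_) (Sp.add (Sp.mulp (Polynomial.X - 1) h7)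
        (Sp.pol (Polynomial.X ^ Fintype.card {e // e ≠ e0})))
      rw [KGU.ns_loop]
      simp only [Polynomial.eval_sub, Polynomial.eval_X, Polynomial.eval_one, Polynomial.eval_pow]

/-- MODULE PGA (2).  Planar version of `P3.phi4_aux` (private there; loops are deleted: `KG.NS_loop` as in
`KG.phi4_all`, `pl_sub` with `ι = Subtype.val`). -/
theorem pgm_of_pphi4 (hC : WdP fun _ B => C 0 B) {f : FinField → ℤ} (hf : f ∈ PPhi4) : Sp (PGm 0) f := by
  obtain ⟨V, E, _, _, s, t, h, hp, rfl⟩ := hf
  exact PGA_aux hC _ V E s t h hp rfl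

end Pool.Agent.PL3
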